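import Pool.Agent.MP_3ee8cb_gt.PX.Spec

/-! The signed distance to a hyperplane is one Lipschitz. -/

namespace Pool.Agent.MP_3ee8cb_gt.PX

open DN

variable [Dim]

open Set
open scoped RealInnerProductSpace

omit [Dim] in
theorem b1_cs (A P A' P' : ℝ) : A * A' + P * P' ≤ √(A ^ 2 + P ^ 2) * √(A' ^ 2 + P' ^ 2) := by
  rw [← Real.sqrt_mul (by positivity)]
  exact Real.le_sqrt_of_sq_le (by nlinarith [sq_nonneg (A * P' - P * A')])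

theorem b1_key (X X' w : V) (hw : ‖w‖ = 1) :
    √(1 + ⟪w, X⟫ ^ 2) * √(1 + ⟪w, X'⟫ ^ 2) - ⟪w, X⟫ * ⟪w, X'⟫ ≤
      √(1 + ‖X‖ ^ 2) * √(1 + ‖X'‖ ^ 2) - ⟪X, X'⟫ := by
  have hww : ⟪w, w⟫ = 1 := by rw [real_inner_self_eq_norm_sq, hw]; norm_num
  have hin : ∀ Y Y' : V, ⟪Y - ⟪w, Y⟫ • w, Y' - ⟪w, Y'⟫ • w⟫ = ⟪Y, Y'⟫ - ⟪w, Y⟫ * ⟪w, Y'⟫ := by
    intro Y Y'
    simp only [inner_sub_left, inner_sub_right, real_inner_smul_left, real_inner_smul_right, hww]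
    rw [real_inner_comm w Y]
    ring
  have hn : ∀ Y : V, 1 + ‖Y‖ ^ 2 = √(1 + ⟪w, Y⟫ ^ 2) ^ 2 + ‖Y - ⟪w, Y⟫ • w‖ ^ 2 := by
    intro Y
    rw [Real.sq_sqrt (by positivity), ← real_inner_self_eq_norm_sq (Y - _), hin,
      real_inner_self_eq_norm_sq]
    ring
  have h1 := b1_cs (√(1 + ⟪w, X⟫ ^ 2)) ‖X - ⟪w, X⟫ • w‖ (√(1 + ⟪w, X'⟫ ^ 2)) ‖X' - ⟪w, X'⟫ • w‖
  have h2 := real_inner_le_norm (X - ⟪w, X⟫ • w) (X' - ⟪w, X'⟫ • w)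
  rw [hin] at h2
  rw [hn X, hn X']
  linarith

theorem b1_pol (ξ w : V) (hw : ‖w‖ = 1) :
    ∃ u : V, ‖u‖ = 1 ∧ ξ = ‖ξ‖ • u ∧ Sh ξ = Real.sinh ‖ξ‖ • u := by
  by_cases h : ξ = 0
  · exact ⟨w, hw, by simp [h], by simp [h, Sh]⟩
  · have hn : ‖ξ‖ ≠ 0 := norm_ne_zero_iff.2 h
    refine ⟨‖ξ‖⁻¹ • ξ, by rw [norm_smul, norm_inv, norm_norm, inv_mul_cancel₀ hn], ?_, ?_⟩
    · rw [smul_smul, mul_inv_cancel₀ hn, one_smul]
    · rw [Sh, smul_smul, div_eq_mul_inv]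

theorem sb1 : SB1 := by
  intro m lg δ h z w y y' hw
  obtain ⟨u, hu, e1, s1⟩ := b1_pol (lg (z, y)) w hw
  obtain ⟨v, hv, e2, s2⟩ := b1_pol (lg (z, y')) w hw
  have hz : ∀ (p a : V), lg (z, p) = ‖lg (z, p)‖ • a → (m.Z ‖lg (z, p)‖ (z, a)).1 = p := by
    intro p a e
    have h1 := h.had.ex z p
    rw [e, h.jac.scale, mul_one] at h1
    exact h1
  have hi := h.hin z u v _ _ hu hv (norm_nonneg (lg (z, y))) (norm_nonneg (lg (z, y')))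
  rw [hz y u e1, hz y' v e2] at hi
  simp only [one_mul] at hi
  have hk := b1_key (Sh (lg (z, y))) (Sh (lg (z, y'))) w hw
  have hc : ∀ (ξ a : V), ‖a‖ = 1 → Sh ξ = Real.sinh ‖ξ‖ • a →
      √(1 + ‖Sh ξ‖ ^ 2) = Real.cosh ‖ξ‖ := by
    intro ξ a ha e
    rw [e, norm_smul, ha, mul_one, Real.norm_eq_abs, sq_abs, add_comm, ← Real.cosh_sq,
      Real.sqrt_sq (Real.cosh_pos _).le]
  have hp : ⟪Sh (lg (z, y)), Sh (lg (z, y'))⟫ =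
      ⟪u, v⟫ * Real.sinh ‖lg (z, y)‖ * Real.sinh ‖lg (z, y')‖ := by
    rw [s1, s2, real_inner_smul_left, real_inner_smul_right]
    ring
  rw [hc _ u hu s1, hc _ v hv s2, hp] at hk
  have hb : Real.cosh (be lg z w y - be lg z w y') ≤ Real.cosh (dl lg y y') := by
    rw [Real.cosh_sub, be, be, Real.cosh_arsinh, Real.cosh_arsinh, Real.sinh_arsinh,
      Real.sinh_arsinh, dl]
    linarith
  rw [Real.cosh_le_cosh, abs_of_nonneg (show 0 ≤ dl lg y y' from norm_nonneg _)] at hb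
  exact (le_abs_self _).trans hb

end Pool.Agent.MP_3ee8cb_gt.PX
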