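import Pool.Agent.MP_3ee8cb_gt.PX.He

/-! Row SB2: the derivative of the signed distance in the base point. -/

namespace Pool.Agent.MP_3ee8cb_gt.PX

open DN Set Filter Topology HEx
open scoped RealInnerProductSpace

variable [Dim]

namespace B2x

variable {m : MF} {lg : V × V → V} {δ : ℝ}

theorem sh_zero {ξ : ℝ → V} {a : V} {s : ℝ} (h : HasDerivAt ξ a s) (h0 : ξ s = 0) :
    HasDerivAt (fun t => Sh (ξ t)) a s := by
  have e : ∀ b : V, Sh b = dslope Real.sinh 0 ‖b‖ • b := fun b => by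
    by_cases hb : b = 0
    · simp [Sh, hb]
    · rw [dslope_of_ne _ (norm_ne_zero_iff.2 hb), slope_def_field]
      simp [Sh]
  have c : ContinuousAt (dslope Real.sinh 0) ‖ξ s‖ := by
    rw [h0, norm_zero]
    exact continuousAt_dslope_same.2 Real.differentiableAt_sinh
  have c2 : Tendsto (fun t => dslope Real.sinh 0 ‖ξ t‖) (𝓝[≠] s) (𝓝 1) := by
    have := (ContinuousAt.comp (f := fun t => ‖ξ t‖) c h.continuousAt.norm).tendsto
    simp only [Function.comp, h0, norm_zero, dslope_same, Real.deriv_sinh, Real.cosh_zero] at this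
    exact this.mono_left nhdsWithin_le_nhds
  rw [hasDerivAt_iff_tendsto_slope] at h ⊢
  have := c2.smul h
  rw [one_smul] at this
  refine this.congr fun t => ?_
  simp only [slope, vsub_eq_sub, e, h0, smul_zero, sub_zero]
  exact smul_comm _ _ _

theorem sh_ne {ξ : ℝ → V} {a : V} {s : ℝ} (h : HasDerivAt ξ a s) (h0 : ξ s ≠ 0) :
    HasDerivAt (fun t => Sh (ξ t)) ((Real.sinh ‖ξ s‖ / ‖ξ s‖) • a +
      ((Real.cosh ‖ξ s‖ - Real.sinh ‖ξ s‖ / ‖ξ s‖) / ‖ξ s‖ ^ 2 * ⟪ξ s, a⟫) • ξ s) s := by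
  have hn := norm_ne_zero_iff.2 h0
  have h1 : HasDerivAt (fun t => ‖ξ t‖) (⟪ξ s, a⟫ / ‖ξ s‖) s := by
    have := h.norm_sq.sqrt (pow_ne_zero 2 hn)
    simp only [Real.sqrt_sq (norm_nonneg _)] at this
    refine this.congr_deriv ?_
    field_simp
  refine ((h1.sinh.div h1 hn).smul h).congr_deriv ?_
  congr 2
  field_simp

theorem dxi (P : PH m lg δ) (z : V × V) (y : V) (s : ℝ) :
    HasDerivAt (fun t => lg ((m.Z t z).1, y)) (-PXH.H m lg (m.Z s z).1 y (m.Z s z).2 -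
      m.w z s (lg ((m.Z s z).1, y))) s := by
  refine ((dlg P.had _ y).comp_hasDerivAt s (P.ok.ode z s).fst).congr_deriv ?_
  rw [PXH.H_eq, neg_neg]
  exact (add_sub_cancel_right _ _).symm

theorem norm_sh (ξ : V) : ‖Sh ξ‖ = Real.sinh ‖ξ‖ := by
  by_cases h : ξ = 0
  · simp [Sh, h]
  · rw [Sh, norm_smul, Real.norm_of_nonneg
      (div_nonneg (Real.sinh_nonneg_iff.2 (norm_nonneg _)) (norm_nonneg _)),
      div_mul_cancel₀ _ (norm_ne_zero_iff.2 h)]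

/-- The error term at one point. -/
theorem err (P : PH m lg δ) {z y : V} (h0 : lg (z, y) ≠ 0) (w : V) : ∃ k : V,
    (Real.sinh ‖lg (z, y)‖ / ‖lg (z, y)‖) • PXH.H m lg z y w +
      ((Real.cosh ‖lg (z, y)‖ - Real.sinh ‖lg (z, y)‖ / ‖lg (z, y)‖) / ‖lg (z, y)‖ ^ 2 *
        ⟪w, lg (z, y)⟫) • lg (z, y) = Real.cosh ‖lg (z, y)‖ • w + k ∧ 0 ≤ ⟪k, w⟫ ∧
      ‖k‖ ^ 2 ≤ δ ^ 2 * (Real.sinh ‖lg (z, y)‖ ^ 2 * ‖w‖ ^ 2 - ⟪w, Sh (lg (z, y))⟫ ^ 2) := by
  have hd := norm_pos_iff.2 h0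
  obtain ⟨p, r, hp, rfl⟩ : ∃ (p : V) (r : ℝ), ⟪p, lg (z, y)⟫ = 0 ∧ w = p + r • lg (z, y) := by
    refine ⟨w - (⟪w, lg (z, y)⟫ / ‖lg (z, y)‖ ^ 2) • lg (z, y), _, ?_, (sub_add_cancel _ _).symm⟩
    rw [inner_sub_left, real_inner_smul_left, real_inner_self_eq_norm_sq]
    field_simp
    ring
  set k := (Real.sinh ‖lg (z, y)‖ / ‖lg (z, y)‖) • PXH.H m lg z y p - Real.cosh ‖lg (z, y)‖ • p
    with hk
  have ki : ∀ f, ‖lg (z, y)‖ * ⟪k, f⟫ = Real.sinh ‖lg (z, y)‖ * ⟪PXH.H m lg z y p, f⟫ -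
      ‖lg (z, y)‖ * Real.cosh ‖lg (z, y)‖ * ⟪p, f⟫ := fun f => by
    rw [hk, inner_sub_left, real_inner_smul_left, real_inner_smul_left]
    field_simp
  have k0 : ⟪k, lg (z, y)⟫ = 0 := by
    have := ki (lg (z, y))
    rw [PXH.rad P.ok P.jac P.had, hp, mul_zero, mul_zero, sub_zero] at this
    exact (mul_eq_zero.1 this).resolve_left hd.ne'
  refine ⟨k, ?_, ?_, ?_⟩
  · rw [PXH.H_add, PXH.H_smul, PXH.H_rad P.ok P.jac P.had, inner_add_left, hp,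
      real_inner_smul_left, real_inner_self_eq_norm_sq, zero_add, hk]
    have : (Real.cosh ‖lg (z, y)‖ - Real.sinh ‖lg (z, y)‖ / ‖lg (z, y)‖) / ‖lg (z, y)‖ ^ 2 *
        (r * ‖lg (z, y)‖ ^ 2) =
        (Real.cosh ‖lg (z, y)‖ - Real.sinh ‖lg (z, y)‖ / ‖lg (z, y)‖) * r := by
      field_simp
    rw [this]
    module
  · have h1 := low P h0 hp
    have h2 := ki p
    rw [real_inner_self_eq_norm_sq] at h2
    rw [inner_add_right, real_inner_smul_right, k0, mul_zero, add_zero]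
    exact nonneg_of_mul_nonneg_right (by linarith) hd
  · have h1 := (abs_le.1 (up P hp k0)).2
    rw [← ki, real_inner_self_eq_norm_sq] at h1
    have hs : 0 ≤ Real.sinh ‖lg (z, y)‖ := Real.sinh_nonneg_iff.2 hd.le
    have h2 : ‖k‖ ^ 2 ≤ δ * Real.sinh ‖lg (z, y)‖ * ‖p‖ * ‖k‖ :=
      le_of_mul_le_mul_left (by linarith) hd
    have h3 : Real.sinh ‖lg (z, y)‖ ^ 2 * ‖p + r • lg (z, y)‖ ^ 2 -
        ⟪p + r • lg (z, y), Sh (lg (z, y))⟫ ^ 2 = (Real.sinh ‖lg (z, y)‖ * ‖p‖) ^ 2 := by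
      rw [Sh, norm_add_sq_real, real_inner_smul_right, real_inner_smul_right, inner_add_left, hp,
        real_inner_smul_left, real_inner_self_eq_norm_sq, norm_smul, mul_pow, Real.norm_eq_abs,
        sq_abs]
      field_simp
      ring
    rw [h3]
    nlinarith [sq_nonneg (δ * Real.sinh ‖lg (z, y)‖ * ‖p‖ - ‖k‖)]

theorem der (P : PH m lg δ) (z : V × V) {w : ℝ → V} (y : V) {s : ℝ}
    (hw : HasDerivAt w (-m.w z s (w s)) s) : ∃ k : V,
    HasDerivAt (fun t => ⟪w t, Sh (lg ((m.Z t z).1, y))⟫)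
      (-⟪Real.cosh ‖lg ((m.Z s z).1, y)‖ • w s + k, (m.Z s z).2⟫) s ∧ 0 ≤ ⟪k, w s⟫ ∧
      ‖k‖ ^ 2 ≤ δ ^ 2 * (Real.sinh ‖lg ((m.Z s z).1, y)‖ ^ 2 * ‖w s‖ ^ 2 -
        ⟪w s, Sh (lg ((m.Z s z).1, y))⟫ ^ 2) := by
  by_cases h0 : lg ((m.Z s z).1, y) = 0
  · refine ⟨0, (hw.inner ℝ (sh_zero (dxi P z y s) h0)).congr_deriv ?_, by simp, by simp [h0, Sh]⟩
    rw [PXH.H_zero P.ok P.jac P.up P.dn (by linarith [P.d0]) P.had h0]
    simp [h0, Sh]
  · obtain ⟨k, h1, h2, h3⟩ := err P h0 (w s)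
    refine ⟨k, (hw.inner ℝ (sh_ne (dxi P z y s) h0)).congr_deriv ?_, h2, h3⟩
    have a1 := DNFL.RGRAD.w_skew P.ok z s (lg ((m.Z s z).1, y)) (lg ((m.Z s z).1, y))
    have a2 := PXH.rad P.ok P.jac P.had (m.Z s z).1 y (m.Z s z).2
    rw [real_inner_comm] at a1 a2
    have a3 : ⟪lg ((m.Z s z).1, y), m.w z s (lg ((m.Z s z).1, y))⟫ = 0 := by linarith
    rw [← h1]
    simp only [Sh, inner_add_left, inner_add_right, inner_sub_right, inner_neg_left,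
      inner_neg_right, real_inner_smul_left, real_inner_smul_right, a2, a3, map_smul,
      DNFL.RGRAD.w_skew P.ok, PXH.sym P.ok P.jac P.had _ _ (w s),
      real_inner_comm (lg ((m.Z s z).1, y)) (m.Z s z).2]
    ring

end B2x

open B2x in
theorem sb2 : SB2 := fun m lg δ P _ z w y s hw => by
  obtain ⟨k, h1, h2, h3⟩ := der P z y (hw s).2
  set d := ‖lg ((m.Z s z).1, y)‖ with hd
  set g := ⟪w s, Sh (lg ((m.Z s z).1, y))⟫ with hg
  have g1 : |g| ≤ Real.sinh d := by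
    have := abs_real_inner_le_norm (w s) (Sh (lg ((m.Z s z).1, y)))
    rwa [(hw s).1, one_mul, norm_sh] at this
  have q0 : 0 < √(1 + g ^ 2) := Real.sqrt_pos.2 (by positivity)
  have q1 : √(1 + g ^ 2) ^ 2 = 1 + g ^ 2 := Real.sq_sqrt (by positivity)
  have g2 : g ^ 2 ≤ Real.sinh d ^ 2 := sq_le_sq' (abs_le.1 g1).1 (abs_le.1 g1).2
  refine ⟨Real.cosh d / √(1 + g ^ 2), (√(1 + g ^ 2))⁻¹ • k, h1.arsinh.congr_deriv ?_, ?_, ?_,
    ?_, ?_⟩
  · simp only [inner_add_left, real_inner_smul_left, smul_eq_mul, ← hg]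
    field_simp
  · rw [one_le_div q0]
    exact abs_le_of_sq_le_sq' (by rw [q1, Real.cosh_sq]; linarith) (Real.cosh_pos d).le |>.2
  · have b1 : -d ≤ Real.arsinh g := by
      rw [← Real.sinh_le_sinh, Real.sinh_neg, Real.sinh_arsinh]
      exact (abs_le.1 g1).1
    change _ ≤ Real.exp (d + Real.arsinh g)
    rw [div_le_iff₀ q0, ← Real.cosh_arsinh, Real.cosh_eq, Real.cosh_eq, mul_div_assoc', mul_add,
      ← Real.exp_add, ← Real.exp_add, add_neg_cancel_right]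
    have := Real.exp_le_exp.2 (show -d ≤ d + Real.arsinh g + Real.arsinh g by linarith)
    linarith
  · rw [real_inner_smul_left]
    positivity
  · have e : (Real.cosh d / √(1 + g ^ 2)) ^ 2 - 1 = (Real.sinh d ^ 2 - g ^ 2) / (1 + g ^ 2) := by
      rw [div_pow, q1, Real.cosh_sq]
      field_simp
      ring
    refine (abs_le_of_sq_le_sq' ?_ (mul_nonneg P.d0 (Real.sqrt_nonneg _))).2
    rw [e, mul_pow, Real.sq_sqrt (div_nonneg (by linarith) (by positivity)), norm_smul, mul_pow,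
      Real.norm_eq_abs, sq_abs, inv_pow, q1, ← mul_div_assoc, inv_mul_eq_div]
    rw [(hw s).1, one_pow, mul_one] at h3
    exact div_le_div_of_nonneg_right h3 (by positivity)

end Pool.Agent.MP_3ee8cb_gt.PX
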