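import Pool.Agent.MP_3ee8cb_gt.DN.Spec2

/-! Rigidity of pinched manifolds among all metrics: definitions and statements of the rows. -/

namespace Pool.Agent.MP_3ee8cb_gt.PX

open DN

variable [Dim]

open Set Filter Topology MeasureTheory Metric
open CR (Met UT Riem Deck RP dd ng tm FdP MinP bus DBP LenP)
open LV (QP CJ)
open scoped RealInnerProductSpace

noncomputable section

/-! ### The metric level -/

/-- Through every point there is a vector whose image is asymptotic to a given one. -/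
def ExP {g h : Met dm} (Φ : ℝ → UT g → UT g) (Ψ : ℝ → UT h → UT h) (F : UT g → UT h) : Prop :=
  ∀ (p : UT g) (x : V), ∃ (v : UT g) (s : ℝ), v.1.1 = x ∧
    Tendsto (fun t => dd h (Ψ t (F v)).1.1 (Ψ t (F (Φ s p))).1.1) atTop (𝓝 0)

def SEX : Prop := On2 fun _ h _ _ _ _ _ _ _ _ Φ Ψ _ F => TB.CurvLe h 1 → ExP Φ Ψ F

def SD4 : Prop := On2 fun g h _ _ _ _ _ _ _ _ Φ Ψ _ F => TB.CurvLe h 1 → MinP g Φ →
  (∀ p, F (ng p) = ng (F p)) → ExP Φ Ψ F → ExP Ψ Ψ id →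
  ∀ p q : UT g, p.1.1 = q.1.1 → bus h Ψ (F q) (F p).1.1 ≤ 1

/-- A short map into the tight span. -/
structure DP (dX dY D : V → V → ℝ) : Prop where
  ly : ∀ x y y', D x y - D x y' ≤ dY y y'
  lx : ∀ x x' y, D x y - D x' y ≤ dX x x'
  tri : ∀ x y y', dY y y' ≤ D x y + D x y'
  cen : ∀ x, ∃ y, D x y ≤ 1

def SDP : Prop := On2 fun g h _ _ Γ _ _ _ _ _ Φ Ψ ρ F => TB.CurvLe h 1 → MinP g Φ →
  (∀ p, F (ng p) = ng (F p)) → ExP Φ Ψ F →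
  (∀ p q : UT g, p.1.1 = q.1.1 → bus h Ψ (F q) (F p).1.1 ≤ 1) →
  ∃ D, DP (dd g) (dd h) D ∧ (∀ p, D p.1.1 (F p).1.1 ≤ 1) ∧
    ∀ (γ : Γ) x y, D (γ • x) (ρ γ • y) = D x y

/-! ### Signed distances to hyperplanes -/

def Sh (ξ : V) : V := (Real.sinh ‖ξ‖ / ‖ξ‖) • ξ

def be (lg : V × V → V) (z w y : V) : ℝ := Real.arsinh ⟪w, Sh (lg (z, y))⟫

/-- The distance given by `lg`. -/
def dl (lg : V × V → V) (y z : V) : ℝ := ‖lg (y, z)‖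

/-- A pinched Hadamard space. -/
structure PH (m : MF) (lg : V × V → V) (δ : ℝ) : Prop where
  ok : m.OK
  jac : m.Jac
  had : m.Had lg
  hin : Hin m lg 1
  up0 : m.Up 0
  up : m.Up 1
  dn : m.Dn (1 + δ)
  d0 : 0 ≤ δ
  d1 : δ ≤ 1

def B1 (lg : V × V → V) : Prop :=
  ∀ z w y y', ‖w‖ = 1 → be lg z w y - be lg z w y' ≤ dl lg y y'

def SB1 : Prop := ∀ m lg δ, PH m lg δ → B1 lg

/-- The Hessian of half the squared distance to `y` at `z`. -/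
def He (m : MF) (lg : V × V → V) (z y e : V) : V :=
  -(fderiv ℝ (fun z => lg (z, y)) z (m.R z e) + m.om z (m.R z e) (lg (z, y)))

structure HeP (m : MF) (lg : V × V → V) (δ : ℝ) : Prop where
  symm : ∀ z y e e', ⟪He m lg z y e, e'⟫ = ⟪e, He m lg z y e'⟫
  rad : ∀ z y, He m lg z y (lg (z, y)) = lg (z, y)
  zero : ∀ z e, He m lg z z e = e
  cmp : ∀ z y e, z ≠ y → ⟪e, lg (z, y)⟫ = 0 →
    dl lg z y * Real.cosh (dl lg z y) / Real.sinh (dl lg z y) * ‖e‖ ^ 2 ≤ ⟪He m lg z y e, e⟫ ∧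
    ⟪He m lg z y e, e⟫ ≤ (dl lg z y * Real.cosh (dl lg z y) / Real.sinh (dl lg z y) +
      δ * dl lg z y) * ‖e‖ ^ 2

def SHE : Prop := ∀ m lg δ, PH m lg δ → HeP m lg δ

/-- `w` is a parallel unit field along the orbit of `z`. -/
def Par (m : MF) (z : V × V) (w : ℝ → V) : Prop :=
  ∀ s, ‖w s‖ = 1 ∧ HasDerivAt w (-m.w z s (w s)) s

def B2 (m : MF) (lg : V × V → V) (δ : ℝ) : Prop := ∀ (z : V × V) (w : ℝ → V) (y : V) (s : ℝ),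
  Par m z w → ∃ (c : ℝ) (ζ : V),
    HasDerivAt (fun s => be lg (m.Z s z).1 (w s) y) (-⟪c • w s + ζ, (m.Z s z).2⟫) s ∧ 1 ≤ c ∧
    c ≤ Real.exp (dl lg (m.Z s z).1 y + be lg (m.Z s z).1 (w s) y) ∧ 0 ≤ ⟪ζ, w s⟫ ∧
    ‖ζ‖ ≤ δ * √(c ^ 2 - 1)

def SB2 : Prop := ∀ m lg δ, PH m lg δ → HeP m lg δ → B2 m lg δ

/-! ### The extension -/

def uu (lg : V × V → V) (D : V → V → ℝ) (x z w : V) : ℝ := ⨅ y, (be lg z w y + D x y)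

structure Su (m : MF) (lg : V × V → V) (dX D : V → V → ℝ) (u : V → V → V → ℝ) (δ : ℝ)
    (C r : ℝ → ℝ) : Prop where
  pos : ∀ R, 0 < C R ∧ 0 < r R
  near : ∀ x z w y, ‖w‖ = 1 → |u x z w - be lg z w y| ≤ D x y
  lx : ∀ x x' z w, ‖w‖ = 1 → u x z w - u x' z w ≤ dX x x'
  lw : ∀ R x z w w', D x z ≤ R → ‖w‖ = 1 → ‖w'‖ = 1 → u x z w' - u x z w ≤ C R * ‖w' - w‖
  step : ∀ R x (z : V × V) (w : ℝ → V) (s : ℝ), D x z.1 ≤ R → Par m z w → ‖s • z.2‖ ≤ r R →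
    u x (m.Z s z).1 (w s) - u x z.1 (w 0) ≤ C R * ‖s • z.2‖ ∧ ∀ τ : ℝ,
      (0 ≤ ⟪w 0, s • z.2⟫ → u x (m.Z s z).1 (w s) - u x z.1 (w 0) ≤
        -⟪w 0, s • z.2⟫ + δ * C R * ‖s • z.2 - τ • w 0‖) ∧
      (0 < ⟪w 0, s • z.2⟫ → u x (m.Z s z).1 (w s) - u x z.1 (w 0) ≤
        -⟪w 0, s • z.2⟫ + δ * C R * ‖s • z.2 - τ • w 0‖ ^ 2 / ⟪w 0, s • z.2⟫)

def SSU : Prop := ∃ C r : ℝ → ℝ, ∀ m lg δ dX D, PH m lg δ → B1 lg → B2 m lg δ →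
  DP dX (dl lg) D → Su m lg dX D (uu lg D) δ C r

/-- The homogeneous extension. -/
def U (u : V → V → V → ℝ) (x z w : V) : ℝ := ‖w‖ * u x z (‖w‖⁻¹ • w)

/-- The vector field whose zero is the projection. -/
def Vf (u : V → V → V → ℝ) (x z : V) : V := ∫ w in ball (0 : V) 1, U u x z w • w

def SEQ : Prop := ∀ (m : MF) (lg : V × V → V) (Λ : Type) [Group Λ] [MulAction Λ V] O
  (D : V → V → ℝ) (γ : Λ) (x x' z : V), m.OK → m.Had lg → Act m Λ O →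
  (∀ y, D x' (γ • y) = D x y) → Vf (uu lg D) x z = 0 → Vf (uu lg D) x' (γ • z) = 0

/-- `dX` is a distance that is infinitesimally bounded by the frame `R`. -/
structure XP (dX : V → V → ℝ) (R : V → V →L[ℝ] V) : Prop where
  symm : ∀ x x', dX x x' = dX x' x
  loc : ∀ x₀, ∃ K r : ℝ, 0 < r ∧ ∀ x ∈ ball x₀ r, ∀ x' ∈ ball x₀ r, dX x x' ≤ K * ‖x - x'‖
  inf : ∀ x a (ε : ℝ), 0 < ε → ∀ᶠ t in 𝓝[>] (0 : ℝ), dX (x + t • R x a) x ≤ t * (‖a‖ + ε)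

def SXP : Prop := On1 fun g C _ _ _ Φ => ∀ m : MF, m.OK → Lk g C Φ m → XP (dd g) m.R

/-- All data for the projection. -/
structure Dat (m : MF) (lg : V × V → V) (dX D : V → V → ℝ) (R : V → V →L[ℝ] V)
    (u : V → V → V → ℝ) (δ : ℝ) (C r : ℝ → ℝ) : Prop where
  ph : PH m lg δ
  xp : XP dX R
  dp : DP dX (dl lg) D
  su : Su m lg dX D u δ C r

def Loc (u : V → V → V → ℝ) : Prop := ∀ x₀ z₀ : V, ∃ (K : NNReal) (r : ℝ), 0 < r ∧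
  LipschitzOnWith K (fun q : V × V × V => U u q.1 q.2.1 q.2.2)
    (ball x₀ r ×ˢ ball z₀ r ×ˢ ball 0 2)

def SLOC : Prop := ∀ m lg dX D R u δ C r, Dat m lg dX D R u δ C r → Loc u

def SZERO : Prop := ∃ d : ℝ, 0 ≤ d ∧ ∀ m lg dX D R u δ C r, Dat m lg dX D R u δ C r → Loc u →
  (∀ x y z, D x y ≤ 1 → Vf u x z = 0 → dl lg z y ≤ d) ∧ ∀ x, ∃ z, Vf u x z = 0

/-- The second moment of the ball. -/
def kk : ℝ := ∫ w in ball (0 : V) 1, ‖w‖ ^ 2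

/-- Isotropy of the ball. -/
def SISO : Prop := 0 < kk ∧ (∀ a b : V, ∫ w in ball (0 : V) 1, ⟪w, a⟫ * ⟪w, b⟫ =
  kk / dm * ⟪a, b⟫) ∧ ∀ A : V →L[ℝ] V, ∫ w in ball (0 : V) 1, ‖A w‖ ^ 2 =
    ∫ w in ball (0 : V) 1, ‖ContinuousLinearMap.adjoint A w‖ ^ 2

def SMON : Prop := ∀ m lg dX D R u δ C r, Dat m lg dX D R u δ C r → Loc u → ∀ (R₀ T : ℝ) x
  (z : V × V), 2 * dm * (δ * C R₀) ≤ 1 → ‖z.2‖ = 1 → 0 ≤ T →
  (∀ s ∈ Icc 0 T, D x (m.Z s z).1 ≤ R₀) →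
  ⟪Vf u x (m.Z T z).1, (m.Z T z).2⟫ - ⟪Vf u x z.1, z.2⟫ ≤ -(T * (kk / (2 * dm)))

/-- The projection. -/
structure Fm (lg : V × V → V) (dX D : V → V → ℝ) (u : V → V → V → ℝ) (d : ℝ) (F : V → V) :
    Prop where
  zero : ∀ x, Vf u x (F x) = 0
  uniq : ∀ x z, Vf u x z = 0 → z = F x
  near : ∀ x y, D x y ≤ 1 → dl lg (F x) y ≤ d
  lip : ∀ x x', dX x x' ≤ 1 → dl lg (F x) (F x') ≤ 2 * dm * dX x x'

def SFIX : Prop := ∀ m lg dX D R u δ C r (d : ℝ), Dat m lg dX D R u δ C r → Loc u → 0 ≤ d →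
  2 * dm * (δ * C (3 * d + 9)) ≤ 1 → (∀ x y z, D x y ≤ 1 → Vf u x z = 0 → dl lg z y ≤ d) →
  (∀ x, ∃ z, Vf u x z = 0) → ∃ F, Fm lg dX D u d F

def SRAD : Prop := ∀ m lg dX D R u δ C r d F, Dat m lg dX D R u δ C r → Loc u →
  Fm lg dX D u d F → LocallyLipschitz F ∧ ∀ᵐ x, DifferentiableAt ℝ F x ∧
    ∀ᵐ w ∂(volume.restrict (ball (0 : V) 1)),
      DifferentiableAt ℝ (fun q : V × V => U u q.1 (F q.1) q.2) (x, w)

/-- The two integral inequalities. -/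
structure Ja (A : V →L[ℝ] V) (η : ℝ) : Prop where
  j1 : ∀ τ : ℝ, ∫ w in ball (0 : V) 1, ‖ContinuousLinearMap.adjoint A w‖ ^ 2 ≤
    (∫ w in ball (0 : V) 1, ‖w‖ * ‖ContinuousLinearMap.adjoint A w‖) +
      η * ‖A.comp (ContinuousLinearMap.adjoint A) - τ • ContinuousLinearMap.id ℝ V‖ * kk
  j2 : (∀ w, ‖w‖ ^ 2 / 2 ≤ ‖ContinuousLinearMap.adjoint A w‖ ^ 2) →
    ∀ τ : ℝ, ∫ w in ball (0 : V) 1, ‖ContinuousLinearMap.adjoint A w‖ ^ 2 ≤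
    (∫ w in ball (0 : V) 1, ‖w‖ * ‖ContinuousLinearMap.adjoint A w‖) +
      2 * η * ‖A.comp (ContinuousLinearMap.adjoint A) - τ • ContinuousLinearMap.id ℝ V‖ ^ 2 * kk

/-- The derivative of `F` in frames. -/
def dF (m : MF) (R : V → V →L[ℝ] V) (F : V → V) (x : V) : V →L[ℝ] V :=
  (m.S (F x)).comp ((fderiv ℝ F x).comp (R x))

def SJA : Prop := ∀ m lg dX D R u δ C r d F x, Dat m lg dX D R u δ C r → Loc u →
  Fm lg dX D u d F → LocallyLipschitz F → DifferentiableAt ℝ F x →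
  (∀ᵐ w ∂(volume.restrict (ball (0 : V) 1)),
    DifferentiableAt ℝ (fun q : V × V => U u q.1 (F q.1) q.2) (x, w)) →
  Ja (dF m R F x) (δ * C (d + 1))

/-- The speed of the image of a curve. -/
def SSP : Prop := ∀ (m : MF) (lg : V × V → V) (F : V → V) (c : ℝ → V) (a : V), m.OK → m.Jac →
  m.Had lg → DifferentiableAt ℝ F (c 0) → HasDerivAt c a 0 →
  Tendsto (fun t => dl lg (F (c 0)) (F (c t)) / t) (𝓝[>] 0)
    (𝓝 ‖m.S (F (c 0)) (fderiv ℝ F (c 0) a)‖)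

def SALG : Prop := ∀ M : ℝ, ∃ η : ℝ, 0 < η ∧ ∀ (A : V →L[ℝ] V) (η' : ℝ), 0 ≤ η' → η' ≤ η →
  ‖A‖ ≤ M → Ja A η' → ∫ w in ball (0 : V) 1, ‖A w‖ ^ 2 < kk ∨ ∀ a, ‖A a‖ = ‖a‖

/-! ### Lengths -/

/-- An invariant distance in which geodesics are almost as long as they are. -/
structure Len (m : MF) (Γ : Type) [Group Γ] [MulAction Γ V] (e : V → V → ℝ) : Prop where
  cont : Continuous fun q : V × V => e q.1 q.2
  inv : ∀ (γ : Γ) x x', e (γ • x) (γ • x') = e x x'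
  tri : ∀ x y z, e x z ≤ e x y + e y z
  pos : ∀ x y, 0 ≤ e x y
  low : ∃ c : ℝ, ∀ (z : V × V) (t : ℝ), 0 ≤ t → t * ‖z.2‖ - c ≤ e z.1 (m.Z t z).1
  upp : ∃ M : ℝ, ∀ (z : V × V) (t : ℝ), ‖z.2‖ ≤ 1 → 0 ≤ t → t ≤ 1 → e z.1 (m.Z t z).1 ≤ M * t

def SLEN : Prop := ∀ (m : MF) (Γ : Type) [Group Γ] [MulAction Γ V] O (e : V → V → ℝ)
  (A : V → V →L[ℝ] V), m.OK → m.Jac → Act m Γ O → FdP dm Γ → Len m Γ e →
  (∀ᵐ x, (∀ a, Tendsto (fun t => e x (m.Z t (x, a)).1 / t) (𝓝[>] 0) (𝓝 ‖A x a‖)) ∧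
    (∫ w in ball (0 : V) 1, ‖A x w‖ ^ 2 < kk ∨ ∀ a, ‖A x a‖ = ‖a‖)) →
  ∀ᵐ x, ∀ a, ‖A x a‖ = ‖a‖

def SLEQ : Prop := ∀ (m : MF) (Γ : Type) [Group Γ] [MulAction Γ V] O (e : V → V → ℝ),
  m.OK → m.Jac → Act m Γ O → FdP dm Γ → Len m Γ e →
  (∀ (z : V × V) (t : ℝ), 0 ≤ t → e z.1 (m.Z t z).1 ≤ t * ‖z.2‖) →
  ∀ (z : V × V) (t : ℝ), 0 ≤ t → e z.1 (m.Z t z).1 = t * ‖z.2‖

def SLN2 : Prop := ∀ (m : MF) (Γ : Type) [Group Γ] [MulAction Γ V] O (e : V → V → ℝ)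
  (A : V → V →L[ℝ] V), m.OK → m.Jac → Act m Γ O → FdP dm Γ → Len m Γ e →
  (∀ᵐ x, (∀ a, Tendsto (fun t => e x (m.Z t (x, a)).1 / t) (𝓝[>] 0) (𝓝 ‖A x a‖)) ∧
    (∫ w in ball (0 : V) 1, ‖A x w‖ ^ 2 < kk ∨ ∀ a, ‖A x a‖ = ‖a‖)) →
  ∀ (z : V × V) (t : ℝ), 0 ≤ t → e z.1 (m.Z t z).1 = t * ‖z.2‖

def SLIP : Prop := ∀ (g h : Met dm) (F : V → V), Riem g → Riem h → DBP g → DBP h → LenP h →
  LocallyLipschitz F → (∀ᵐ x, DifferentiableAt ℝ F x ∧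
    ∀ v, h (F x) (fderiv ℝ F x v) (fderiv ℝ F x v) ≤ g x v v) →
  ∀ x x', dd h (F x) (F x') ≤ dd g x x'

/-- A map that keeps distances is a Riemannian isometry. -/
def SMS : Prop := On2 fun g h C C' _ _ _ _ _ _ Φ Ψ _ _ => ∀ (m m' : MF) (lg : V × V → V)
  (G : V → V), m.OK → m.Jac → Lk g C Φ m → m'.OK → m'.Jac → Lk h C' Ψ m' → m'.Had lg →
  (∀ y z, ‖lg (y, z)‖ = dd h y z) → MinP g Φ → (∀ x x', dd h (G x) (G x') = dd g x x') →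
  Function.Bijective G ∧ ContDiff ℝ 1 G ∧
    ∀ x u v, h (G x) (fderiv ℝ G x u) (fderiv ℝ G x v) = g x u v

/-- The theorem for curvature between `-(1 + δ)` and `-1`. -/
def MainP (δ : ℝ) : Prop := On2 fun g h _ C' _ _ _ _ _ _ _ _ ρ _ =>
  Pin h C' 1 (1 + δ) → Iso g h ρ

end

end Pool.Agent.MP_3ee8cb_gt.PX
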