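import Pool.Agent.MP_3ee8cb_gt.PX.Iso

/-! The algebraic dichotomy. -/

namespace Pool.Agent.MP_3ee8cb_gt.PX

open DN

variable [Dim]

open Set MeasureTheory Metric
open ContinuousLinearMap (adjoint)
open scoped RealInnerProductSpace

namespace Alg

theorem ray {B : V →L[ℝ] V} (hB : B.IsSymmetric) : ∃ v, ‖v‖ = 1 ∧ ‖B‖ / 2 ≤ |⟪B v, v⟫| := by
  let f := EuclideanSpace.basisFun (Fin dm) ℝ
  rcases eq_or_lt_of_le (norm_nonneg B) with h | h
  · exact ⟨f 0, f.orthonormal.1 0, by rw [← h, zero_div]; exact abs_nonneg _⟩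
  have l : ‖B‖ / 2 < ⨆ x, |B.rayleighQuotient x| := by
    rw [← B.norm_eq_iSup_rayleighQuotient hB]
    linarith
  obtain ⟨x, hx⟩ := exists_lt_of_lt_ciSup l
  have x0 : x ≠ 0 := fun q => by
    rw [q, B.rayleighQuotient_apply_zero, abs_zero] at hx
    linarith
  refine ⟨‖x‖⁻¹ • x, norm_smul_inv_norm x0, hx.le.trans_eq ?_⟩
  congr 1
  rw [map_smul, real_inner_smul_left, real_inner_smul_right, ContinuousLinearMap.rayleighQuotient,
    ContinuousLinearMap.reApplyInnerSelf_apply, RCLike.re_to_real]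
  ring

theorem low : ∃ c : ℝ, 0 < c ∧ ∀ B : V →L[ℝ] V, B.IsSymmetric →
    c * ‖B‖ ^ 2 ≤ ∫ w in ball (0 : V) 1, ⟪B w, w⟫ ^ 2 := by
  have fin : volume (ball (0 : V) (1 / 32)) ≠ ⊤ := measure_ball_lt_top.ne
  refine ⟨volume.real (ball (0 : V) (1 / 32)) / 256, div_pos
    (ENNReal.toReal_pos (measure_ball_pos _ _ (by norm_num)).ne' fin) (by norm_num), fun B hB => ?_⟩
  obtain ⟨v, v1, hv⟩ := ray hB
  have n : ‖(1 / 2 : ℝ) • v‖ = 1 / 2 := by
    rw [norm_smul, v1]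
    norm_num
  have sub : ball ((1 / 2 : ℝ) • v) (1 / 32) ⊆ ball (0 : V) 1 :=
    ball_subset_ball' (by rw [dist_zero_right, n]; norm_num)
  have i : IntegrableOn (fun w => ⟪B w, w⟫ ^ 2) (ball (0 : V) 1) := Iso.int (by fun_prop)
  refine le_trans ?_ (setIntegral_mono_set i (.of_forall fun w => sq_nonneg _)
    (LE.le.eventuallyLE sub))
  have := setIntegral_ge_of_const_le_real (c := ‖B‖ ^ 2 / 256) measurableSet_ball
    measure_ball_lt_top.ne (fun w hw => ?_) (i.mono_set sub)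
  · rw [Measure.addHaar_real_ball_center] at this
    linarith
  · rw [mem_ball_iff_norm] at hw
    set e := w - (1 / 2 : ℝ) • v with he
    have hw' : w = (1 / 2 : ℝ) • v + e := by rw [he]; abel
    have b0 := norm_nonneg B
    have e0 := norm_nonneg e
    have b : ∀ x y : V, |⟪B x, y⟫| ≤ ‖B‖ * ‖x‖ * ‖y‖ := fun x y =>
      (abs_real_inner_le_norm _ _).trans
        (mul_le_mul_of_nonneg_right (B.le_opNorm x) (norm_nonneg _))
    have b1 := b v e
    have b2 := b e v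
    have b3 := b e e
    rw [v1] at b1 b2
    have q : ⟪B v, v⟫ / 4 = ⟪B w, w⟫ - ⟪B v, e⟫ / 2 - ⟪B e, v⟫ / 2 - ⟪B e, e⟫ := by
      rw [hw']
      simp only [map_add, map_smul, inner_add_left, inner_add_right, real_inner_smul_left,
        real_inner_smul_right]
      ring
    have p1 : ‖B‖ * ‖e‖ ≤ ‖B‖ * (1 / 32) := mul_le_mul_of_nonneg_left hw.le b0
    have p2 : ‖B‖ * ‖e‖ * ‖e‖ ≤ ‖B‖ * (1 / 32) * (1 / 32) :=
      mul_le_mul p1 hw.le e0 (by positivity)
    have l : ‖B‖ / 16 ≤ |⟪B w, w⟫| := by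
      rcases abs_le.1 b1 with ⟨_, _⟩
      rcases abs_le.1 b2 with ⟨_, _⟩
      rcases abs_le.1 b3 with ⟨_, _⟩
      rcases le_abs.1 hv with h | h
      · exact le_abs.2 (.inl (by linarith))
      · exact le_abs.2 (.inr (by linarith))
    rw [← sq_abs ⟪B w, w⟫]
    nlinarith

theorem orth {A : V →L[ℝ] V} (h : ∀ w, A (adjoint A w) = w) (a : V) : ‖A a‖ = ‖a‖ := by
  have i : Function.Injective (adjoint A : V →ₗ[ℝ] V) := fun x y q => by
    rw [← h x, ← h y]
    exact congrArg A q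
  obtain ⟨w, rfl⟩ := LinearMap.injective_iff_surjective.1 i a
  change ‖A (adjoint A w)‖ = ‖adjoint A w‖
  rw [h, ← sq_eq_sq₀ (norm_nonneg _) (norm_nonneg _), ← real_inner_self_eq_norm_sq (adjoint A w),
    ContinuousLinearMap.adjoint_inner_left, h, real_inner_self_eq_norm_sq]

end Alg

theorem sALG : SALG := by
  intro M₀
  obtain ⟨c, c0, hc⟩ := Alg.low
  have k0 := Iso.kpos
  obtain ⟨M, M1, hM⟩ : ∃ M : ℝ, 0 < M ∧ M₀ ≤ M :=
    ⟨|M₀| + 1, by positivity, by linarith [le_abs_self M₀]⟩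
  refine ⟨c / (8 * M ^ 3) / (4 * kk), by positivity, fun A η η0 hη hA J => ?_⟩
  refine or_iff_not_imp_left.2 fun h => Alg.orth ?_
  rw [sISO.2.2, not_lt] at h
  have hN : ∀ w, ‖adjoint A w‖ ≤ M * ‖w‖ := fun w => ((adjoint A).le_opNorm w).trans
    (mul_le_mul_of_nonneg_right (by
      rw [LinearIsometryEquiv.norm_map]
      exact hA.trans hM) (norm_nonneg _))
  set I2 := ∫ w in ball (0 : V) 1, ‖adjoint A w‖ ^ 2 with hI2
  set I1 := ∫ w in ball (0 : V) 1, ‖w‖ * ‖adjoint A w‖ with hI1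
  have i0 : IntegrableOn (fun w : V => ‖w‖ ^ 2) (ball 0 1) := Iso.int (by fun_prop)
  have i1 : IntegrableOn (fun w : V => ‖w‖ * ‖adjoint A w‖) (ball 0 1) := Iso.int (by fun_prop)
  have i2 : IntegrableOn (fun w : V => ‖adjoint A w‖ ^ 2) (ball 0 1) := Iso.int (by fun_prop)
  have up : I2 ≤ M ^ 2 * kk := by
    rw [kk, ← integral_const_mul]
    refine integral_mono i2 (i0.const_mul _) fun w => ?_
    simp only
    rw [← mul_pow]
    exact pow_le_pow_left₀ (norm_nonneg _) (hN w) 2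
  obtain ⟨r, rr, r1, rM⟩ : ∃ r : ℝ, r ^ 2 * kk = I2 ∧ 1 ≤ r ∧ r ≤ M :=
    ⟨√(I2 / kk), by
      rw [Real.sq_sqrt (div_nonneg (k0.le.trans h) k0.le), div_mul_cancel₀ _ k0.ne'],
      Real.one_le_sqrt.2 ((one_le_div k0).2 h), Real.sqrt_le_iff.2 ⟨M1.le, (div_le_iff₀ k0).2 up⟩⟩
  have rp : 0 < r := one_pos.trans_le r1
  set B := A.comp (adjoint A) - r ^ 2 • ContinuousLinearMap.id ℝ V with hB
  have Bw : ∀ x y, ⟪B x, y⟫ = ⟪adjoint A x, adjoint A y⟫ - r ^ 2 * ⟪x, y⟫ := fun x y => by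
    rw [ContinuousLinearMap.adjoint_inner_right, ← real_inner_smul_left, ← inner_sub_left]
    rfl
  have Bs : B.IsSymmetric := fun x y => by
    change ⟪B x, y⟫ = ⟪x, B y⟫
    rw [real_inner_comm (B y), Bw, Bw, real_inner_comm x, real_inner_comm (adjoint A x)]
  have Bq : ∀ w, ⟪B w, w⟫ = ‖adjoint A w‖ ^ 2 - r ^ 2 * ‖w‖ ^ 2 := fun w => by
    rw [Bw, real_inner_self_eq_norm_sq, real_inner_self_eq_norm_sq]
  have gain : c * ‖B‖ ^ 2 ≤ 4 * M ^ 2 * (I2 - 2 * r * I1 + r ^ 2 * kk) := by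
    refine (hc B Bs).trans ?_
    rw [kk, hI1, hI2, ← integral_const_mul, ← integral_const_mul,
      ← integral_sub i2 (i1.const_mul _), ← integral_add (Iso.int (by fun_prop))
        (i0.const_mul _), ← integral_const_mul]
    refine setIntegral_mono_on (Iso.int (by fun_prop)) (Iso.int (by fun_prop)) measurableSet_ball
      fun w hw => ?_
    have w1 := (mem_ball_zero_iff.1 hw).le
    have w0 := norm_nonneg w
    have f0 := norm_nonneg (adjoint A w)
    have p1 : M * ‖w‖ ≤ M := mul_le_of_le_one_right M1.le w1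
    have p2 : r * ‖w‖ ≤ M := (mul_le_mul_of_nonneg_right rM w0).trans p1
    have p3 : (‖adjoint A w‖ + r * ‖w‖) ^ 2 ≤ (2 * M) ^ 2 :=
      pow_le_pow_left₀ (by positivity) (by linarith [hN w]) 2
    have p4 := mul_le_mul_of_nonneg_right p3 (sq_nonneg (‖adjoint A w‖ - r * ‖w‖))
    rw [Bq]
    linarith
  have b0 := norm_nonneg B
  have Bv : ∀ w, B w = A (adjoint A w) - r ^ 2 • w := fun w => rfl
  have loss : I2 ≤ I1 + 2 * η * ‖B‖ ^ 2 * kk := by
    rcases le_total ‖B‖ (1 / 2) with q | q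
    · refine J.j2 (fun w => ?_) (r ^ 2)
      have p1 : |⟪B w, w⟫| ≤ ‖B‖ * ‖w‖ * ‖w‖ := (abs_real_inner_le_norm _ _).trans
        (mul_le_mul_of_nonneg_right (B.le_opNorm w) (norm_nonneg _))
      have p2 := (abs_le.1 p1).1
      have p3 := mul_le_mul_of_nonneg_right q (sq_nonneg ‖w‖)
      have p4 := mul_le_mul_of_nonneg_right (one_le_pow₀ r1 (n := 2)) (sq_nonneg ‖w‖)
      rw [Bq] at p2
      nlinarith
    · refine (J.j1 (r ^ 2)).trans (add_le_add_right ?_ _)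
      rw [← hB]
      have : ‖B‖ ≤ 2 * ‖B‖ ^ 2 := by nlinarith
      have := mul_le_mul_of_nonneg_right (mul_le_mul_of_nonneg_left this η0) k0.le
      linarith
  clear_value B I1 I2
  have e1 : η * kk * (32 * M ^ 3) ≤ c := by
    have := mul_le_mul_of_nonneg_right hη (show 0 ≤ kk * (32 * M ^ 3) by positivity)
    have q : c / (8 * M ^ 3) / (4 * kk) * (kk * (32 * M ^ 3)) = c := by
      field_simp
      ring
    linarith
  have e2 := mul_le_mul_of_nonneg_right e1 (sq_nonneg ‖B‖)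
  have e3 : I2 - 2 * r * I1 + r ^ 2 * kk ≤ 2 * r * (r * (1 - r) * kk + 2 * η * ‖B‖ ^ 2 * kk) := by
    have := mul_le_mul_of_nonneg_left loss (show 0 ≤ 2 * r by linarith)
    rw [← rr] at this ⊢
    linarith
  have e4 := gain.trans (mul_le_mul_of_nonneg_left e3 (by positivity))
  have e5 : r * (η * ‖B‖ ^ 2 * kk * M ^ 2) ≤ M * (η * ‖B‖ ^ 2 * kk * M ^ 2) :=
    mul_le_mul_of_nonneg_right rM (by positivity)
  have e6 : c * ‖B‖ ^ 2 / 2 + 8 * M ^ 2 * r ^ 2 * kk * (r - 1) ≤ 0 := by linarith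
  have p1 : 0 ≤ c * ‖B‖ ^ 2 / 2 := by positivity
  have p0 : 0 < 8 * M ^ 2 * r ^ 2 * kk := by positivity
  have p2 := mul_nonneg p0.le (sub_nonneg.2 r1)
  have r0 : r = 1 := by
    have := (mul_eq_zero.1 (le_antisymm (by linarith) p2)).resolve_left p0.ne'
    linarith
  have B0 : B = 0 := by
    have : c * ‖B‖ ^ 2 = 0 := by linarith
    exact norm_eq_zero.1 (pow_eq_zero_iff two_ne_zero |>.1
      ((mul_eq_zero.1 this).resolve_left c0.ne'))
  intro w
  have := Bv w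
  rw [B0, r0, one_pow, one_smul] at this
  exact sub_eq_zero.1 this.symm

end Pool.Agent.MP_3ee8cb_gt.PX
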