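import Pool.Agent.MP_3ee8cb_gt.PX.Spec
import Pool.Agent.MP_3ee8cb_gt.PXH.Hess

/-! Row SHE: the Hessian comparison. -/

namespace Pool.Agent.MP_3ee8cb_gt.PX

open DN Set
open scoped RealInnerProductSpace

variable [Dim]

namespace HEx

variable {m : MF} {lg : V × V → V} {δ : ℝ}

theorem dlg (l : m.Had lg) (z y : V) : HasFDerivAt (fun z => lg (z, y))
    ((fderiv ℝ lg (z, y)).comp (.inl ℝ V V)) z :=
  (l.c1.differentiable one_ne_zero (z, y)).hasFDerivAt.comp z (hasFDerivAt_prodMk_left z y)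

theorem he_eq (l : m.Had lg) (z y e : V) : He m lg z y e = PXH.H m lg z y e := by
  rw [He, (dlg l z y).fderiv]
  rfl

theorem z0 (o : m.OK) (j : m.Jac) (y : V) : (m.Z 1 (y, 0)).1 = y := by
  have := j.scale 1 0 y 0
  rw [zero_smul, zero_mul, o.zero] at this
  rw [this]

theorem lg_self (P : PH m lg δ) (z : V) : lg (z, z) = 0 := by
  have := P.had.xe z 0
  rwa [z0 P.ok P.jac] at this

theorem lg_ne (P : PH m lg δ) {z y : V} (h : z ≠ y) : lg (z, y) ≠ 0 := fun h0 => by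
  have := P.had.ex z y
  rw [h0, z0 P.ok P.jac] at this
  exact h this

omit [Dim] in
theorem cosh_le {d : ℝ} (hd : 0 ≤ d) : Real.cosh d - 1 ≤ Real.sinh d := by
  have h1 := Real.cosh_sub_sinh d
  have h2 : Real.exp (-d) ≤ 1 := Real.exp_le_one_iff.2 (by linarith)
  linarith

/-- The comparison in norm. -/
theorem up (P : PH m lg δ) {z y e f : V} (he : ⟪e, lg (z, y)⟫ = 0) (hf : ⟪f, lg (z, y)⟫ = 0) :
    |Real.sinh ‖lg (z, y)‖ * ⟪PXH.H m lg z y e, f⟫ -
      ‖lg (z, y)‖ * Real.cosh ‖lg (z, y)‖ * ⟪e, f⟫| ≤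
      δ * (‖e‖ * ‖f‖) * (‖lg (z, y)‖ * Real.sinh ‖lg (z, y)‖) := by
  have h := PXH.up P.ok P.jac P.up P.dn (by linarith [P.d0]) P.had he hf
    (PXH.mod_sinh (norm_nonneg _))
  simp only [sub_zero, mul_one, sub_self, mul_zero, Real.cosh_zero, add_sub_cancel_left,
    neg_mul, ← sub_eq_add_neg] at h
  refine h.trans (mul_le_mul_of_nonneg_left ?_ (mul_nonneg P.d0 (by positivity)))
  linarith [mul_le_mul_of_nonneg_left (cosh_le (norm_nonneg (lg (z, y))))
    (norm_nonneg (lg (z, y)))]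

theorem low (P : PH m lg δ) {z y e : V} (h0 : lg (z, y) ≠ 0) (he : ⟪e, lg (z, y)⟫ = 0) :
    ‖lg (z, y)‖ * Real.cosh ‖lg (z, y)‖ * ‖e‖ ^ 2 ≤
      Real.sinh ‖lg (z, y)‖ * ⟪PXH.H m lg z y e, e⟫ := by
  have h := PXH.low P.ok P.jac P.up P.had he (PXH.mod_sinh (norm_nonneg _))
  simp only [sub_zero, mul_one] at h
  have hs : 0 < Real.sinh ‖lg (z, y)‖ := Real.sinh_pos_iff.2 (norm_pos_iff.2 h0)
  linarith [nonneg_of_mul_nonneg_right h hs]

end HEx

open HEx in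
theorem she : SHE := fun m lg δ P => by
  refine ⟨fun z y e e' => ?_, fun z y => ?_, fun z e => ?_, fun z y e h he => ?_⟩
  · rw [he_eq P.had, he_eq P.had, PXH.sym P.ok P.jac P.had]
  · rw [he_eq P.had, PXH.H_rad P.ok P.jac P.had]
  · rw [he_eq P.had, PXH.H_zero P.ok P.jac P.up P.dn (by linarith [P.d0]) P.had (lg_self P z)]
  · have hs : 0 < Real.sinh ‖lg (z, y)‖ := Real.sinh_pos_iff.2 (norm_pos_iff.2 (lg_ne P h))
    have h1 := low P (lg_ne P h) he
    have h2 := (abs_le.1 (up P he he)).2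
    rw [real_inner_self_eq_norm_sq] at h2
    rw [he_eq P.had, dl]
    constructor
    · rw [div_mul_eq_mul_div, div_le_iff₀ hs]
      linarith
    · rw [add_mul, div_mul_eq_mul_div, ← sub_le_iff_le_add, le_div_iff₀ hs]
      linarith

end Pool.Agent.MP_3ee8cb_gt.PX
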