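import Pool.Agent.MP_3ee8cb_gt.PX.Spec

/-! The extension is locally Lipschitz. -/

namespace Pool.Agent.MP_3ee8cb_gt.PX

open DN Set Metric Filter Topology
open scoped RealInnerProductSpace

variable [Dim]

theorem loc_hom {u : V → V → V → ℝ} {x x' z z' w w' : V} {R L a : ℝ} (hL : 0 ≤ L)
    (ha : 0 ≤ a) (b1 : ∀ v, ‖v‖ = 1 → |u x z v| ≤ R) (b2 : ∀ v, ‖v‖ = 1 → |u x' z' v| ≤ R)
    (lp : ∀ v v', ‖v‖ = 1 → ‖v'‖ = 1 → u x z v - u x' z' v' ≤ a + L * ‖v - v'‖) (hw : ‖w'‖ ≤ 2) :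
    U u x z w ≤ U u x' z' w' + (2 * a + (R + 2 * L) * ‖w - w'‖) := by
  unfold U
  have n0 := norm_nonneg (w - w')
  by_cases h : w = 0
  · subst h
    by_cases h' : w' = 0
    · subst h'
      simp only [norm_zero, zero_mul, sub_self, mul_zero]
      linarith
    · have k := (abs_le.1 (b2 (‖w'‖⁻¹ • w') (norm_smul_inv_norm h'))).1
      have k2 := mul_le_mul_of_nonneg_left k (norm_nonneg w')
      rw [zero_sub, norm_neg, norm_zero, zero_mul]
      nlinarith [mul_nonneg hL (norm_nonneg w')]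
  have u1 : ‖‖w‖⁻¹ • w‖ = 1 := norm_smul_inv_norm h
  by_cases h' : w' = 0
  · subst h'
    have k := mul_le_mul_of_nonneg_left (abs_le.1 (b1 _ u1)).2 (norm_nonneg w)
    rw [sub_zero, norm_zero, zero_mul]
    nlinarith [mul_nonneg hL (norm_nonneg w)]
  have u2 : ‖‖w'‖⁻¹ • w'‖ = 1 := norm_smul_inv_norm h'
  have d := abs_norm_sub_norm_le w w'
  have k1 : (‖w‖ - ‖w'‖) * u x z (‖w‖⁻¹ • w) ≤ ‖w - w'‖ * R :=
    (le_abs_self _).trans ((abs_mul _ _).trans_le (mul_le_mul d (b1 _ u1) (abs_nonneg _) n0))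
  have k2 : ‖w'‖ * ‖‖w‖⁻¹ • w - ‖w'‖⁻¹ • w'‖ ≤ 2 * ‖w - w'‖ := by
    have e : ‖w'‖ • (‖w‖⁻¹ • w - ‖w'‖⁻¹ • w') = (‖w'‖ - ‖w‖) • ‖w‖⁻¹ • w + (w - w') := by
      rw [smul_sub, sub_smul, smul_inv_smul₀ (norm_ne_zero_iff.2 h'),
        smul_inv_smul₀ (norm_ne_zero_iff.2 h)]
      abel
    have k := norm_add_le ((‖w'‖ - ‖w‖) • ‖w‖⁻¹ • w) (w - w')
    rw [← e, norm_smul, norm_norm, norm_smul (‖w'‖ - ‖w‖), u1, mul_one, Real.norm_eq_abs,
      abs_sub_comm] at k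
    linarith
  have k3 := mul_le_mul_of_nonneg_left (lp _ _ u1 u2) (norm_nonneg w')
  have k4 := mul_le_mul_of_nonneg_left k2 hL
  have k5 := mul_le_mul_of_nonneg_right hw ha
  nlinarith

theorem loc_par {m : MF} (h : m.OK) (j : m.Jac) (z₀ : V) : ∃ B : ℝ, 0 ≤ B ∧ ∀ z ∈ ball z₀ 1,
    ∀ e : V, ‖e‖ ≤ 1 → ∀ w : ℝ → V, Par m (z, e) w → ‖w 1 - w 0‖ ≤ B * ‖e‖ := by
  have c0 : Continuous fun q : ℝ × V × V => (m.Z q.1 q.2).1 := h.cZ.continuous.fst
  have c3 : Continuous fun y => ‖m.om y‖ :=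
    (continuous_norm (E := V →L[ℝ] V →L[ℝ] V)).comp h.com.continuous
  have c1 : Continuous fun q : ℝ × V × V => ‖m.om (m.Z q.1 q.2).1‖ := c3.comp c0
  have c2 : Continuous fun q : ℝ × V × V => m.R (m.Z q.1 q.2).1 := h.cR.continuous.comp c0
  have c : Continuous fun q : ℝ × V × V => ‖m.om (m.Z q.1 q.2).1‖ * ‖m.R (m.Z q.1 q.2).1‖ :=
    c1.mul c2.norm
  obtain ⟨B, hB⟩ := ((isCompact_Icc (a := (0 : ℝ)) (b := 1)).prod
    ((isCompact_closedBall z₀ 1).prod (isCompact_closedBall (0 : V) 1))).exists_bound_of_continuousOn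
      c.continuousOn
  refine ⟨max B 0, le_max_right _ _, fun z hz e he w hw => ?_⟩
  have k := norm_image_sub_le_of_norm_deriv_le_segment_01' (f := w)
    (f' := fun s => -m.w (z, e) s (w s)) (C := max B 0 * ‖e‖)
    (fun s _ => (hw s).2.hasDerivWithinAt) fun s hs => by
      have b := (le_abs_self _).trans (hB (s, z, e) ⟨⟨hs.1, hs.2.le⟩, ball_subset_closedBall hz,
        mem_closedBall_zero_iff.2 he⟩)
      have b1 := (m.w (z, e) s).le_opNorm (w s)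
      have b2 := (m.om (m.Z s (z, e)).1).le_opNorm (m.R (m.Z s (z, e)).1 (m.Z s (z, e)).2)
      have b3 := (m.R (m.Z s (z, e)).1).le_opNorm (m.Z s (z, e)).2
      rw [j.norm] at b3
      rw [(hw s).1, mul_one] at b1
      rw [norm_neg]
      refine b1.trans (b2.trans ((mul_le_mul_of_nonneg_left b3 (norm_nonneg _)).trans ?_))
      rw [← mul_assoc]
      exact mul_le_mul_of_nonneg_right (b.trans (le_max_left _ _)) (norm_nonneg _)
  exact k

theorem sLOC : SLOC := by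
  intro m lg dX D R u δ C r d x₀ z₀
  have h := d.ph.ok
  have j := d.ph.jac
  have H := d.ph.had
  have self : ∀ z, lg (z, z) = 0 := fun z => by
    have e := H.xe z 0
    have s := j.scale 1 0 z 0
    rw [zero_smul, zero_mul, h.zero] at s
    rwa [s] at e
  obtain ⟨K1, r1, p1, hx⟩ := d.xp.loc x₀
  obtain ⟨K2, t, ht, hl⟩ := (H.c1.contDiffAt (x := (z₀, z₀))).exists_lipschitzOnWith
  obtain ⟨r2, p2, hr2⟩ := Metric.mem_nhds_iff.1 ht
  obtain ⟨B, pB, hB⟩ := loc_par h j z₀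
  obtain ⟨R₀, hR₀⟩ : ∃ R₀, R₀ = |D x₀ z₀| + |K1| + K2 := ⟨_, rfl⟩
  have pC := (d.su.pos R₀).1
  have pr := (d.su.pos R₀).2
  have pK : (0 : ℝ) ≤ K2 := K2.2
  obtain ⟨ρ, pρ, ρ1, ρ2, ρ3, ρ4⟩ : ∃ ρ : ℝ, 0 < ρ ∧ ρ ≤ r1 ∧ ρ ≤ r2 ∧ ρ ≤ 1 ∧
      K2 * (2 * ρ) ≤ min 1 (r R₀) := by
    have pm : 0 < min 1 (r R₀) := lt_min one_pos pr
    refine ⟨min (min r1 r2) (min 1 (min 1 (r R₀) / (2 * (K2 + 1)))), by positivity,
      (min_le_left _ _).trans (min_le_left _ _), (min_le_left _ _).trans (min_le_right _ _),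
      (min_le_right _ _).trans (min_le_left _ _), ?_⟩
    have k : min (min r1 r2) (min 1 (min 1 (r R₀) / (2 * (K2 + 1)))) ≤
      min 1 (r R₀) / (2 * (K2 + 1)) := (min_le_right _ _).trans (min_le_right _ _)
    rw [le_div_iff₀ (by positivity)] at k
    have k0 : 0 ≤ min (min r1 r2) (min 1 (min 1 (r R₀) / (2 * (K2 + 1)))) := by positivity
    nlinarith
  have lx : ∀ x ∈ ball x₀ ρ, ∀ x' ∈ ball x₀ ρ, dX x x' ≤ |K1| * ‖x - x'‖ := fun x a x' b =>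
    (hx x (ball_subset_ball ρ1 a) x' (ball_subset_ball ρ1 b)).trans
      (mul_le_mul_of_nonneg_right (le_abs_self _) (norm_nonneg _))
  have lz : ∀ z ∈ ball z₀ ρ, ∀ z' ∈ ball z₀ ρ, ‖lg (z, z')‖ ≤ K2 * ‖z - z'‖ := fun z a z' b => by
    have mem : ∀ y ∈ ball z₀ ρ, (z, y) ∈ t := fun y c => hr2 (by
      rw [← ball_prod_same]
      exact ⟨ball_subset_ball ρ2 a, ball_subset_ball ρ2 c⟩)
    have k := hl.dist_le_mul _ (mem z' b) _ (mem z a)
    rwa [self, dist_zero_right, Prod.dist_eq, dist_self, max_eq_right dist_nonneg, dist_comm,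
      dist_eq_norm] at k
  have bD : ∀ x ∈ ball x₀ ρ, ∀ z ∈ ball z₀ ρ, D x z ≤ R₀ := fun x a z b => by
    have k1 := d.dp.lx x x₀ z
    have k2 := d.dp.ly x₀ z z₀
    have k3 := lx x a x₀ (mem_ball_self pρ)
    have k4 : dl lg z z₀ ≤ _ := lz z b z₀ (mem_ball_self pρ)
    have k5 := mul_le_of_le_one_right (abs_nonneg K1) ((mem_ball_iff_norm.1 a).le.trans ρ3)
    have k6 := mul_le_of_le_one_right pK ((mem_ball_iff_norm.1 b).le.trans ρ3)
    linarith [le_abs_self (D x₀ z₀)]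
  have bu : ∀ x ∈ ball x₀ ρ, ∀ z ∈ ball z₀ ρ, ∀ v, ‖v‖ = 1 → |u x z v| ≤ R₀ := fun x a z b v hv => by
    have k := d.su.near x z v z hv
    rw [be, self, Sh, smul_zero, inner_zero_right, Real.arsinh_zero, sub_zero] at k
    exact k.trans (bD x a z b)
  have uz : ∀ x ∈ ball x₀ ρ, ∀ z ∈ ball z₀ ρ, ∀ z' ∈ ball z₀ ρ, ∀ v, ‖v‖ = 1 →
      u x z v - u x z' v ≤ C R₀ * (1 + B) * K2 * ‖z - z'‖ := fun x a z b z' b' v hv => by
    have k0 := lz z' b' z b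
    have k1 : ‖z' - z‖ ≤ 2 * ρ := by
      have := dist_triangle_right z' z z₀
      rw [dist_eq_norm] at this
      linarith [mem_ball.1 b, mem_ball.1 b']
    have k2 := k0.trans ((mul_le_mul_of_nonneg_left k1 pK).trans ρ4)
    obtain ⟨O, O0, -, Od⟩ := j.par (z', lg (z', z))
    have P : Par m (z', lg (z', z)) fun s => O s v := fun s =>
      ⟨((O s).norm_map v).trans hv, Od v s⟩
    have s1 := (d.su.step R₀ x (z', lg (z', z)) _ 1 (bD x a z' b') P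
      (by rw [one_smul]; exact k2.trans (min_le_right _ _))).1
    have s2 := hB z' (ball_subset_ball ρ3 b') _ (k2.trans (min_le_left _ _)) _ P
    have s3 := d.su.lw R₀ x z (O 1 v) v (bD x a z b) (P 1).1 hv
    simp only [H.ex, O0, one_smul] at s1 s2
    rw [norm_sub_rev] at s3 k0
    have s4 := mul_le_mul_of_nonneg_left s2 pC.le
    have s5 := mul_le_mul_of_nonneg_left k0 (mul_nonneg pC.le (by linarith : 0 ≤ 1 + B))
    nlinarith
  have pR : 0 ≤ R₀ := by rw [hR₀]; positivity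
  have pM : 0 ≤ C R₀ * (1 + B) * K2 := by positivity
  refine ⟨_, ρ, pρ, LipschitzOnWith.of_le_add_mul'
    (2 * (|K1| + C R₀ * (1 + B) * K2) + (R₀ + 2 * C R₀)) fun q hq q' hq' => ?_⟩
  have e1 : ‖q.1 - q'.1‖ ≤ dist q q' := by
    rw [dist_eq_norm]
    exact norm_fst_le (q - q')
  have e2 : ‖q.2.1 - q'.2.1‖ ≤ dist q q' := by
    rw [dist_eq_norm]
    exact (norm_fst_le (q - q').2).trans (norm_snd_le (q - q'))
  have e3 : ‖q.2.2 - q'.2.2‖ ≤ dist q q' := by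
    rw [dist_eq_norm]
    exact (norm_snd_le (q - q').2).trans (norm_snd_le (q - q'))
  have k := loc_hom (u := u) (w := q.2.2) (w' := q'.2.2) (L := C R₀)
    (a := (|K1| + C R₀ * (1 + B) * K2) * dist q q') pC.le (by positivity)
    (bu _ hq.1 _ hq.2.1) (bu _ hq'.1 _ hq'.2.1) (fun v v' hv hv' => by
      have a1 := (d.su.lx q.1 q'.1 q.2.1 v hv).trans ((lx _ hq.1 _ hq'.1).trans
        (mul_le_mul_of_nonneg_left e1 (abs_nonneg _)))
      have a2 := (uz _ hq'.1 _ hq.2.1 _ hq'.2.1 v hv).trans (mul_le_mul_of_nonneg_left e2 pM)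
      have a3 := d.su.lw R₀ q'.1 q'.2.1 v' v (bD _ hq'.1 _ hq'.2.1) hv' hv
      linarith) (mem_ball_zero_iff.1 hq'.2.2).le
  have e4 := mul_le_mul_of_nonneg_left e3 (by positivity : 0 ≤ R₀ + 2 * C R₀)
  linarith

end Pool.Agent.MP_3ee8cb_gt.PX
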