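import Pool.Agent.MP_3ee8cb_gt.PX.FIX
import Pool.Agent.MP_3ee8cb_gt.DZ.RFL
import Pool.Agent.MP_3ee8cb_gt.D3LM.Lip

/-! The projection is locally Lipschitz and differentiable almost everywhere. -/

namespace Pool.Agent.MP_3ee8cb_gt.PX

open DN

variable [Dim]

open Set Filter Topology MeasureTheory Metric

theorem lipF {m lg dX D R u δ C r d F} (h : Dat m lg dX D R u δ C r) (hf : Fm lg dX D u d F) :
    LocallyLipschitz F := by
  refine DZ.locLip h.ph.ok h.ph.jac h.ph.had fun x => ?_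
  obtain ⟨K, ρ, hρ, hK⟩ := h.xp.loc x
  have t : ∀ᶠ q : V × V in 𝓝 (x, x), K * ‖q.2 - q.1‖ ≤ 1 :=
    (Continuous.tendsto' (y := 0) (by fun_prop) _ (by simp)).eventually_le_const one_pos
  refine ⟨2 * dm * K, ?_⟩
  filter_upwards [t, prod_mem_nhds (ball_mem_nhds x hρ) (ball_mem_nhds x hρ)] with q h1 h2
  have h3 := hK _ h2.1 _ h2.2
  rw [norm_sub_rev] at h3
  rw [mul_assoc]
  exact (hf.lip _ _ (h3.trans h1)).trans (mul_le_mul_of_nonneg_left h3 (by positivity))

theorem lipY {u : V → V → V → ℝ} {F : V → V} (hl : Loc u) (lF : LocallyLipschitz F) :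
    LocallyLipschitzOn (univ ×ˢ ball (0 : V) 2) fun q : V × V => U u q.1 (F q.1) q.2 := by
  have l0 : LocallyLipschitz fun q : V × V => F q.1 :=
    lF.comp (g := Prod.fst) LipschitzWith.prod_fst.locallyLipschitz
  have l1 : LocallyLipschitz fun q : V × V => (q.1, F q.1, q.2) :=
    LipschitzWith.prod_fst.locallyLipschitz.prodMk
      (l0.prodMk LipschitzWith.prod_snd.locallyLipschitz)
  intro q hq
  obtain ⟨K, ρ, hρ, hK⟩ := hl q.1 (F q.1)
  obtain ⟨L, t, ht, hL⟩ := l1 q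
  have n : (fun q : V × V => (q.1, F q.1, q.2)) ⁻¹' (ball q.1 ρ ×ˢ ball (F q.1) ρ ×ˢ ball 0 2) ∈
      𝓝 q := l1.continuous.continuousAt.preimage_mem_nhds (prod_mem_nhds (ball_mem_nhds _ hρ)
    (prod_mem_nhds (ball_mem_nhds _ hρ) (isOpen_ball.mem_nhds hq.2)))
  exact ⟨K * L, _, nhdsWithin_le_nhds (inter_mem ht n),
    hK.comp (f := fun q : V × V => (q.1, F q.1, q.2)) (hL.mono inter_subset_left) fun _ k => k.2⟩

theorem sRAD : SRAD := by
  intro m lg dX D R u δ C r d F h hl hf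
  have lF := lipF h hf
  have a1 := D3LM.ae_diff volume isOpen_univ (lF.locallyLipschitzOn (s := univ))
  have a2 := Measure.ae_ae_of_ae_prod (D3LM.ae_diff ((volume : Measure V).prod volume)
    (isOpen_univ.prod isOpen_ball) (lipY hl lF))
  refine ⟨lF, ?_⟩
  filter_upwards [a1, a2] with x h1 h2
  refine ⟨h1 trivial, (ae_restrict_iff' measurableSet_ball).2 (h2.mono fun w k hw => ?_)⟩
  exact k ⟨trivial, ball_subset_ball one_le_two hw⟩

end Pool.Agent.MP_3ee8cb_gt.PX
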