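import Pool.Agent.MP_3ee8cb_gt.PX.Fin
import Pool.Agent.MP_3ee8cb_gt.PX.He
import Pool.Agent.MP_3ee8cb_gt.PX.B2
import Pool.Agent.MP_3ee8cb_gt.PX.Loc
import Pool.Agent.MP_3ee8cb_gt.PX.RAD
import Pool.Agent.MP_3ee8cb_gt.SLN.Z

/-! Pinched manifolds are rigid among all metrics. -/

namespace Pool.Agent.MP_3ee8cb_gt.PX

theorem main [DN.Dim] : ∃ δ, 0 < δ ∧ SLN.MainZ δ := main_of she sb2 sLOC sRAD

end Pool.Agent.MP_3ee8cb_gt.PX
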