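import Pool.Agent.MP_3ee8cb_gt.PX.Spec
import Pool.Agent.MP_3ee8cb_gt.DNFL.HFLP
import Pool.Agent.MP_3ee8cb_gt.LV.RBP

/-! The Busemann functions of the image of one fibre are bounded at the feet of the image. -/

namespace Pool.Agent.MP_3ee8cb_gt.PX

open Set Filter Topology
open CR (E Met UT Riem Deck RP dd ng tm MinP DBP bus)
open LV (QP CJ UQ BP TP ThP LbP Hinge)

namespace D4

variable {n : ℕ} {g h : Met n} {Γ Λ : Type} [Group Γ] [Group Λ] [MulAction Γ (E n)]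
  [MulAction Λ (E n)] {Φ : ℝ → UT g → UT g} {Ψ : ℝ → UT h → UT h}

theorem ng_foot (p : UT h) : (ng p).1.1 = p.1.1 := rfl

theorem ng_vec (p : UT h) : (ng p).1.2 = -p.1.2 := rfl

/-- A vector at `y` with the Busemann function of `Q`, normalised at `y`. -/
theorem norm_at (qh : QP h Λ Ψ) (bh : BP h Ψ) {Q v : UT h} {s : ℝ}
    (ht : Tendsto (fun t => dd h (Ψ t v).1.1 (Ψ t (Ψ s Q)).1.1) atTop (𝓝 0)) :
    s = -bus h Ψ Q v.1.1 ∧ ∀ x, bus h Ψ v x = bus h Ψ Q x - bus h Ψ Q v.1.1 := by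
  have h1 : ∀ x, bus h Ψ v x = bus h Ψ Q x + s := fun x => by
    rw [bh.top _ _ ht x, bh.shift]
  have h2 := bh.self v 0
  rw [qh.rp.flow.zero, h1] at h2
  exact ⟨by linarith, fun x => by rw [h1]; linarith⟩

/-- Two rays from one point whose Busemann data agree are close. -/
theorem close (qh : QP h Λ Ψ) (mh : MinP h Ψ) (hi : Hinge h Ψ 1) (th : ThP h Ψ 1)
    (lb : LbP h Ψ 1) (bh : BP h Ψ) {v w : UT h} (e : v.1.1 = w.1.1) {T β δ : ℝ} (hT : 1 ≤ T)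
    (hδ : 0 < δ) (hb : bus h Ψ v (Ψ T w).1.1 ≤ β - T)
    (hs : Real.exp (-(2 * (T - 1))) * Real.exp β ≤ Real.cosh δ - 1) :
    ∀ t ∈ Icc (0 : ℝ) 1, dd h (Ψ t v).1.1 (Ψ t w).1.1 ≤ δ := by
  have db := qh.rp.db
  obtain ⟨u, hu, hu'⟩ := qh.rp.hr (Ψ T v).1.1 (Ψ T w).1.1
  obtain ⟨r, hr⟩ : ∃ r, r = dd h (Ψ T v).1.1 (Ψ T w).1.1 := ⟨_, rfl⟩
  rw [← hr] at hu'
  have r0 : 0 ≤ r := hr ▸ db.nonneg _ _
  have h1 := lb (Ψ T v) u hu.symm r r0
  rw [hu', bh.shift] at h1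
  have h2 := hi (ng (Ψ T v)) u hu.symm T r (by linarith) r0
  have e0 : (Ψ T (ng (Ψ T v))).1.1 = (Ψ 0 w).1.1 := by
    rw [qh.rp.fl.rev, ← qh.add, neg_add_cancel, qh.rp.flow.zero, qh.rp.flow.zero, ng_foot, e]
  rw [hu', e0, mh, ng_foot, ng_vec, map_neg, _root_.neg_apply, zero_sub, abs_neg,
    abs_of_nonneg (by linarith : 0 ≤ T)] at h2
  simp only [one_mul] at h1 h2
  have sT : 0 < Real.sinh T := Real.sinh_pos_iff.2 (by linarith)
  have c1 := Real.one_le_cosh r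
  have cT := Real.cosh_pos T
  have h3 : h (Ψ T v).1.1 (Ψ T v).1.2 u.1.2 * Real.sinh r ≤ 0 := by
    by_contra hc
    have := mul_pos (not_le.1 hc) sT
    nlinarith [mul_nonneg cT.le (sub_nonneg.2 c1)]
  have h4 : Real.cosh r ≤ Real.exp β :=
    le_trans (by linarith) (h1.trans (Real.exp_le_exp.2 (by linarith)))
  intro t ht
  have h5 := th v w e T (T - t) (by linarith [ht.2]) (by linarith [ht.1])
  rw [sub_sub_cancel, ← hr] at h5
  simp only [one_mul, mul_one] at h5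
  have h6 : Real.exp (-(2 * (T - t))) ≤ Real.exp (-(2 * (T - 1))) :=
    Real.exp_le_exp.2 (by linarith [ht.2])
  have h7 : Real.exp (-(2 * (T - t))) * (Real.cosh r - 1) ≤
      Real.exp (-(2 * (T - 1))) * Real.exp β :=
    mul_le_mul h6 (by linarith) (by linarith) (Real.exp_pos _).le
  have h8 : Real.cosh (dd h (Ψ t v).1.1 (Ψ t w).1.1) ≤ Real.cosh δ := by linarith
  rw [Real.cosh_le_cosh, abs_of_pos hδ] at h8
  exact (le_abs_self _).trans h8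

theorem main (qg : QP g Γ Φ) (qh : QP h Λ Ψ) {ρ : Γ ≃* Λ} {F : UT g ≃ₜ UT h}
    (cj : CJ g h Φ Ψ ρ F) (hc : TB.CurvLe h 1) (mg : MinP g Φ)
    (fl : ∀ p, F (ng p) = ng (F p))
    (ex : ∀ (Q : UT h) (y : E n), ∃ (v : UT h) (s : ℝ), v.1.1 = y ∧
      Tendsto (fun t => dd h (Ψ t v).1.1 (Ψ t (Ψ s Q)).1.1) atTop (𝓝 0))
    (p q : UT g) (e : p.1.1 = q.1.1) : bus h Ψ (F q) (F p).1.1 ≤ 1 := by
  have hi : LV.Hinge h Ψ 1 := fun p q e s t hs ht => by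
    have := TB.hinge n h Λ Ψ 1 qh.rp one_pos hc p q e s t hs ht
    rwa [mul_assoc] at this
  obtain ⟨mh, i2⟩ := LV.hm n h Λ Ψ qh 1 one_pos hi
  have th := LV.th n h Λ Ψ qh 1 one_pos mh i2
  have eh := LV.eqv n h Λ Ψ qh mh
  have mo := LV.morse n h Λ Ψ qh 1 one_pos mh th
  have uF := LV.uq n g h Γ Λ Φ Ψ ρ F qg qh cj eh
  obtain ⟨-, tp⟩ := LV.min2 n g h Γ Λ Φ Ψ ρ F qg qh cj uF mo
  have bh := LV.bp n h Λ Ψ qh mh
  have bg := LV.bp n g Γ Φ qg mg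
  have lb := LV.lb n h Λ Ψ qh 1 one_pos hi bh
  obtain ⟨δ, hδ, hF⟩ := uF.foot (3 / 10) (by norm_num)
  obtain ⟨β, hβ⟩ : ∃ β, β = bus h Ψ (F q) (F p).1.1 := ⟨_, rfl⟩
  have hκ : 0 < Real.cosh δ - 1 := sub_pos.2 (Real.one_lt_cosh.2 hδ.ne')
  obtain ⟨T, hT, hs⟩ : ∃ T : ℝ, 1 ≤ T ∧
      Real.exp (-(2 * (T - 1))) * Real.exp β ≤ Real.cosh δ - 1 := by
    have b1 := abs_nonneg (β - Real.log (Real.cosh δ - 1))
    have b2 := le_abs_self (β - Real.log (Real.cosh δ - 1))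
    refine ⟨1 + |β - Real.log (Real.cosh δ - 1)|, by linarith, ?_⟩
    rw [← Real.exp_add, ← Real.le_log_iff_exp_le hκ]
    linarith
  have claim : ∀ p' : UT g, p'.1.1 = q.1.1 → (F p').1.1 = (F p).1.1 →
      bus h Ψ (F q) (Ψ T (F p')).1.1 ≤ T + 3 / 10 := by
    intro p' e1 e2
    by_contra hn
    have hn := not_le.1 hn
    obtain ⟨v, s, hv, ht⟩ := ex (F q) (Ψ T (F p')).1.1
    obtain ⟨hs1, hs2⟩ := norm_at qh bh ht
    rw [hv] at hs1 hs2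
    obtain ⟨v', rfl⟩ := F.surjective v
    have e3 : (Ψ T (ng (Ψ T (F p')))).1.1 = (F p).1.1 := by
      rw [qh.rp.fl.rev, ← qh.add, neg_add_cancel, qh.rp.flow.zero, ng_foot, e2]
    have hcl := close qh mh hi th lb bh (v := F v') (w := ng (Ψ T (F p'))) hv hT hδ
      (by rw [e3, hs2, ← hβ]; linarith) hs
    rw [← cj.flow, ← fl] at hcl
    have a1 := hF _ _ hcl
    rw [← cj.flow] at ht
    have a2 := bg.top _ _ (tp.top _ _ ht) q.1.1
    have a3 := bg.self q 0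
    rw [qg.rp.flow.zero] at a3
    rw [bg.shift, a3] at a2
    have a4 := bg.self v' 0
    rw [qg.rp.flow.zero] at a4
    have a5 := bg.lip v' v'.1.1 q.1.1
    have a6 := qg.rp.db.tri v'.1.1 (Φ T p').1.1 q.1.1
    have a7 := mg p' T 0
    rw [qg.rp.flow.zero, e1, sub_zero, abs_of_nonneg (by linarith : 0 ≤ T)] at a7
    rw [ng_foot] at a1
    linarith
  have c1 := claim p e rfl
  have c2 := claim (ng p) e (by rw [fl]; rfl)
  rw [fl] at c2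
  obtain ⟨v, s, hv, ht⟩ := ex (F q) (F p).1.1
  obtain ⟨-, hs2⟩ := norm_at qh bh ht
  rw [hv, ← hβ] at hs2
  have l1 := lb v (F p) hv T (by linarith)
  have l2 := lb v (ng (F p)) hv T (by linarith)
  rw [hs2] at l1 l2
  rw [ng_vec, map_neg] at l2
  simp only [one_mul] at l1 l2
  have m1 : Real.exp (bus h Ψ (F q) (Ψ T (F p)).1.1 - β) ≤ Real.exp (T + 3 / 10 - β) :=
    Real.exp_le_exp.2 (by linarith)
  have m2 : Real.exp (bus h Ψ (F q) (Ψ T (ng (F p))).1.1 - β) ≤ Real.exp (T + 3 / 10 - β) :=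
    Real.exp_le_exp.2 (by linarith)
  have m3 : Real.exp T ≤ 2 * Real.exp (T + 3 / 10 - β) := by
    have := Real.cosh_eq T
    linarith [Real.exp_pos (-T)]
  have m4 : T ≤ Real.log 2 + (T + 3 / 10 - β) := by
    rw [← Real.exp_le_exp, Real.exp_add, Real.exp_log two_pos]
    exact m3
  linarith [Real.log_two_lt_d9]

end D4

theorem sd4 [DN.Dim] : SD4 := fun _ _ _ _ _ _ _ _ _ _ _ _ _ _ qg qh _ _ _ _ cj hc mg fl _ ex =>
  D4.main qg qh cj hc mg fl ex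

end Pool.Agent.MP_3ee8cb_gt.PX
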