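import Pool.Agent.MP_3ee8cb_gt.PX.EX

/-! The short map into the tight span. -/

namespace Pool.Agent.MP_3ee8cb_gt.PX

open DN

variable [Dim]

open Set Filter Topology
open CR (E Met UT Riem Deck RP dd ng tm MinP bus)
open LV (QP CJ UQ TP BP ThP LbP I2P)

theorem sDP : SDP := by
  intro g h _ _ Γ Λ _ _ _ _ Φ Ψ ρ F qg qh _ _ _ _ cj hc _ fp _ h4
  obtain ⟨mg, mh, -, th, lb, -, bh, uF, tp⟩ := EX.kit qg qh cj hc
  have db := qh.rp.db
  have mv := DZM.mov1 qg qh mg bh th lb uF cj.flow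
  obtain ⟨M, hM⟩ := uF.bdd
  obtain ⟨D, hD⟩ : ∃ D : V → V → ℝ, ∀ x y,
      D x y = ⨆ v : {v : UT g // v.1.1 = x}, bus h Ψ (F v.1) y := ⟨_, fun _ _ => rfl⟩
  have z0 : ∀ w : UT h, bus h Ψ w w.1.1 = 0 := fun w => by
    have := bh.self w 0
    rwa [qh.rp.flow.zero, neg_zero] at this
  have ge : ∀ (v : UT g) y, bus h Ψ (F v) y ≤ D v.1.1 y := fun v y => by
    rw [hD]
    refine le_ciSup_of_le ⟨dd h y (F v).1.1 + M, ?_⟩ ⟨v, rfl⟩ le_rfl
    rintro _ ⟨u, rfl⟩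
    have a1 := bh.lip (F u.1) y (F u.1).1.1
    have a2 := db.tri y (F v).1.1 (F u.1).1.1
    have a3 := hM v u.1 u.2.symm
    rw [z0] at a1
    change bus h Ψ (F u.1) y ≤ _
    linarith
  have le : ∀ x y c, (∀ v : UT g, v.1.1 = x → bus h Ψ (F v) y ≤ c) → D x y ≤ c := fun x y c H => by
    obtain ⟨p, hp, -⟩ := qg.rp.hr x x
    have : Nonempty {v : UT g // v.1.1 = x} := ⟨⟨p, hp⟩⟩
    rw [hD]
    exact ciSup_le fun u => H u.1 u.2
  have ce : ∀ p : UT g, D p.1.1 (F p).1.1 ≤ 1 := fun p => le _ _ _ fun v e => h4 p v e.symm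
  have eh := LV.eqv _ h Λ Ψ qh mh
  have iv : ∀ (γ : Γ) x y, D x y ≤ D (γ • x) (ρ γ • y) := fun γ x y => le _ _ _ fun v e => by
    have a1 := cj.equi γ v (CR.uc_mv qg.rp.deck γ v) rfl
    have a2 : bus h Ψ (F (CR.uc_mv qg.rp.deck γ v)) (ρ γ • y) = bus h Ψ (F v) y := by
      unfold bus
      refine iInf_congr fun t => ?_
      rw [eh _ _ _ a1 t]
      exact congrArg (· - t) (qh.rp.inv (ρ γ) y _)
    rw [← a2, ← e]
    exact ge (CR.uc_mv qg.rp.deck γ v) _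
  refine ⟨D, ⟨fun x y y' => ?_, fun x x' y => ?_, fun x y y' => ?_, fun x => ?_⟩, ce,
    fun γ x y => le_antisymm ?_ (iv γ x y)⟩
  · have := le x y (D x y' + dd h y y') fun v e => by
      have a1 := ge v y'
      rw [e] at a1
      linarith [bh.lip (F v) y y']
    linarith
  · have := le x y (D x' y + dd g x x') fun v e => by
      obtain ⟨v', k, e', hk⟩ := mv v x'
      have a1 := DZM.mov2 qg qh mg bh th lb tp hk
      have a2 := ge v' y
      rw [e, e'] at a1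
      rw [e', hk] at a2
      linarith [(abs_le.1 a1).1]
    linarith
  · obtain ⟨q, q0, q1⟩ := qh.rp.hr y y'
    obtain ⟨v, k, e, hk⟩ := mv (F.symm q) x
    rw [F.apply_symm_apply] at hk
    have a1 := ge v y
    have a2 := ge (ng v) y'
    have a3 := bh.opp (F v) y'
    have a4 := bh.self q (dd h y y')
    have a5 := z0 q
    rw [fp] at a2
    change _ ≤ D v.1.1 y' at a2
    rw [e] at a1 a2
    rw [q1] at a4
    rw [q0] at a5
    linarith [hk y, hk y']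
  · obtain ⟨p, hp, -⟩ := qg.rp.hr x x
    exact ⟨_, hp ▸ ce p⟩
  · have := iv γ⁻¹ (γ • x) (ρ γ • y)
    rwa [map_inv, inv_smul_smul, inv_smul_smul] at this

end Pool.Agent.MP_3ee8cb_gt.PX
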