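import Pool.Agent.MP_3ee8cb_gt.PX.Spec

/-! The zeros of the vector field are equivariant. -/

namespace Pool.Agent.MP_3ee8cb_gt.PX

open DN

variable [Dim]

open Set MeasureTheory Metric

theorem sEQ : SEQ := by
  intro m lg Λ _ _ O D γ x x' z _ ha ac hD h0
  have l : ∀ y, lg (γ • z, γ • y) = O γ z (lg (z, y)) := fun y => by
    have h1 := ac.flow γ 1 (z, lg (z, y))
    have h2 := ha.xe (γ • z) (O γ z (lg (z, y)))
    rw [h1, ha.ex] at h2
    exact h2
  have b : ∀ w y, be lg (γ • z) (O γ z w) (γ • y) = be lg z w y := fun w y => by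
    rw [be, be, l, Sh, Sh, (O γ z).norm_map, ← map_smul, (O γ z).inner_map_map]
  have u : ∀ w, uu lg D x' (γ • z) (O γ z w) = uu lg D x z w := fun w => by
    unfold uu
    rw [← (MulAction.toPerm γ : Equiv.Perm V).iInf_comp]
    exact iInf_congr fun y => by rw [MulAction.toPerm_apply, b, hD]
  have mp := (O γ z).measurePreserving
  have e := mp.setIntegral_preimage_emb (O γ z).toHomeomorph.measurableEmbedding
    (fun w => U (uu lg D) x' (γ • z) w • w) (ball 0 1)
  have p : (O γ z) ⁻¹' ball (0 : V) 1 = ball 0 1 := by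
    ext w
    simp
  rw [p] at e
  have i := (O γ z).toLinearIsometry.integral_comp_comm (μ := volume.restrict (ball (0 : V) 1))
    fun w => U (uu lg D) x z w • w
  unfold Vf at h0 ⊢
  rw [h0, map_zero] at i
  refine e.symm.trans (Eq.trans ?_ i)
  refine integral_congr_ae (Filter.Eventually.of_forall fun w => ?_)
  change U (uu lg D) x' (γ • z) (O γ z w) • O γ z w = O γ z (U (uu lg D) x z w • w)
  rw [map_smul, U, U, (O γ z).norm_map, ← map_smul _ ‖w‖⁻¹, u]

end Pool.Agent.MP_3ee8cb_gt.PX
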