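import Pool.Agent.MP_3ee8cb_gt.PX.Spec
import Pool.Agent.MP_3ee8cb_gt.DZM.Base
import Pool.Agent.MP_3ee8cb_gt.DZ.H69Gr
import Pool.Agent.MP_3ee8cb_gt.DNFL.HFLP
import Pool.Agent.MP_3ee8cb_gt.LV.RBP

/-! Asymptotic vectors through a given point, and the bound on the feet. -/

namespace Pool.Agent.MP_3ee8cb_gt.PX

open DN

variable [Dim]

open Set Filter Topology
open CR (E Met UT Riem Deck RP dd ng tm MinP bus)
open LV (QP CJ UQ TP BP ThP LbP I2P)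

namespace EX

variable {n : ℕ} {g h : Met n} {Γ Λ : Type} [Group Γ] [Group Λ] [MulAction Γ (E n)]
  [MulAction Λ (E n)] {Φ : ℝ → UT g → UT g} {Ψ : ℝ → UT h → UT h} {ρ : Γ ≃* Λ}
  {F : UT g ≃ₜ UT h}

omit [Dim] in
/-- All metric facts on a conjugacy. -/
theorem kit (qg : QP g Γ Φ) (qh : QP h Λ Ψ) (cj : CJ g h Φ Ψ ρ F) (hc : TB.CurvLe h 1) :
    MinP g Φ ∧ MinP h Ψ ∧ I2P h Ψ 1 ∧ ThP h Ψ 1 ∧ LbP h Ψ 1 ∧ BP g Φ ∧ BP h Ψ ∧ UQ g h Ψ F ∧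
      TP g h Φ Ψ F := by
  have hi : LV.Hinge h Ψ 1 := fun p q e s t hs ht => by
    have := TB.hinge n h Λ Ψ 1 qh.rp one_pos hc p q e s t hs ht
    rwa [mul_assoc] at this
  obtain ⟨mh, i2⟩ := LV.hm n h Λ Ψ qh 1 one_pos hi
  have th := LV.th n h Λ Ψ qh 1 one_pos mh i2
  have bh := LV.bp n h Λ Ψ qh mh
  have uF := LV.uq n g h Γ Λ Φ Ψ ρ F qg qh cj (LV.eqv n h Λ Ψ qh mh)
  obtain ⟨mg, tp⟩ := LV.min2 n g h Γ Λ Φ Ψ ρ F qg qh cj uF (LV.morse n h Λ Ψ qh 1 one_pos mh th)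
  exact ⟨mg, mh, i2, th, LV.lb n h Λ Ψ qh 1 one_pos hi bh, LV.bp n g Γ Φ qg mg, bh, uF, tp⟩

end EX

theorem sEX : SEX := by
  intro g h _ _ Γ Λ _ _ _ _ Φ Ψ ρ F qg qh _ _ _ _ cj hc p x
  obtain ⟨mg, -, -, th, lb, -, bh, uF, -⟩ := EX.kit qg qh cj hc
  obtain ⟨v, k, hv, hk⟩ := DZM.mov1 qg qh mg bh th lb uF cj.flow p x
  have h1 := DZM.asy qh bh th lb (w := F v) (u := F p) (C := k) fun s _ => by
    rw [hk, bh.self]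
    linarith
  exact ⟨v, _, hv, by simpa only [cj.flow] using h1⟩

theorem sD4 : SD4 := by
  intro g h _ _ Γ Λ _ _ _ _ Φ Ψ ρ F qg qh _ _ _ _ cj hc _ fp _ _ p q e
  obtain ⟨mg, mh, i2, th, -, -, bh, uF, -⟩ := EX.kit qg qh cj hc
  refine (DZ.H69.ctr qg qh mg mh i2 th bh uF cj.flow fp q p e.symm).trans ?_
  linarith [Real.log_two_lt_d9]

end Pool.Agent.MP_3ee8cb_gt.PX
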