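import Pool.Agent.MP_3ee8cb_gt.PX.Iso
import Pool.Agent.MP_3ee8cb_gt.DNWI.Base

/-! The zero of the averaged field is unique and depends in a Lipschitz way on the point. -/

namespace Pool.Agent.MP_3ee8cb_gt.PX

open DN

variable [Dim]

open Set Filter Topology MeasureTheory Metric
open scoped RealInnerProductSpace

namespace Fix

variable {m : MF} {lg : V × V → V} {dX D : V → V → ℝ} {R : V → V →L[ℝ] V}
  {u : V → V → V → ℝ} {δ : ℝ} {C r : ℝ → ℝ}

theorem contU (hl : Loc u) (x z : V) : ContinuousOn (U u x z) (ball 0 2) := by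
  obtain ⟨K, r, hr, h⟩ := hl x z
  exact h.continuousOn.comp (f := fun w : V => (x, z, w)) (by fun_prop)
    fun w hw => ⟨mem_ball_self hr, mem_ball_self hr, hw⟩

theorem intU (hl : Loc u) (x z : V) :
    IntegrableOn (fun w => U u x z w • w) (ball (0 : V) 1) :=
  ((((contU hl x z).smul continuousOn_id).mono
    (closedBall_subset_ball one_lt_two)).integrableOn_compact
      (isCompact_closedBall (0 : V) 1)).mono_set ball_subset_closedBall

theorem nn (h : Dat m lg dX D R u δ C r) (x x' : V) : 0 ≤ dX x x' := by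
  have h1 := h.dp.lx x x' 0
  have h2 := h.dp.lx x' x 0
  rw [h.xp.symm x' x] at h2
  linarith

theorem self (h : Dat m lg dX D R u δ C r) (x : V) : dX x x ≤ 0 := by
  obtain ⟨K, r, hr, h⟩ := h.xp.loc x
  simpa using h x (mem_ball_self hr) x (mem_ball_self hr)

theorem absU (h : Dat m lg dX D R u δ C r) (x x' z w : V) :
    |U u x z w - U u x' z w| ≤ ‖w‖ * dX x x' := by
  rcases eq_or_ne w 0 with rfl | hw
  · simp [U]
  have n : ‖‖w‖⁻¹ • w‖ = 1 := norm_smul_inv_norm hw
  have h1 := h.su.lx x x' z _ n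
  have h2 := h.su.lx x' x z _ n
  rw [h.xp.symm x' x] at h2
  rw [U, U, ← mul_sub, abs_mul, abs_norm]
  exact mul_le_mul_of_nonneg_left (abs_le.2 ⟨by linarith, h1⟩) (norm_nonneg _)

theorem lipV (h : Dat m lg dX D R u δ C r) (hl : Loc u) (x x' z : V) :
    ‖Vf u x z - Vf u x' z‖ ≤ kk * dX x x' := by
  rw [Vf, Vf, ← integral_sub (intU hl x z) (intU hl x' z), kk, ← integral_mul_const]
  refine norm_integral_le_of_norm_le (Iso.int (by fun_prop)) (.of_forall fun w => ?_)
  rw [← sub_smul, norm_smul, Real.norm_eq_abs]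
  have := mul_le_mul_of_nonneg_right (absU h x x' z w) (norm_nonneg w)
  linarith

theorem two (mon : SMON) (h : Dat m lg dX D R u δ C r) (hl : Loc u) {d : ℝ} (hd : 0 ≤ d)
    (hc : 2 * dm * (δ * C (3 * d + 9)) ≤ 1)
    (h1 : ∀ x y z, D x y ≤ 1 → Vf u x z = 0 → dl lg z y ≤ d) {x x' z z' : V}
    (hx : dX x x' ≤ 1) (hz : Vf u x z = 0) (hz' : Vf u x' z' = 0) :
    dl lg z z' ≤ 2 * dm * dX x x' := by
  have ok := h.ph.ok
  have hj := h.ph.jac
  have hh := h.ph.had
  have tri : ∀ a b c, dl lg a c ≤ dl lg a b + dl lg b c := hh.tri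
  have sy : ∀ a b, dl lg a b = dl lg b a := fun a b => DNWI.lg_symm hj hh b a
  have p := Iso.dpos
  have k := Iso.kpos
  have n := nn h x x'
  rcases eq_or_ne (lg (z, z')) 0 with b0 | b0
  · rw [dl, b0, norm_zero]
    positivity
  obtain ⟨y, hy⟩ := h.dp.cen x
  obtain ⟨y', hy'⟩ := h.dp.cen x'
  have a1 := h1 x y z hy hz
  have a2 := h1 x' y' z' hy' hz'
  have a3 := h.dp.lx x x' y'
  have a4 := h.dp.tri x y y'
  have a5 := tri z y z'
  have a6 := tri y y' z'
  rw [sy y' z'] at a6
  set T := dl lg z z' with hT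
  let e : V := T⁻¹ • lg (z, z')
  have ne : ‖e‖ = 1 := norm_smul_inv_norm b0
  have T0 : T ≠ 0 := norm_ne_zero_iff.2 b0
  have en : (m.Z T (z, e)).1 = z' := by
    have := congrArg Prod.fst (DNWI.one_smul' hj T (z, e))
    simp only [e, smul_smul, mul_inv_cancel₀ T0, one_smul, hh.ex] at this
    exact this.symm
  have := mon m lg dX D R u δ C r h hl (3 * d + 9) T x (z, e) hc ne (norm_nonneg _)
    fun s hs => by
      have b1 := h.dp.ly x (m.Z s (z, e)).1 y
      have b2 := tri (m.Z s (z, e)).1 z y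
      have b3 : dl lg z (m.Z s (z, e)).1 = s := by
        rw [dl, DNWI.lg_ray hj hh s (z, e), norm_smul, ne, mul_one, Real.norm_of_nonneg hs.1]
      rw [sy _ z, b3] at b2
      linarith [hs.2]
  rw [en, hz, inner_zero_left, sub_zero] at this
  have l := lipV h hl x x' z'
  rw [hz', sub_zero] at l
  have c := abs_real_inner_le_norm (Vf u x z') (m.Z T (z, e)).2
  rw [hj.norm, ne, mul_one] at c
  have f : T * (kk / (2 * dm)) ≤ kk * dX x x' := by linarith [(abs_le.1 c).1]
  rw [← mul_div_assoc, div_le_iff₀ (by positivity)] at f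
  refine le_of_mul_le_mul_right ?_ k
  linarith

end Fix

theorem sFIX (mon : SMON) : SFIX := by
  intro m lg dX D R u δ C r d h hl hd hc h1 h2
  choose F hF using h2
  refine ⟨F, hF, fun x z hz => ?_, fun x y hy => h1 x y _ hy (hF x),
    fun x x' hx => Fix.two mon h hl hd hc h1 hx (hF x) (hF x')⟩
  have s := Fix.self h x
  have a := Fix.two mon h hl hd hc h1 (s.trans zero_le_one) (hF x) hz
  rw [le_antisymm s (Fix.nn h x x), mul_zero] at a
  have e := h.ph.had.ex (F x) z
  rw [norm_le_zero_iff.1 a, ← DNWI.lg_self h.ph.ok h.ph.jac h.ph.had (F x), h.ph.had.ex] at e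
  exact e.symm

end Pool.Agent.MP_3ee8cb_gt.PX
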