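import Pool.Agent.MP_3ee8cb_gt.PX.Spec
import Pool.Agent.MP_3ee8cb_gt.DNTR.Flow

/-! Row JA: the integral inequalities for the derivative of the projection. -/

namespace Pool.Agent.MP_3ee8cb_gt.PX

open DN

variable [Dim]

open Set Filter Topology MeasureTheory Metric
open scoped RealInnerProductSpace

namespace JA

variable {m : MF} {lg : V × V → V}

theorem tp (h : m.OK) (hj : m.Jac) : ∃ T : ℝ → V × V → V →L[ℝ] V, (∀ z w, T 0 z w = w) ∧
    (∀ z w t, HasDerivAt (fun s => T s z w) (-m.w z t (T t z w)) t) ∧ ContDiff ℝ 1 (T 1) ∧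
    (∀ s z w, ‖T s z w‖ = ‖w‖) ∧ ∀ y w, T 1 (y, 0) w = w := by
  obtain ⟨P, hP⟩ := DNTR.exists_tp h 0
  have d : ∀ z w t, HasDerivAt (fun s => (P s z (0, w)).2) (-m.w z t (P t z (0, w)).2) t :=
    fun z w t => by simpa using DNTR.ode_x hP z (0, w) t
  refine ⟨fun s z => (ContinuousLinearMap.snd ℝ ℝ V).comp ((P s z).comp (.inr ℝ ℝ V)),
    fun z w => by simp [hP.zero], d, contDiff_clm_apply_iff.2 fun w => ?_, fun s z w => ?_,
    fun y w => ?_⟩
  · exact (hP.c1.comp (contDiff_const.prodMk (contDiff_id.prodMk contDiff_const))).snd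
  · have e : ∀ t, HasDerivAt (fun s => ⟪(P s z (0, w)).2, (P s z (0, w)).2⟫) 0 t := fun t => by
      refine ((d z w t).inner ℝ (d z w t)).congr_deriv ?_
      have := h.skew (m.Z t z).1 (m.R (m.Z t z).1 (m.Z t z).2) (P t z (0, w)).2 (P t z (0, w)).2
      simp only [MF.w, inner_neg_left, inner_neg_right]
      linarith
    have := is_const_of_deriv_eq_zero (fun t => (e t).differentiableAt) (fun t => (e t).deriv) s 0
    rw [hP.zero, real_inner_self_eq_norm_sq, real_inner_self_eq_norm_sq] at this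
    exact (pow_left_inj₀ (norm_nonneg _) (norm_nonneg _) two_ne_zero).1 this
  · have e : ∀ t, HasDerivAt (fun s => (P s (y, 0) (0, w)).2) 0 t := fun t => by
      have n : (m.Z t (y, 0)).2 = 0 := norm_eq_zero.1 ((hj.norm t (y, 0)).trans norm_zero)
      simpa [MF.w, n] using d (y, 0) w t
    have := is_const_of_deriv_eq_zero (fun t => (e t).differentiableAt) (fun t => (e t).deriv) 1 0
    rw [hP.zero] at this
    exact this

theorem lg0 (h : m.OK) (hj : m.Jac) (hl : m.Had lg) (y : V) : lg (y, y) = 0 := by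
  have := hj.scale 1 0 y 0
  rw [zero_smul, zero_mul, h.zero] at this
  have e := hl.xe y 0
  rwa [this] at e

theorem dlg (h : m.OK) (hj : m.Jac) (hl : m.Had lg) (y : V) :
    HasFDerivAt (fun z => lg (y, z)) (m.S y) y := by
  have d : HasFDerivAt (fun z => lg (y, z)) (fderiv ℝ (fun z => lg (y, z)) y) y :=
    (((hl.c1.comp (contDiff_const.prodMk contDiff_id)).differentiable one_ne_zero) y).hasFDerivAt
  refine d.congr_fderiv (ContinuousLinearMap.ext fun v => ?_)
  have c := DNTR.ode1 h (y, m.S y v) 0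
  rw [h.zero] at c
  have d1 := HasFDerivAt.comp_hasDerivAt_of_eq 0 d c (by rw [h.zero])
  have e : ((fun z => lg (y, z)) ∘ fun s => (m.Z s (y, m.S y v)).1) = fun s => s • m.S y v := by
    funext s
    have := hl.xe y (s • m.S y v)
    rw [hj.scale, mul_one] at this
    exact this
  rw [e, h.RS] at d1
  exact d1.unique (by simpa using (hasDerivAt_id (0 : ℝ)).smul_const (m.S y v))

theorem ib {E : Type} [NormedAddCommGroup E] {f : V → E} (hf : ContinuousOn f (ball 0 2)) :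
    Integrable f (volume.restrict (ball (0 : V) 1)) :=
  ((hf.mono (closedBall_subset_ball one_lt_two)).integrableOn_compact
    (isCompact_closedBall 0 1)).mono_set ball_subset_closedBall

theorem rot {f : V → ℝ} (hf : ContinuousOn f (ball 0 2))
    (h0 : ∫ w in ball (0 : V) 1, f w • w = 0) (L : V →L[ℝ] V) (hL : ∀ w, ‖L w‖ = ‖w‖) (b : V) :
    ∫ w in ball (0 : V) 1, f (L w) * ⟪w, b⟫ = 0 := by
  let O : V ≃ₗᵢ[ℝ] V := (⟨L, hL⟩ : V →ₗᵢ[ℝ] V).toLinearIsometryEquiv rfl
  have e : O ⁻¹' ball 0 1 = ball 0 1 := by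
    ext w
    simp only [mem_preimage, mem_ball_zero_iff, O.norm_map]
  have k := O.measurePreserving.setIntegral_preimage_emb O.toHomeomorph.measurableEmbedding
    (fun w => ⟪O b, f w • w⟫) (ball 0 1)
  rw [e, integral_inner (ib (f := fun w => f w • w) (hf.smul continuousOn_id)), h0, inner_zero_right] at k
  refine (integral_congr_ae (.of_forall fun w => ?_)).trans k
  simp only [inner_smul_right, O.inner_map_map, real_inner_comm]
  rfl

theorem line {E : Type} [NormedAddCommGroup E] [NormedSpace ℝ E] {f : V → E} {L : V →L[ℝ] E}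
    {x : V} (hf : HasFDerivAt f L x) (v : V) :
    Tendsto (fun t : ℝ => t⁻¹ • (f (x + t • v) - f x)) (𝓝[>] 0) (𝓝 (L v)) := by
  have c : HasDerivAt (fun t : ℝ => x + t • v) v 0 := by
    simpa using ((hasDerivAt_id (0 : ℝ)).smul_const v).const_add x
  simpa using (HasFDerivAt.comp_hasDerivAt_of_eq 0 hf c (by simp)).tendsto_slope_zero_right

end JA

open JA

theorem sJA : SJA := by
  intro m lg dX D R u δ C r d F x dat loc fm _ dF0 good
  have h := dat.ph.ok
  have hj := dat.ph.jac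
  have hl := dat.ph.had
  obtain ⟨T, T0, Td, Tc, Tn, T1⟩ := tp h hj
  set A := dF m R F x with hA
  set A' := ContinuousLinearMap.adjoint A with hA'
  set e : V → V := fun x' => lg (F x, F x') with he
  have e0 : e x = 0 := lg0 h hj hl _
  have de : HasFDerivAt e ((m.S (F x)).comp (fderiv ℝ F x)) x :=
    (dlg h hj hl (F x)).comp x dF0.hasFDerivAt
  set P : V → V →L[ℝ] V := fun x' => T 1 (F x, e x') with hP
  have P0 : ∀ w, P x w = w := fun w => by simp only [hP, e0, T1]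
  have Pn : ∀ x' w, ‖P x' w‖ = ‖w‖ := fun x' w => Tn _ _ _
  have dP : DifferentiableAt ℝ P x := ((Tc.differentiable one_ne_zero) _).comp x
    ((differentiableAt_const _).prodMk de.differentiableAt)
  set La : V → V → ℝ := fun w x' => U u x' (F x') (P x' w) with hLa
  have dLa : ∀ᵐ w ∂(volume.restrict (ball (0 : V) 1)), DifferentiableAt ℝ (La w) x :=
    good.mono fun w hw => by
      have hw' : DifferentiableAt ℝ (fun q : V × V => U u q.1 (F q.1) q.2) (x, P x w) := by
        rw [P0]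
        exact hw
      exact hw'.comp x (f := fun x' => (x', P x' w))
        (differentiableAt_id.prodMk (dP.clm_apply (differentiableAt_const w)))
  have cU : ∀ x' z, ContinuousOn (U u x' z) (ball 0 2) := fun x' z => by
    obtain ⟨K, ρ, h0, hK⟩ := loc x' z
    exact hK.continuousOn.comp (f := fun w => (x', z, w)) (by fun_prop)
      fun w hw => ⟨mem_ball_self h0, mem_ball_self h0, hw⟩
  have cLa : ∀ x' b, ContinuousOn (fun w => La w x' * ⟪w, b⟫) (ball 0 2) := fun x' b =>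
    ((cU x' (F x')).comp (P x').continuous.continuousOn fun w hw => by
      rw [mem_ball_zero_iff, Pn]
      exact mem_ball_zero_iff.1 hw).mul (by fun_prop)
  have zer : ∀ x' b, ∫ w in ball (0 : V) 1, La w x' * ⟪w, b⟫ = 0 := fun x' b =>
    rot (cU x' (F x')) (fm.zero x') (P x') (Pn x') b
  obtain ⟨c, lip⟩ : ∃ c : ℝ, ∀ᶠ x' in 𝓝 x, ∀ w ∈ ball (0 : V) 1,
      ‖La w x' - La w x‖ ≤ c * ‖x' - x‖ := by
    obtain ⟨K, ρ, h0, hK⟩ := loc x (F x)
    obtain ⟨c, hc⟩ := (differentiableAt_id.prodMk (dF0.prodMk dP)).isBigO_sub.bound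
    refine ⟨K * c, ?_⟩
    filter_upwards [hc, ball_mem_nhds x h0, dF0.continuousAt (ball_mem_nhds _ h0)]
      with x' h1 h2 h3 w hw
    have w1 := mem_ball_zero_iff.1 hw
    have m2 : ∀ x', P x' w ∈ ball (0 : V) 2 := fun x' => by
      rw [mem_ball_zero_iff, Pn]
      linarith
    have k := hK.dist_le_mul (x', F x', P x' w) ⟨h2, h3, m2 _⟩ (x, F x, P x w)
      ⟨mem_ball_self h0, mem_ball_self h0, m2 _⟩
    rw [← dist_eq_norm, mul_assoc]
    refine k.trans (mul_le_mul_of_nonneg_left (le_trans ?_ h1) K.2)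
    simp only [dist_eq_norm, Prod.mk_sub_mk, Prod.norm_mk, id]
    refine max_le_max le_rfl (max_le_max le_rfl ?_)
    exact ((P x' - P x).le_opNorm w).trans (mul_le_of_le_one_right (norm_nonneg _) w1.le)
  have key : ∀ v b : V, Integrable (fun w => fderiv ℝ (La w) x v * ⟪w, b⟫)
      (volume.restrict (ball (0 : V) 1)) ∧
      ∫ w in ball (0 : V) 1, fderiv ℝ (La w) x v * ⟪w, b⟫ = 0 := by
    intro v b
    have : IsFiniteMeasure ((volume : Measure V).restrict (ball 0 1)) :=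
      isFiniteMeasure_restrict.2 measure_ball_lt_top.ne
    have i1 : ∀ t : ℝ, Integrable (fun w => t⁻¹ * (La w (x + t • v) * ⟪w, b⟫ - La w x * ⟪w, b⟫))
        (volume.restrict (ball (0 : V) 1)) := fun t =>
      ((ib (cLa _ b)).sub (ib (cLa _ b))).const_mul _
    have l1 : ∀ᵐ w ∂(volume.restrict (ball (0 : V) 1)), Tendsto
        (fun t : ℝ => t⁻¹ * (La w (x + t • v) * ⟪w, b⟫ - La w x * ⟪w, b⟫)) (𝓝[>] 0)
        (𝓝 (fderiv ℝ (La w) x v * ⟪w, b⟫)) := dLa.mono fun w hw => by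
      refine ((line hw.hasFDerivAt v).mul_const ⟪w, b⟫).congr fun t => ?_
      rw [smul_eq_mul]
      ring
    have tx : Tendsto (fun t : ℝ => x + t • v) (𝓝[>] 0) (𝓝 x) :=
      (Continuous.tendsto' (by fun_prop) 0 x (by simp)).mono_left nhdsWithin_le_nhds
    have b1 : ∀ᶠ t : ℝ in 𝓝[>] 0, ∀ w ∈ ball (0 : V) 1,
        ‖t⁻¹ * (La w (x + t • v) * ⟪w, b⟫ - La w x * ⟪w, b⟫)‖ ≤ c * ‖v‖ * ‖b‖ := by
      filter_upwards [tx.eventually lip, self_mem_nhdsWithin] with t h1 h2 w hw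
      have t0 : 0 < t := h2
      have k := h1 w hw
      rw [add_sub_cancel_left, norm_smul, Real.norm_of_nonneg t0.le] at k
      have k2 : ‖⟪w, b⟫‖ ≤ ‖b‖ := (norm_inner_le_norm w b).trans
        (mul_le_of_le_one_left (norm_nonneg _) (mem_ball_zero_iff.1 hw).le)
      rw [← sub_mul, norm_mul, norm_mul, norm_inv, Real.norm_of_nonneg t0.le, inv_mul_le_iff₀ t0]
      refine (mul_le_mul k k2 (norm_nonneg _) ((norm_nonneg _).trans k)).trans_eq ?_
      ring
    have b2 := b1.mono fun t ht => (ae_restrict_mem (μ := volume) measurableSet_ball).mono ht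
    have t1 := tendsto_integral_filter_of_dominated_convergence _
      (.of_forall fun t => (i1 t).aestronglyMeasurable) b2 (integrable_const _) l1
    refine ⟨.of_bound (aestronglyMeasurable_of_tendsto_ae _ (fun t => (i1 t).aestronglyMeasurable)
      l1) (c * ‖v‖ * ‖b‖) ?_, tendsto_nhds_unique t1 (tendsto_const_nhds.congr fun t => ?_)⟩
    · filter_upwards [l1, ae_restrict_mem measurableSet_ball] with w h1 h2
      exact le_of_tendsto h1.norm (b1.mono fun t ht => ht w h2)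
    · rw [integral_const_mul, integral_sub (ib (cLa _ b)) (ib (cLa _ b)), zer, zer, sub_zero,
        mul_zero]
  have fin : ∀ κ : ℝ, (∀ w, DifferentiableAt ℝ (La w) x → fderiv ℝ (La w) x (R x (A' w)) ≤
      ‖w‖ * ‖A' w‖ - ‖A' w‖ ^ 2 + κ * ‖w‖ ^ 2) → ∫ w in ball (0 : V) 1, ‖A' w‖ ^ 2 ≤
        (∫ w in ball (0 : V) 1, ‖w‖ * ‖A' w‖) + κ * kk := by
    intro κ hκ
    let β := EuclideanSpace.basisFun (Fin dm) ℝ
    have ex : ∀ w, fderiv ℝ (La w) x (R x (A' w)) =
        ∑ i, fderiv ℝ (La w) x (R x (β i)) * ⟪w, A (β i)⟫ := fun w => by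
      conv_lhs => rw [← β.sum_repr' (A' w)]
      simp only [map_sum, map_smul, smul_eq_mul]
      refine Finset.sum_congr rfl fun i _ => ?_
      rw [hA', ContinuousLinearMap.adjoint_inner_right, real_inner_comm, mul_comm]
    have i1 : Integrable (fun w => fderiv ℝ (La w) x (R x (A' w)))
        (volume.restrict (ball (0 : V) 1)) := by
      simp only [ex]
      exact integrable_finsetSum _ fun i _ => (key _ _).1
    have i0 : ∫ w in ball (0 : V) 1, fderiv ℝ (La w) x (R x (A' w)) = 0 := by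
      simp only [ex]
      rw [integral_finsetSum _ fun i _ => (key _ _).1]
      exact Finset.sum_eq_zero fun i _ => (key _ _).2
    have j1 := ib (f := fun w => ‖w‖ * ‖A' w‖) (by fun_prop)
    have j2 := ib (f := fun w => ‖A' w‖ ^ 2) (by fun_prop)
    have j3 := ib (f := fun w => κ * ‖w‖ ^ 2) (by fun_prop)
    have k := integral_mono_ae i1 ((j1.sub j2).add j3) (dLa.mono hκ)
    rw [i0, integral_add' (j1.sub j2) j3, integral_sub' j1 j2, integral_const_mul] at k
    rw [kk]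
    linarith
  have hD : D x (F x) ≤ d + 1 := by
    obtain ⟨y, hy⟩ := dat.dp.cen x
    linarith [dat.dp.ly x (F x) y, fm.near x y hy]
  have η0 : 0 ≤ δ * C (d + 1) := mul_nonneg dat.ph.d0 (dat.su.pos _).1.le
  have pt : ∀ (w : V) (G : V → ℝ), DifferentiableAt ℝ (La w) x → A' w ≠ 0 →
      ContinuousAt G (A (A' w)) → (∀ (z : V) (W : ℝ → V) (t : ℝ), 0 < t → W 0 = ‖w‖⁻¹ • w →
        Par m (F x, t • z) W → ‖t • z‖ ≤ r (d + 1) → 0 < ⟪‖w‖⁻¹ • w, z⟫ →
        u x (m.Z 1 (F x, t • z)).1 (W 1) - u x (F x) (W 0) ≤ t * G z) →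
      fderiv ℝ (La w) x (R x (A' w)) ≤ ‖w‖ * (‖A' w‖ + G (A (A' w))) := by
    intro w G hw a0 cG hG
    have w0 : w ≠ 0 := fun h0 => a0 (by rw [h0, map_zero])
    have n0 : 0 < ‖w‖ := norm_pos_iff.2 w0
    have n1 : ‖‖w‖⁻¹ • w‖ = 1 := norm_smul_inv_norm w0
    have l1 := line hw.hasFDerivAt (R x (A' w))
    have l2 : Tendsto (fun t : ℝ => t⁻¹ • e (x + t • R x (A' w))) (𝓝[>] 0) (𝓝 (A (A' w))) := by
      have := line de (R x (A' w))
      simp only [e0, sub_zero] at this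
      exact this
    have tx : Tendsto (fun t : ℝ => x + t • R x (A' w)) (𝓝[>] 0) (𝓝 x) :=
      (Continuous.tendsto' (by fun_prop) 0 x (by simp)).mono_left nhdsWithin_le_nhds
    have l3 : ∀ᶠ t : ℝ in 𝓝[>] 0, ‖e (x + t • R x (A' w))‖ ≤ r (d + 1) :=
      (de.continuousAt.tendsto.comp tx).norm.eventually_le_const
        (by rw [e0, norm_zero]; exact (dat.su.pos _).2)
    have p0 : 0 < ⟪‖w‖⁻¹ • w, A (A' w)⟫ := by
      rw [inner_smul_left, ← ContinuousLinearMap.adjoint_inner_left, real_inner_self_eq_norm_sq]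
      exact mul_pos (inv_pos.2 n0) (pow_pos (norm_pos_iff.2 a0) 2)
    have l4 := (Tendsto.inner (𝕜 := ℝ) (tendsto_const_nhds (x := ‖w‖⁻¹ • w)) l2).eventually_const_lt
      p0
    refine le_of_forall_pos_le_add fun ε ε0 => ?_
    have l5 : Tendsto (fun t : ℝ => ‖w‖ * (‖A' w‖ + G (t⁻¹ • e (x + t • R x (A' w)))) + ε)
        (𝓝[>] 0) (𝓝 (‖w‖ * (‖A' w‖ + G (A (A' w))) + ε)) :=
      (((cG.tendsto.comp l2).const_add _).const_mul _).add_const _
    refine le_of_tendsto_of_tendsto l1 l5 ?_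
    filter_upwards [l3, l4, self_mem_nhdsWithin, dat.xp.inf x (A' w) (ε / ‖w‖) (div_pos ε0 n0)]
      with t h3 h4 h5 h6
    have t0 : 0 < t := h5
    set x' := x + t • R x (A' w) with hx'
    have es : t • t⁻¹ • e x' = e x' := smul_inv_smul₀ t0.ne' _
    have k1 := hG (t⁻¹ • e x') (fun s => T s (F x, e x') (‖w‖⁻¹ • w)) t t0 (T0 _ _)
      (by rw [es]; exact fun s => ⟨(Tn _ _ _).trans n1, Td _ _ s⟩) (by rw [es]; exact h3) h4
    rw [es, T0, show (m.Z 1 (F x, e x')).1 = F x' from hl.ex _ _] at k1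
    have k2 := dat.su.lx x' x (F x') (T 1 (F x, e x') (‖w‖⁻¹ • w)) ((Tn _ _ _).trans n1)
    have e1 : La w x' = ‖w‖ * u x' (F x') (T 1 (F x, e x') (‖w‖⁻¹ • w)) := by
      simp only [hLa, U, Pn, map_smul]
      rfl
    have e2 : La w x = ‖w‖ * u x (F x) (‖w‖⁻¹ • w) := by simp only [hLa, U, P0]
    have e3 : ε = ‖w‖ * (ε / ‖w‖) := by field_simp
    simp only [smul_eq_mul]
    rw [inv_mul_le_iff₀ t0, e1, e2, ← mul_sub, e3, ← mul_add, mul_left_comm]
    refine mul_le_mul_of_nonneg_left ?_ n0.le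
    linarith
  have in1 : ∀ w, A' w ≠ 0 → ‖w‖ * ⟪‖w‖⁻¹ • w, A (A' w)⟫ = ‖A' w‖ ^ 2 := fun w a0 => by
    have w0 : w ≠ 0 := fun h0 => a0 (by rw [h0, map_zero])
    rw [← real_inner_smul_left, smul_inv_smul₀ (norm_ne_zero_iff.2 w0),
      ← ContinuousLinearMap.adjoint_inner_left, real_inner_self_eq_norm_sq]
  have op : ∀ (τ : ℝ) w, ‖A (A' w) - τ • w‖ ≤
      ‖A.comp A' - τ • ContinuousLinearMap.id ℝ V‖ * ‖w‖ := fun τ w =>
    (A.comp A' - τ • ContinuousLinearMap.id ℝ V).le_opNorm w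
  have sc : ∀ (τ t : ℝ) (w z : V), 0 < t → w ≠ 0 →
      ‖(1 : ℝ) • t • z - (t * τ * ‖w‖) • ‖w‖⁻¹ • w‖ = t * ‖z - τ • w‖ := fun τ t w z t0 w0 => by
    rw [one_smul, mul_smul, mul_smul, smul_inv_smul₀ (norm_ne_zero_iff.2 w0), ← smul_sub,
      norm_smul, Real.norm_of_nonneg t0.le]
  refine ⟨fun τ => fin _ fun w hw => ?_, fun lo τ => fin _ fun w hw => ?_⟩
  · by_cases a0 : A' w = 0
    · simp only [a0, map_zero, norm_zero, mul_zero, zero_pow two_ne_zero, sub_zero, zero_add]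
      exact mul_nonneg (mul_nonneg η0 (norm_nonneg _)) (sq_nonneg _)
    have w0 : w ≠ 0 := fun h0 => a0 (by rw [h0, map_zero])
    refine (pt w (fun z => -⟪‖w‖⁻¹ • w, z⟫ + δ * C (d + 1) * ‖z - τ • w‖) hw a0 (by fun_prop)
      fun z W t t0 W0 pr hr hp => ?_).trans ?_
    · have k := ((dat.su.step (d + 1) x (F x, t • z) W 1 hD pr (by rwa [one_smul])).2
        (t * τ * ‖w‖)).1 (by
          rw [W0, one_smul, real_inner_smul_right]
          exact (mul_pos t0 hp).le)
      rw [W0] at k ⊢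
      rw [sc τ t w z t0 w0, one_smul, real_inner_smul_right] at k
      linarith
    · have := mul_le_mul_of_nonneg_left (op τ w) (mul_nonneg (norm_nonneg w) η0)
      have := in1 w a0
      nlinarith
  · by_cases a0 : A' w = 0
    · simp only [a0, map_zero, norm_zero, mul_zero, zero_pow two_ne_zero, sub_zero, zero_add]
      exact mul_nonneg (mul_nonneg (mul_nonneg zero_le_two η0) (sq_nonneg _)) (sq_nonneg _)
    have w0 : w ≠ 0 := fun h0 => a0 (by rw [h0, map_zero])
    have n0 : 0 < ‖w‖ := norm_pos_iff.2 w0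
    have i1 := in1 w a0
    have p0 : 0 < ⟪‖w‖⁻¹ • w, A (A' w)⟫ :=
      (mul_pos_iff_of_pos_left n0).1 (i1 ▸ pow_pos (norm_pos_iff.2 a0) 2)
    refine (pt w (fun z => -⟪‖w‖⁻¹ • w, z⟫ + δ * C (d + 1) * ‖z - τ • w‖ ^ 2 / ⟪‖w‖⁻¹ • w, z⟫) hw
      a0 (ContinuousAt.add (by fun_prop) (ContinuousAt.div (by fun_prop) (by fun_prop) p0.ne'))
      fun z W t t0 W0 pr hr hp => ?_).trans ?_
    · have k := ((dat.su.step (d + 1) x (F x, t • z) W 1 hD pr (by rwa [one_smul])).2
        (t * τ * ‖w‖)).2 (by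
          rw [W0, one_smul, real_inner_smul_right]
          exact mul_pos t0 hp)
      rw [W0] at k ⊢
      rw [sc τ t w z t0 w0, one_smul, real_inner_smul_right] at k
      refine k.trans_eq ?_
      field_simp
    · have l := lo w
      have q := pow_le_pow_left₀ (norm_nonneg _) (op τ w) 2
      set N := ‖A.comp A' - τ • ContinuousLinearMap.id ℝ V‖
      set p := ⟪‖w‖⁻¹ • w, A (A' w)⟫
      have l2 : ‖w‖ ≤ 2 * p := le_of_mul_le_mul_left (by nlinarith) n0
      have k : ‖w‖ * (δ * C (d + 1) * ‖A (A' w) - τ • w‖ ^ 2 / p) ≤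
          2 * (δ * C (d + 1)) * N ^ 2 * ‖w‖ ^ 2 := by
        rw [← mul_div_assoc, div_le_iff₀ p0]
        have := mul_le_mul l2 (mul_le_mul_of_nonneg_left q η0) (by positivity) (by positivity)
        nlinarith
      simp only [mul_add, mul_neg]
      linarith

end Pool.Agent.MP_3ee8cb_gt.PX
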