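import Pool.Agent.MP_3ee8cb_gt.PX.Spec
import Pool.Agent.MP_3ee8cb_gt.PXL.Len

/-! Row LN2: lengths of geodesics are kept. -/

namespace Pool.Agent.MP_3ee8cb_gt.PX

open DN

variable [Dim]

theorem sLN2 : SLN2 := by
  intro m Γ _ _ O e A h j act fd l der z t ht
  obtain ⟨c, low⟩ := l.low
  obtain ⟨M, upp⟩ := l.upp
  have z0 : ∀ x, e x x = 0 := fun x => by
    have := upp (x, 0) 0 (by simp) le_rfl zero_le_one
    rw [h.zero, mul_zero] at this
    exact le_antisymm this (l.pos _ _)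
  have k := PXL.len h j act fd e c M l.cont z0 l.tri l.inv (fun z T hT _ => low z T hT)
    (fun z t h0 h1 hz => by
      rw [abs_of_nonneg (l.pos _ _)]
      exact upp z t hz.le h0 h1) (der.mono fun x hx => ⟨A x, hx⟩) z.1 (t • z.2)
  rw [j.scale, mul_one, norm_smul, Real.norm_of_nonneg ht] at k
  exact k

end Pool.Agent.MP_3ee8cb_gt.PX
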