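import Pool.Agent.MP_3ee8cb_gt.PXM.MS
import Pool.Agent.MP_3ee8cb_gt.PX.Spec

/-! A map that keeps distances is a Riemannian isometry. -/

namespace Pool.Agent.MP_3ee8cb_gt.PX

open DN

variable [Dim]

open Set Filter Topology
open CR (Met UT MinP Riem RP dd)
open scoped RealInnerProductSpace

open DN.SC DN.En0 in
theorem sMS : SMS := by
  intro g h C C' Γ Λ _ _ _ _ Φ Ψ ρ _ qg qh _ _ _ _ _ m m' lg f ok hj lk ok' hj' lk' hd hl mn hf
  have ex : ∀ x a : V, ∃ p : UT g, (x, a) = dn m ‖a‖ p := fun x a => by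
    rcases eq_or_ne a 0 with rfl | ha
    · obtain ⟨p, hp, -⟩ := qg.rp.hr x x
      exact ⟨p, by simp [dn, hp]⟩
    · exact exists_dn ok lk.orth (z := (x, a)) ha
  choose P hP using ex
  choose F F1 F2 using Mys.rays qg.rp ok' hj' lk' hd hl mn hf
  have P1 : ∀ x a, (P x a).1.1 = x := fun x a => (congrArg Prod.fst (hP x a)).symm
  have key : ∀ x, (ContDiffAt ℝ 1 f x ∧
      ∀ u v, h (f x) (fderiv ℝ f x u) (fderiv ℝ f x v) = g x u v) ∧
      Function.Surjective f := fun x => by
    have fx : ∀ a, (F (P x a)).1.1 = f x := fun a => by rw [F1, P1]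
    have inn : ∀ a b, ⟪(dn m' ‖a‖ (F (P x a))).2, (dn m' ‖b‖ (F (P x b))).2⟫ = ⟪a, b⟫ := by
      intro a b
      have := Mys.inn qg.rp qh.rp hf (p := P x a) (q := P x b) (by rw [P1, P1])
        (by rw [fx, fx]) (F2 _) (F2 _)
      have e1 : a = _ := congrArg Prod.snd (hP x a)
      have e2 : b = _ := congrArg Prod.snd (hP x b)
      rw [fx, P1] at this
      conv_rhs => rw [e1, e2]
      simp only [dn, real_inner_smul_left, real_inner_smul_right, fx, P1]
      rw [← lk'.orth (f x), ← lk.orth x, ok.RS, ok.RS, ok'.RS, ok'.RS, this]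
    obtain ⟨A, hA⟩ := lin inn
    have e : ∀ a, f (m.Z 1 (x, a)).1 = (m'.Z 1 (f x, A a)).1 := fun a => by
      have : (f x, A a) = dn m' ‖a‖ (F (P x a)) := Prod.ext (fx a).symm (hA a)
      rw [this, hP x a, Z_dn hj lk, Z_dn hj' lk', mul_one]
      exact (F2 _ _ (norm_nonneg a)).symm
    let R : V ≃L[ℝ] V := .equivOfInverse (m.R x) (m.S x) (ok.SR x) (ok.RS x)
    have d : HasFDerivAt (fun b => (m.Z 1 (x, b)).1) (R : V →L[ℝ] V) 0 := d_ex ok hj x
    have c := (c_ex ok x).contDiffAt (x := 0)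
    have i1 := c.to_localInverse d one_ne_zero
    have i2 := (c.hasStrictFDerivAt' d one_ne_zero).eventually_right_inverse
    rw [ex0 ok hj] at i1 i2
    have cf : ContDiffAt ℝ 1 f x :=
      (((c_ex ok' (f x)).comp A.contDiff).contDiffAt.comp x i1).congr_of_eventuallyEq (by
        filter_upwards [i2] with y hy
        exact (congrArg f hy).symm.trans (e _))
    have d0 : HasFDerivAt f (fderiv ℝ f x) (m.Z 1 (x, 0)).1 := by
      rw [ex0 ok hj]
      exact (cf.differentiableAt one_ne_zero).hasFDerivAt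
    have d1 := d0.comp 0 (d_ex ok hj x)
    have d2 := HasFDerivAt.comp 0 ((map_zero A).symm ▸ d_ex ok' hj' (f x)) A.hasFDerivAt
    have d3 : ∀ a, fderiv ℝ f x (m.R x a) = m'.R (f x) (A a) := fun a =>
      DFunLike.congr_fun (d1.unique (d2.congr_of_eventuallyEq (.of_forall e))) a
    refine ⟨⟨cf, fun u v => ?_⟩, fun y => ?_⟩
    · rw [← ok.RS x u, ← ok.RS x v, d3, d3, lk'.orth, lk.orth, hA, hA, inn]
    · have inj : Function.Injective (A : V →ₗ[ℝ] V) :=
        (injective_iff_map_eq_zero _).2 fun a ha => by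
          have := inn a a
          rw [← hA, show A a = 0 from ha, inner_zero_left] at this
          exact inner_self_eq_zero.1 this.symm
      obtain ⟨a, ha⟩ := LinearMap.surjective_of_injective inj (lg (f x, y))
      exact ⟨_, (e a).trans (by rw [show A a = _ from ha, hd.ex])⟩
  refine ⟨⟨fun x y e => ?_, (key 0).2⟩, contDiff_iff_contDiffAt.2 fun x => (key x).1.1,
    fun x => (key x).1.2⟩
  have := hf x y
  rw [e, qh.rp.db.refl] at this
  obtain ⟨p, h1, h2⟩ := qg.rp.hr x y
  rwa [← this, qg.rp.flow.zero, h1] at h2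


end Pool.Agent.MP_3ee8cb_gt.PX
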