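import Pool.Agent.MP_3ee8cb_gt.PX.Spec

/-! Monotonicity of the averaged field along geodesics. -/

namespace Pool.Agent.MP_3ee8cb_gt.PX

open DN

variable [Dim]

open Set Filter Topology MeasureTheory Metric
open scoped RealInnerProductSpace

omit [Dim] in
/-- A slope bound for short steps gives a slope bound. -/
theorem mon_steps {g : ℝ → ℝ} {k r T : ℝ} (hr : 0 < r) (hT : 0 ≤ T)
    (h : ∀ a s, 0 ≤ a → 0 ≤ s → s ≤ r → a + s ≤ T → g (a + s) - g a ≤ k * s) :
    g T - g 0 ≤ k * T := by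
  obtain ⟨N, hN⟩ := exists_nat_gt (T / r)
  have hN0 : (0 : ℝ) < N := (div_nonneg hT hr.le).trans_lt hN
  have hs0 : 0 ≤ T / N := div_nonneg hT hN0.le
  have hs : T / N ≤ r := by
    rw [div_le_iff₀ hN0]
    rw [div_lt_iff₀ hr] at hN
    linarith
  have e : (N : ℝ) * (T / N) = T := mul_div_cancel₀ _ hN0.ne'
  have key : ∀ j : ℕ, j ≤ N → g (j * (T / N)) - g 0 ≤ k * (j * (T / N)) := fun j => by
    induction j with
    | zero => simp
    | succ j ih =>
      intro hj
      have h1 := ih (Nat.le_of_succ_le hj)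
      have h2 : ((j + 1 : ℕ) : ℝ) * (T / N) = j * (T / N) + T / N := by
        push_cast
        ring
      have h3 : ((j + 1 : ℕ) : ℝ) * (T / N) ≤ N * (T / N) :=
        mul_le_mul_of_nonneg_right (Nat.cast_le.2 hj) hs0
      rw [h2] at h3 ⊢
      have h4 := h _ _ (mul_nonneg (Nat.cast_nonneg j) hs0) hs0 hs (h3.trans_eq e)
      linarith
  simpa only [e] using key N le_rfl

/-- The estimate for one parallel unit field. -/
theorem mon_one {m : MF} {lg : V × V → V} {dX D : V → V → ℝ} {u : V → V → V → ℝ} {δ : ℝ}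
    {C r : ℝ → ℝ} (ho : m.OK) (hs : Su m lg dX D u δ C r) {R₀ T : ℝ} {x : V} {z : V × V}
    (hz : ‖z.2‖ = 1) (hT : 0 ≤ T) (hD : ∀ s ∈ Icc 0 T, D x (m.Z s z).1 ≤ R₀) (hδ : 0 ≤ δ)
    (O : ℝ → V ≃ₗᵢ[ℝ] V) (h0 : ∀ a, O 0 a = a) (h1 : ∀ t, O t z.2 = (m.Z t z).2)
    (h2 : ∀ a t, HasDerivAt (fun s => O s a) (-m.w z t (O t a)) t) {w : V} (hw : ‖w‖ = 1) :
    (u x (m.Z T z).1 (O T w) - u x z.1 w) * ⟪w, z.2⟫ ≤ T * (δ * C R₀) - T * ⟪w, z.2⟫ ^ 2 := by
  have hC := (hs.pos R₀).1
  have st : ∀ a ∈ Icc 0 T, ∀ s, |s| ≤ r R₀ → 0 ≤ s * ⟪w, z.2⟫ →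
      u x (m.Z (a + s) z).1 (O (a + s) w) - u x (m.Z a z).1 (O a w) ≤
        -(s * ⟪w, z.2⟫) + δ * C R₀ * |s| := fun a ha s hsr hsg => by
    have hP : Par m (m.Z a z) fun t => O (a + t) w := fun t => by
      refine ⟨by rw [LinearIsometryEquiv.norm_map, hw], ?_⟩
      have e : m.w (m.Z a z) t = m.w z (a + t) := by
        simp only [MF.w, ← ho.add, add_comm t a]
      rw [e]
      exact (h2 w (a + t)).comp_const_add a t
    have hn : ‖s • (m.Z a z).2‖ = |s| := by
      rw [norm_smul, ← h1, LinearIsometryEquiv.norm_map, hz, mul_one, Real.norm_eq_abs]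
    have hi : ⟪O (a + 0) w, s • (m.Z a z).2⟫ = s * ⟪w, z.2⟫ := by
      rw [add_zero, real_inner_smul_right, ← h1, LinearIsometryEquiv.inner_map_map]
    have k := ((hs.step R₀ x (m.Z a z) _ s (hD a ha) hP (hn.trans_le hsr)).2 0).1 (hi ▸ hsg)
    rwa [hi, zero_smul, sub_zero, hn, ← ho.add, add_comm s a, add_zero] at k
  have ha : |⟪w, z.2⟫| ≤ 1 := by simpa only [hw, hz, mul_one] using abs_real_inner_le_norm w z.2
  have hp : 0 ≤ T * (δ * C R₀) := by positivity
  rw [abs_le] at ha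
  rcases le_total 0 ⟪w, z.2⟫ with h | h
  · have k := mon_steps (g := fun s => u x (m.Z s z).1 (O s w)) (k := δ * C R₀ - ⟪w, z.2⟫)
      (hs.pos R₀).2 hT fun a s a0 s0 sr aT => by
        have := st a ⟨a0, by linarith⟩ s (by rwa [abs_of_nonneg s0]) (mul_nonneg s0 h)
        rw [abs_of_nonneg s0] at this
        linarith
    simp only [ho.zero, h0] at k
    nlinarith [mul_le_mul_of_nonneg_right k h, mul_nonneg hp (sub_nonneg.2 ha.2)]
  · have k := mon_steps (g := fun s => -u x (m.Z s z).1 (O s w)) (k := δ * C R₀ + ⟪w, z.2⟫)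
      (hs.pos R₀).2 hT fun a s a0 s0 sr aT => by
        have := st (a + s) ⟨by linarith, aT⟩ (-s) (by rwa [abs_neg, abs_of_nonneg s0])
          (by nlinarith)
        rw [abs_neg, abs_of_nonneg s0, add_neg_cancel_right] at this
        linarith
    simp only [ho.zero, h0] at k
    nlinarith [mul_le_mul_of_nonneg_right k (neg_nonneg.2 h),
      mul_nonneg hp (neg_le_iff_add_nonneg.1 ha.1)]

theorem Loc.cont {u : V → V → V → ℝ} (h : Loc u) (x z : V) :
    ContinuousOn (U u x z) (ball 0 2) := by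
  obtain ⟨K, r, hr, hK⟩ := h x z
  exact hK.continuousOn.comp (f := fun w : V => (x, z, w)) (by fun_prop) fun w hw =>
    ⟨mem_ball_self hr, mem_ball_self hr, hw⟩

theorem Loc.int {u : V → V → V → ℝ} (h : Loc u) (x z : V) :
    IntegrableOn (fun w => U u x z w • w) (ball 0 1) :=
  ((((h.cont x z).mono (closedBall_subset_ball one_lt_two)).smul
    continuousOn_id).integrableOn_compact (isCompact_closedBall 0 1)).mono_set
      ball_subset_closedBall

theorem Loc.inner {u : V → V → V → ℝ} (h : Loc u) (x z e : V) :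
    ⟪Vf u x z, e⟫ = ∫ w in ball (0 : V) 1, U u x z w * ⟪w, e⟫ := by
  rw [real_inner_comm, Vf, ← integral_inner (h.int x z)]
  simp only [real_inner_smul_right, real_inner_comm]

theorem mon (hI : SISO) : SMON := by
  intro m lg dX D R u δ C r hd hL R₀ T x z hε hz hT hD
  obtain ⟨O, h0, h1, h2⟩ := hd.ph.jac.par z
  have hb : O T ⁻¹' ball (0 : V) 1 = ball 0 1 := by
    ext w
    simp
  have hmp := (O T).measurePreserving.restrict_preimage (measurableSet_ball (x := (0 : V)) (ε := 1))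
  rw [hb] at hmp
  have hi : ∀ y e, IntegrableOn (fun w => U u x y w * ⟪w, e⟫) (ball (0 : V) 1) := fun y e => by
    simpa only [IntegrableOn, real_inner_smul_left, conj_trivial] using
      (hL.int x y).inner_const (𝕜 := ℝ) e
  have hc : ∀ {f : V → ℝ}, Continuous f → IntegrableOn f (ball (0 : V) 1) := fun hf =>
    (hf.continuousOn.integrableOn_compact (isCompact_closedBall 0 1)).mono_set
      ball_subset_closedBall
  have hi2 : Integrable (fun w => U u x (m.Z T z).1 (O T w) * ⟪O T w, (m.Z T z).2⟫)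
      (volume.restrict (ball (0 : V) 1)) :=
    (hmp.integrable_comp_emb (O T).toHomeomorph.measurableEmbedding).2
      (hi (m.Z T z).1 (m.Z T z).2)
  rw [hL.inner, hL.inner, ← hmp.integral_comp (O T).toHomeomorph.measurableEmbedding,
    ← integral_sub hi2 (hi _ _)]
  have key : ∀ w : V, U u x (m.Z T z).1 (O T w) * ⟪O T w, (m.Z T z).2⟫ -
      U u x z.1 w * ⟪w, z.2⟫ ≤ T * (δ * C R₀) * ‖w‖ ^ 2 - T * (⟪w, z.2⟫ * ⟪w, z.2⟫) := fun w => by
    rcases eq_or_ne w 0 with h | h
    · simp [h]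
    have hn : 0 < ‖w‖ := norm_pos_iff.2 h
    have k := mon_one hd.ph.ok hd.su hz hT hD hd.ph.d0 O h0 h1 h2 (norm_smul_inv_norm (𝕜 := ℝ) h)
    simp only [RCLike.ofReal_real_eq_id, id, real_inner_smul_left, map_smul] at k
    rw [← h1, LinearIsometryEquiv.inner_map_map, U, U, LinearIsometryEquiv.norm_map]
    refine le_trans (le_of_eq ?_) ((mul_le_mul_of_nonneg_left k (sq_nonneg ‖w‖)).trans_eq ?_)
    · field_simp
    · field_simp
  refine (integral_mono (hi2.sub (hi _ _)) (hc (by fun_prop)) key).trans ?_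
  rw [integral_sub (hc (by fun_prop)) (hc (by fun_prop)), integral_const_mul, integral_const_mul,
    hI.2.1, real_inner_self_eq_norm_sq, hz]
  have hd0 : (0 : ℝ) < dm := by
    unfold dm
    positivity
  have h3 : δ * C R₀ ≤ 1 / (2 * dm) := by
    rw [le_div_iff₀ (by positivity)]
    linarith
  have h4 := mul_le_mul_of_nonneg_left h3 (mul_nonneg hT hI.1.le)
  change T * (δ * C R₀) * kk - _ ≤ _
  have h5 : T * (kk / dm * 1 ^ 2) = 2 * (T * (kk / (2 * dm))) := by field_simp
  have h6 : T * kk * (1 / (2 * dm)) = T * (kk / (2 * dm)) := by ring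
  linarith

end Pool.Agent.MP_3ee8cb_gt.PX
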