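import Pool.Agent.MP_3ee8cb_gt.PX.Spec

/-! The extension of the signed distances. -/

namespace Pool.Agent.MP_3ee8cb_gt.PX

open DN Set
open scoped RealInnerProductSpace

theorem mv {ψ ψ' : ℝ → ℝ} {B : ℝ} (hd : ∀ t, HasDerivAt ψ (ψ' t) t)
    (h : ∀ t ∈ Icc (0 : ℝ) 1, ψ' t ≤ B) : ψ 1 - ψ 0 ≤ B := by
  obtain ⟨c, hc, e⟩ := exists_hasDerivAt_eq_slope ψ ψ' zero_lt_one
    (fun t _ => (hd t).continuousAt.continuousWithinAt) fun t _ => hd t
  have := h c ⟨hc.1.le, hc.2.le⟩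
  rw [e] at this
  simpa using this

theorem blow {ψ ψ' : ℝ → ℝ} {A : ℝ} (hd : ∀ t, HasDerivAt ψ (ψ' t) t) (hA : 0 ≤ A)
    (h : ∀ t ∈ Icc (0 : ℝ) 1, ψ' t ≤ A * Real.exp (ψ t)) (h0 : A * Real.exp (ψ 0) ≤ 1 / 2) :
    ∀ t ∈ Icc (0 : ℝ) 1, Real.exp (ψ t) ≤ 2 * Real.exp (ψ 0) := by
  intro t ht
  have d : ∀ s, HasDerivAt (fun s => -Real.exp (-ψ (t * s)))
      (-(Real.exp (-ψ (t * s)) * -(ψ' (t * s) * t))) s := fun s => by
    have h1 : HasDerivAt (fun s : ℝ => t * s) t s := by simpa using (hasDerivAt_id s).const_mul t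
    exact (((hd (t * s)).comp s h1).neg.exp).neg
  have k := mv (B := A) d fun s hs => by
    have m : t * s ∈ Icc (0 : ℝ) 1 := ⟨mul_nonneg ht.1 hs.1, mul_le_one₀ ht.2 hs.1 hs.2⟩
    have h1 := mul_le_mul_of_nonneg_left (h _ m) (Real.exp_pos (-ψ (t * s))).le
    have h2 : Real.exp (-ψ (t * s)) * Real.exp (ψ (t * s)) = 1 := by
      rw [← Real.exp_add, neg_add_cancel, Real.exp_zero]
    have h3 : Real.exp (-ψ (t * s)) * ψ' (t * s) ≤ A := by
      calc _ ≤ Real.exp (-ψ (t * s)) * (A * Real.exp (ψ (t * s))) := h1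
        _ = A * (Real.exp (-ψ (t * s)) * Real.exp (ψ (t * s))) := by ring
        _ = A := by rw [h2, mul_one]
    nlinarith [ht.1, ht.2]
  simp only [mul_one, mul_zero] at k
  have p0 := Real.exp_pos (ψ 0)
  have pt := Real.exp_pos (ψ t)
  rw [Real.exp_neg, Real.exp_neg] at k
  have h1 : (Real.exp (ψ 0))⁻¹ * Real.exp (ψ 0) = 1 := inv_mul_cancel₀ p0.ne'
  have h2 : (Real.exp (ψ t))⁻¹ * Real.exp (ψ t) = 1 := inv_mul_cancel₀ pt.ne'
  have h3 : 1 / 2 ≤ (Real.exp (ψ t))⁻¹ * Real.exp (ψ 0) := by nlinarith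
  nlinarith

theorem num3 {x q a B δ c : ℝ} (hx : 0 ≤ x) (hq : 0 ≤ q) (h : q ^ 2 ≤ 2 * x * c) (d0 : 0 ≤ δ)
    (d1 : δ ≤ 1) (hc : 0 ≤ c) : δ * q * B * a ≤ x * a ^ 2 + δ * c * B ^ 2 := by
  rcases hx.eq_or_lt with rfl | hx
  · have : q = 0 := by nlinarith
    rw [this]
    have := mul_nonneg (mul_nonneg d0 hc) (sq_nonneg B)
    linarith
  · have h1 : δ ^ 2 * q ^ 2 ≤ 4 * x * (δ * c) := by
      have h2 : δ ^ 2 ≤ δ := by nlinarith
      have h3 := mul_le_mul h2 h (sq_nonneg q) d0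
      nlinarith [mul_nonneg (mul_nonneg hx.le d0) hc]
    have h2 := mul_le_mul_of_nonneg_right h1 (sq_nonneg B)
    have h3 : 0 ≤ 4 * x * (x * a ^ 2 + δ * c * B ^ 2 - δ * q * B * a) := by
      nlinarith [sq_nonneg (2 * x * a - δ * q * B)]
    have := (mul_nonneg_iff_of_pos_left (by positivity : 0 < 4 * x)).1 h3
    linarith

variable [Dim]

theorem pw {w e ζ : V} {c c₁ δ B : ℝ} (hw : ‖w‖ = 1) (c1 : 1 ≤ c) (cc : c ≤ c₁)
    (h0 : 0 ≤ ⟪ζ, w⟫) (hz : ‖ζ‖ ≤ δ * √(c ^ 2 - 1)) (d0 : 0 ≤ δ) (d1 : δ ≤ 1) (hB : 0 ≤ B)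
    (hb : ‖e‖ ^ 2 - ⟪w, e⟫ ^ 2 ≤ B ^ 2) :
    (0 ≤ ⟪w, e⟫ → -⟪c • w + ζ, e⟫ ≤ -⟪w, e⟫ + δ * c₁ * B) ∧
    (0 < ⟪w, e⟫ → -⟪c • w + ζ, e⟫ ≤ -⟪w, e⟫ + δ * c₁ * B ^ 2 / ⟪w, e⟫) := by
  obtain ⟨a, ha⟩ : ∃ a, a = ⟪w, e⟫ := ⟨_, rfl⟩
  obtain ⟨q, hq⟩ : ∃ q, q = √(c ^ 2 - 1) := ⟨_, rfl⟩
  have q0 : 0 ≤ q := hq ▸ Real.sqrt_nonneg _
  have q2 : q ^ 2 = c ^ 2 - 1 := by rw [hq, Real.sq_sqrt (by nlinarith)]
  have n1 : ‖e - a • w‖ ^ 2 = ‖e‖ ^ 2 - a ^ 2 := by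
    rw [norm_sub_sq_real, real_inner_smul_right, norm_smul, hw, real_inner_comm, ← ha, mul_one,
      Real.norm_eq_abs, sq_abs]
    ring
  have n2 : ‖e - a • w‖ ≤ B := abs_le_of_sq_le_sq' (by rw [n1, ha]; exact hb) hB |>.2
  have n3 : -⟪ζ, e - a • w⟫ ≤ δ * q * B := by
    have := (abs_le.1 (abs_real_inner_le_norm ζ (e - a • w))).1
    have h2 := mul_le_mul (hq ▸ hz) n2 (norm_nonneg _) (mul_nonneg d0 q0)
    linarith
  rw [inner_sub_right, real_inner_smul_right] at n3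
  rw [inner_add_left, real_inner_smul_left, ← ha]
  refine ⟨fun h => ?_, fun h => ?_⟩
  · have q3 : q ≤ c₁ := (abs_le_of_sq_le_sq' (by nlinarith) (by linarith : 0 ≤ c)).2.trans cc
    have := mul_le_mul_of_nonneg_right (mul_le_mul_of_nonneg_left q3 d0) hB
    nlinarith [mul_nonneg h h0]
  · have k := num3 (x := c - 1) (a := a) (B := B) (c := c₁) (by linarith) q0 (by nlinarith) d0 d1
      (by linarith)
    have : δ * q * B - (c - 1) * a ≤ δ * c₁ * B ^ 2 / a := by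
      rw [le_div_iff₀ h]
      nlinarith
    nlinarith [mul_nonneg h.le h0]

theorem pw0 {w e ζ : V} {c δ : ℝ} (hw : ‖w‖ = 1) (c1 : 1 ≤ c) (hz : ‖ζ‖ ≤ δ * √(c ^ 2 - 1))
    (d1 : δ ≤ 1) : -⟪c • w + ζ, e⟫ ≤ 2 * c * ‖e‖ := by
  have q : √(c ^ 2 - 1) ≤ c := Real.sqrt_le_iff.2 ⟨by linarith, by linarith⟩
  have h1 : ‖ζ‖ ≤ c := hz.trans ((mul_le_of_le_one_left (Real.sqrt_nonneg _) d1).trans q)
  have h2 : ‖c • w + ζ‖ ≤ 2 * c := by
    have := norm_add_le (c • w) ζ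
    rw [norm_smul, hw, Real.norm_of_nonneg (by linarith), mul_one] at this
    linarith
  have := (abs_le.1 (abs_real_inner_le_norm (c • w + ζ) e)).1
  nlinarith [norm_nonneg e]

variable {m : MF} {lg : V × V → V} {δ : ℝ} {dX D : V → V → ℝ}

theorem z0 (o : m.OK) (j : m.Jac) (y : V) : (m.Z 1 (y, 0)).1 = y := by
  have := j.scale 1 0 y 0
  rw [zero_smul, zero_mul, o.zero] at this
  rw [this]

theorem lg_self (p : PH m lg δ) (y : V) : lg (y, y) = 0 := by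
  have := p.had.xe y 0
  rwa [z0 p.ok p.jac] at this

theorem be_self (p : PH m lg δ) (z w : V) : be lg z w z = 0 := by
  simp [be, lg_self p, Sh]

theorem dl_symm (p : PH m lg δ) (y z : V) : dl lg y z = dl lg z y := by
  rw [dl, dl, p.had.rev y z, norm_neg, p.jac.norm]

theorem uu_low (b : B1 lg) (d : DP dX (dl lg) D) (x z y y' : V) {w : V} (hw : ‖w‖ = 1) :
    be lg z w y - D x y ≤ be lg z w y' + D x y' := by
  have := b z w y y' hw
  have := d.tri x y y'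
  linarith

theorem uu_le (b : B1 lg) (d : DP dX (dl lg) D) (x z y : V) {w : V} (hw : ‖w‖ = 1) :
    uu lg D x z w ≤ be lg z w y + D x y :=
  ciInf_le ⟨_, forall_mem_range.2 fun y' => uu_low b d x z y y' hw⟩ y

theorem cmp (p : PH m lg δ) (b : B1 lg) (d : DP dX (dl lg) D) {x z z' w w' : V} {R B : ℝ}
    (hw : ‖w‖ = 1) (hw' : ‖w'‖ = 1) (hR : D x z ≤ R)
    (h : ∀ y, dl lg z y + be lg z w y ≤ 2 * R + 1 → be lg z' w' y - be lg z w y ≤ B) :
    uu lg D x z' w' - uu lg D x z w ≤ B := by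
  refine le_of_forall_pos_le_add fun ε hε => ?_
  obtain ⟨y, hy⟩ := exists_lt_of_ciInf_lt (f := fun y => be lg z w y + D x y)
    (lt_add_of_pos_right (uu lg D x z w) (lt_min hε one_pos))
  have h1 := uu_le b d x z z hw
  rw [be_self p] at h1
  have h2 := d.tri x z y
  have h3 := h y (by linarith [min_le_right ε 1])
  have h4 := uu_le b d x z' y hw'
  linarith [min_le_left ε 1]

theorem par_in (o : m.OK) {z : V × V} {w : ℝ → V} (h : Par m z w) (t : ℝ) :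
    ⟪w t, (m.Z t z).2⟫ = ⟪w 0, z.2⟫ := by
  have d : ∀ s, HasDerivAt (fun s => ⟪w s, (m.Z s z).2⟫) 0 s := fun s => by
    have h2 : HasDerivAt (fun s => (m.Z s z).2) (-m.w z s (m.Z s z).2) s :=
      (ContinuousLinearMap.snd ℝ V V).hasFDerivAt.comp_hasDerivAt s (o.ode z s)
    refine (((h s).2).inner ℝ h2).congr_deriv ?_
    rw [inner_neg_left, inner_neg_right, MF.w, o.skew]
    ring
  have := is_const_of_deriv_eq_zero (fun t => (d t).differentiableAt) (fun t => (d t).deriv) t 0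
  rwa [o.zero] at this

theorem dl_Z (p : PH m lg δ) (z : V × V) (t : ℝ) : dl lg z.1 (m.Z t z).1 = ‖t • z.2‖ := by
  have h := p.jac.scale 1 t z.1 z.2
  rw [mul_one] at h
  have := p.had.xe z.1 (t • z.2)
  rw [h] at this
  exact congrArg norm this

theorem su_step (p : PH m lg δ) (b2 : B2 m lg δ) {z : V × V} {w : ℝ → V} {s L : ℝ} {y : V}
    (hw : Par m z w) (L0 : 0 ≤ L) (hs : ‖s • z.2‖ ≤ Real.exp (-(L + 1)) / 4)
    (hy : dl lg z.1 y + be lg z.1 (w 0) y ≤ L) {B : ℝ}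
    (hB : ∀ (w' e ζ : V) (c : ℝ), ‖w'‖ = 1 → ‖e‖ = ‖s • z.2‖ → ⟪w', e⟫ = ⟪w 0, s • z.2⟫ → 1 ≤ c →
      c ≤ 2 * Real.exp (L + 1) → 0 ≤ ⟪ζ, w'⟫ → ‖ζ‖ ≤ δ * √(c ^ 2 - 1) → -⟪c • w' + ζ, e⟫ ≤ B) :
    be lg (m.Z s z).1 (w s) y - be lg z.1 (w 0) y ≤ B := by
  choose c ζ hd c1 c2 z1 z2 using fun t => b2 z w y t hw
  have d : ∀ t, HasDerivAt (fun t => be lg (m.Z (s * t) z).1 (w (s * t)) y)
      (-⟪c (s * t) • w (s * t) + ζ (s * t), s • (m.Z (s * t) z).2⟫) t := fun t => by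
    have h1 : HasDerivAt (fun t : ℝ => s * t) s t := by simpa using (hasDerivAt_id t).const_mul s
    refine ((hd (s * t)).comp t h1).congr_deriv ?_
    rw [real_inner_smul_right]
    ring
  have ne : ∀ t, ‖s • (m.Z t z).2‖ = ‖s • z.2‖ := fun t => by
    rw [norm_smul, norm_smul, p.jac.norm]
  have r1 : ‖s • z.2‖ ≤ 1 := hs.trans (by
    have : Real.exp (-(L + 1)) ≤ 1 := Real.exp_le_one_iff.2 (by linarith)
    linarith)
  have cb : ∀ t ∈ Icc (0 : ℝ) 1, c (s * t) ≤ Real.exp (dl lg z.1 y + 1) *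
      Real.exp (be lg (m.Z (s * t) z).1 (w (s * t)) y) := fun t ht => by
    rw [← Real.exp_add]
    refine (c2 _).trans (Real.exp_le_exp.2 ?_)
    have h1 : dl lg (m.Z (s * t) z).1 y ≤ dl lg (m.Z (s * t) z).1 z.1 + dl lg z.1 y :=
      p.had.tri _ _ _
    rw [dl_symm p _ z.1, dl_Z p, mul_comm s t, mul_smul, norm_smul,
      Real.norm_of_nonneg ht.1] at h1
    rw [mul_comm s t]
    nlinarith [ht.1, ht.2, norm_nonneg (s • z.2)]
  have e0 : Real.exp (dl lg z.1 y + 1) * Real.exp (be lg z.1 (w 0) y) ≤ Real.exp (L + 1) := by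
    rw [← Real.exp_add]
    exact Real.exp_le_exp.2 (by linarith)
  have k := blow (A := 2 * ‖s • z.2‖ * Real.exp (dl lg z.1 y + 1)) d (by positivity)
    (fun t ht => by
      have := pw0 (e := s • (m.Z (s * t) z).2) (hw (s * t)).1 (c1 (s * t)) (z2 _) p.d1
      rw [ne] at this
      nlinarith [cb t ht, norm_nonneg (s • z.2)])
    (by
      simp only [mul_zero, p.ok.zero]
      have h1 : Real.exp (-(L + 1)) * Real.exp (L + 1) = 1 := by
        rw [← Real.exp_add, neg_add_cancel, Real.exp_zero]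
      have h2 := mul_le_mul hs e0 (by positivity) (by positivity)
      nlinarith)
  have := mv d fun t ht => hB _ _ _ _ (hw _).1 (ne _)
    (by rw [real_inner_smul_right, real_inner_smul_right, par_in p.ok hw]) (c1 _)
    (by
      have h1 := k t ht
      simp only [mul_zero, p.ok.zero] at h1
      have h2 := mul_le_mul_of_nonneg_left h1 (Real.exp_pos (dl lg z.1 y + 1)).le
      nlinarith [cb t ht]) (z1 _) (z2 _)
  simpa only [mul_one, mul_zero, p.ok.zero] using this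

theorem su_w {z w w' y : V} {L : ℝ} (hy : dl lg z y + be lg z w y ≤ L)
    (hk : ‖w' - w‖ * Real.exp L ≤ 1 / 2) :
    be lg z w' y - be lg z w y ≤ 2 * Real.exp L * ‖w' - w‖ := by
  obtain ⟨S, hS⟩ : ∃ S, S = Sh (lg (z, y)) := ⟨_, rfl⟩
  have nS : ‖S‖ ≤ Real.exp (dl lg z y) / 2 := by
    have h1 : Real.sinh ‖lg (z, y)‖ ≤ Real.exp (dl lg z y) / 2 := by
      rw [Real.sinh_eq, dl]
      linarith [Real.exp_pos (-‖lg (z, y)‖)]
    have h2 : 0 ≤ Real.sinh ‖lg (z, y)‖ := Real.sinh_nonneg_iff.2 (norm_nonneg _)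
    rw [hS, Sh, norm_smul, Real.norm_of_nonneg (div_nonneg h2 (norm_nonneg _))]
    rcases (norm_nonneg (lg (z, y))).eq_or_lt with h | h
    · rw [← h, mul_zero]
      positivity
    · rwa [div_mul_cancel₀ _ h.ne']
  have d : ∀ t : ℝ, HasDerivAt (fun t : ℝ => Real.arsinh (⟪w, S⟫ + t * ⟪w' - w, S⟫))
      ((√(1 + (⟪w, S⟫ + t * ⟪w' - w, S⟫) ^ 2))⁻¹ * ⟪w' - w, S⟫) t := fun t => by
    have h1 : HasDerivAt (fun t : ℝ => ⟪w, S⟫ + t * ⟪w' - w, S⟫) ⟪w' - w, S⟫ t := by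
      simpa using ((hasDerivAt_id t).mul_const ⟪w' - w, S⟫).const_add ⟪w, S⟫
    exact (Real.hasDerivAt_arsinh _).comp t h1
  have h1 : ∀ t : ℝ, (√(1 + (⟪w, S⟫ + t * ⟪w' - w, S⟫) ^ 2))⁻¹ * ⟪w' - w, S⟫ ≤
      ‖w' - w‖ * Real.exp (dl lg z y) * Real.exp (Real.arsinh (⟪w, S⟫ + t * ⟪w' - w, S⟫)) := by
    intro t
    obtain ⟨b, hb⟩ : ∃ b, b = Real.arsinh (⟪w, S⟫ + t * ⟪w' - w, S⟫) := ⟨_, rfl⟩
    rw [← Real.cosh_arsinh, ← hb, inv_mul_le_iff₀ (Real.cosh_pos b)]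
    have h2 : 1 / 2 ≤ Real.cosh b * Real.exp b := by
      have : Real.exp (-b) * Real.exp b = 1 := by
        rw [← Real.exp_add, neg_add_cancel, Real.exp_zero]
      rw [Real.cosh_eq]
      nlinarith [sq_nonneg (Real.exp b)]
    have h3 := (real_inner_le_norm (w' - w) S).trans
      (mul_le_mul_of_nonneg_left nS (norm_nonneg _))
    have h4 := mul_le_mul_of_nonneg_left h2
      (by positivity : 0 ≤ ‖w' - w‖ * Real.exp (dl lg z y))
    nlinarith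
  have e0 : Real.exp (dl lg z y) * Real.exp (Real.arsinh ⟪w, S⟫) ≤ Real.exp L := by
    rw [← Real.exp_add, hS]
    exact Real.exp_le_exp.2 hy
  have e1 := mul_le_mul_of_nonneg_left e0 (norm_nonneg (w' - w))
  have k := blow d (by positivity) (fun t _ => h1 t) (by
    simp only [zero_mul, add_zero]
    nlinarith)
  have := mv (B := 2 * Real.exp L * ‖w' - w‖) d fun t ht => by
    have h2 := k t ht
    simp only [zero_mul, add_zero] at h2
    have h3 := mul_le_mul_of_nonneg_left h2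
      (by positivity : 0 ≤ ‖w' - w‖ * Real.exp (dl lg z y))
    nlinarith [h1 t]
  simp only [zero_mul, add_zero, one_mul, inner_sub_left, add_sub_cancel] at this
  rw [be, be, ← hS]
  exact this

theorem su : SSU := by
  refine ⟨fun R => 4 * Real.exp (2 * |R| + 1) * Real.exp (2 * |R| + 1 + 1),
    fun R => Real.exp (-(2 * |R| + 1 + 1)) / 4, fun m lg δ dX D p b1 b2 d => ?_⟩
  have nr : ∀ x z w y, ‖w‖ = 1 → |uu lg D x z w - be lg z w y| ≤ D x y := fun x z w y hw => by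
    have h1 := uu_le b1 d x z y hw
    have h2 : be lg z w y - D x y ≤ uu lg D x z w := le_ciInf fun y' => uu_low b1 d x z y y' hw
    exact abs_le.2 ⟨by linarith, by linarith⟩
  refine ⟨fun R => ⟨by positivity, by positivity⟩, nr, fun x x' z w hw => ?_,
    fun R x z w w' hR hw hw' => ?_, fun R x z w s hR hw hs => ?_⟩
  · have : uu lg D x z w - dX x x' ≤ uu lg D x' z w := le_ciInf fun y => by
      have := uu_le b1 d x z y hw
      have := d.lx x x' y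
      linarith
    linarith
  · obtain ⟨L, hL⟩ : ∃ L, L = 2 * |R| + 1 := ⟨_, rfl⟩
    have aR := le_abs_self R
    have e1 : L + 1 + 1 ≤ Real.exp (L + 1) := Real.add_one_le_exp _
    have a0 := abs_nonneg R
    have p1 := mul_nonneg (norm_nonneg (w' - w)) (Real.exp_pos L).le
    rw [← hL]
    rcases le_total (‖w' - w‖ * Real.exp L) (1 / 2) with h | h
    · have := cmp p b1 d hw hw' hR fun y hy => su_w (L := L) (by linarith) h
      nlinarith
    · have h1 := (abs_le.1 (nr x z w z hw)).1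
      have h2 := (abs_le.1 (nr x z w' z hw')).2
      rw [be_self p] at h1 h2
      nlinarith
  · obtain ⟨L, hL⟩ : ∃ L, L = 2 * |R| + 1 := ⟨_, rfl⟩
    have aR := le_abs_self R
    have a0 := abs_nonneg R
    have e1 : 1 ≤ Real.exp L := Real.one_le_exp (by linarith)
    have e2 := Real.exp_pos (L + 1)
    have e3 : 4 * Real.exp (L + 1) ≤ 4 * Real.exp L * Real.exp (L + 1) := by nlinarith
    rw [← hL] at hs ⊢
    have hb : ∀ (τ : ℝ) (w' e : V), ‖e‖ = ‖s • z.2‖ → ⟪w', e⟫ = ⟪w 0, s • z.2⟫ →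
        ‖e‖ ^ 2 - ⟪w', e⟫ ^ 2 ≤ ‖s • z.2 - τ • w 0‖ ^ 2 := fun τ w' e h1 h2 => by
      rw [h1, h2, norm_sub_sq_real, real_inner_smul_right (s • z.2), norm_smul τ, (hw 0).1,
        real_inner_comm (w 0), mul_one, Real.norm_eq_abs, sq_abs]
      nlinarith [sq_nonneg (τ - ⟪w 0, s • z.2⟫)]
    refine ⟨cmp p b1 d (hw 0).1 (hw s).1 hR fun y hy => su_step p b2 hw (by linarith) hs
      (by linarith) fun w' e ζ c h1 h2 _ c1 c2 _ z2 => ?_, fun τ => ⟨fun h => ?_, fun h => ?_⟩⟩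
    · have := pw0 (e := e) h1 c1 z2 p.d1
      rw [h2] at this
      exact this.trans (mul_le_mul_of_nonneg_right (by linarith) (norm_nonneg _))
    · refine cmp p b1 d (hw 0).1 (hw s).1 hR fun y hy => su_step p b2 hw (by linarith) hs
        (by linarith) fun w' e ζ c h1 h2 h3 c1 c2 z1 z2 => ?_
      have := (pw h1 c1 (c2.trans (by linarith : _ ≤ 4 * Real.exp L * Real.exp (L + 1))) z1 z2
        p.d0 p.d1 (norm_nonneg _) (hb τ w' e h2 h3)).1 (h3 ▸ h)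
      rwa [h3] at this
    · refine cmp p b1 d (hw 0).1 (hw s).1 hR fun y hy => su_step p b2 hw (by linarith) hs
        (by linarith) fun w' e ζ c h1 h2 h3 c1 c2 z1 z2 => ?_
      have := (pw h1 c1 (c2.trans (by linarith : _ ≤ 4 * Real.exp L * Real.exp (L + 1))) z1 z2
        p.d0 p.d1 (norm_nonneg _) (hb τ w' e h2 h3)).2 (h3 ▸ h)
      rwa [h3] at this

end Pool.Agent.MP_3ee8cb_gt.PX
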