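import Pool.Agent.MP_3ee8cb_gt.PX.Spec

/-! The distance is infinitesimally bounded by the frame. -/

namespace Pool.Agent.MP_3ee8cb_gt.PX

open DN

variable [Dim]

open Set Filter Topology Metric
open CR (dd)

theorem sXP : SXP := by
  intro g C Γ _ _ Φ q _ m o k
  have db := q.rp.db
  have up : ∀ (x : V) (ε : ℝ), 0 < ε → ∃ r, 0 < r ∧ ∀ y z, ‖y - x‖ ≤ r → ‖z - x‖ ≤ r →
      dd g y z ≤ (1 + ε) * ‖m.S x (z - y)‖ := fun x ε hε => by
    obtain ⟨r, hr, H⟩ := db.upp x ε hε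
    refine ⟨r, hr, fun y z hy hz => (db.le_seg y z).trans ((H y z hy hz).trans_eq ?_)⟩
    have := k.orth x (m.S x (z - y)) (m.S x (z - y))
    rw [o.RS] at this
    rw [this, real_inner_self_eq_norm_sq, Real.sqrt_sq (norm_nonneg _)]
  refine ⟨db.symm, fun x₀ => ?_, fun x a ε hε => ?_⟩
  · obtain ⟨r, hr, H⟩ := up x₀ 1 one_pos
    refine ⟨(1 + 1) * ‖m.S x₀‖, r, hr, fun x hx x' hx' => ?_⟩
    refine (H x x' (mem_ball_iff_norm.1 hx).le (mem_ball_iff_norm.1 hx').le).trans ?_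
    rw [mul_assoc, norm_sub_rev x x']
    exact mul_le_mul_of_nonneg_left ((m.S x₀).le_opNorm _) (by norm_num)
  · have p : 0 < ‖a‖ + 1 := by positivity
    obtain ⟨r, hr, H⟩ := up x (ε / (‖a‖ + 1)) (by positivity)
    have c : Continuous fun t : ℝ => ‖x + t • m.R x a - x‖ := by fun_prop
    have l := (c.tendsto 0).mono_left (nhdsWithin_le_nhds (s := Ioi 0))
    simp only [zero_smul, add_zero, sub_self, norm_zero] at l
    filter_upwards [l.eventually (ge_mem_nhds hr), self_mem_nhdsWithin] with t h1 h2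
    have h0 : 0 < t := h2
    refine (H _ x h1 (by simpa using hr.le)).trans ?_
    rw [sub_add_cancel_left, map_neg, norm_neg, map_smul, o.SR, norm_smul, Real.norm_eq_abs,
      abs_of_pos h0, mul_left_comm]
    refine mul_le_mul_of_nonneg_left ?_ h0.le
    have e : ε / (‖a‖ + 1) * (‖a‖ + 1) = ε := div_mul_cancel₀ _ p.ne'
    nlinarith [div_pos hε p]

end Pool.Agent.MP_3ee8cb_gt.PX
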