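import Pool.Agent.MP_3ee8cb_gt.PX.Spec
import Pool.Agent.MP_3ee8cb_gt.PXQ.Alg
import Pool.Agent.MP_3ee8cb_gt.DZZ.Ex

/-! The averaged field points inwards far away and has a zero. -/

namespace Pool.Agent.MP_3ee8cb_gt.PX

open DN

variable [Dim]

open Set Filter Topology MeasureTheory Metric
open scoped RealInnerProductSpace

variable {u : V → V → V → ℝ}

theorem u_contOn (h : Loc u) (x z : V) : ContinuousOn (U u x z) (ball 0 2) := by
  obtain ⟨K, r, hr, hK⟩ := h x z
  exact hK.continuousOn.comp (f := fun w : V => (x, z, w)) (by fun_prop)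
    fun w hw => ⟨mem_ball_self hr, mem_ball_self hr, hw⟩

/-- Products of `U` with continuous functions are integrable on the unit ball. -/
theorem u_int (h : Loc u) (x z : V) {G : Type} [NormedAddCommGroup G] [NormedSpace ℝ G]
    {f : V → G} (hf : Continuous f) : IntegrableOn (fun w => U u x z w • f w) (ball 0 1) :=
  ((((u_contOn h x z).mono (closedBall_subset_ball one_lt_two)).smul
    hf.continuousOn).integrableOn_compact (isCompact_closedBall 0 1)).mono_set
      ball_subset_closedBall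

theorem vf_inner (h : Loc u) (x z e : V) :
    ⟪e, Vf u x z⟫ = ∫ w in ball (0 : V) 1, U u x z w * ⟪e, w⟫ := by
  rw [Vf, ← integral_inner (u_int h x z continuous_id')]
  simp only [real_inner_smul_right]

theorem vf_cont (h : Loc u) (x : V) : Continuous (Vf u x) := by
  refine continuous_iff_continuousAt.2 fun z₀ => ?_
  obtain ⟨K, r, hr, hK⟩ := h x z₀
  have b2 : ball (0 : V) 1 ⊆ ball 0 2 := ball_subset_ball one_le_two
  refine continuousAt_of_dominated (bound := fun _ => K * (r + 1))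
    (.of_forall fun z => (u_int h x z continuous_id).aestronglyMeasurable) ?_
    (integrableOn_const measure_ball_lt_top.ne) ?_
  · filter_upwards [ball_mem_nhds z₀ hr] with z hz
    filter_upwards [ae_restrict_mem measurableSet_ball] with w hw
    have h1 := hK.dist_le_mul (x, z, w) ⟨mem_ball_self hr, hz, b2 hw⟩ (x, z₀, 0)
      ⟨mem_ball_self hr, mem_ball_self hr, mem_ball_self two_pos⟩
    have h2 : dist (x, z, w) (x, z₀, (0 : V)) ≤ r + 1 := by
      rw [mem_ball] at hz hw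
      simp only [Prod.dist_eq, dist_self, max_le_iff]
      exact ⟨by linarith, by linarith, by linarith⟩
    have h3 : U u x z₀ 0 = 0 := by simp [U]
    simp only [h3, dist_zero_right] at h1
    have h4 : ‖U u x z w‖ ≤ K * (r + 1) := h1.trans (mul_le_mul_of_nonneg_left h2 K.2)
    rw [norm_smul]
    exact (mul_le_of_le_one_right (norm_nonneg _) (mem_ball_zero_iff.1 hw).le).trans h4
  · filter_upwards [ae_restrict_mem measurableSet_ball] with w hw
    have h1 : ContinuousOn (fun z => U u x z w) (ball z₀ r) :=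
      hK.continuousOn.comp (f := fun z : V => (x, z, w)) (by fun_prop)
        fun z hz => ⟨mem_ball_self hr, hz, b2 hw⟩
    exact (h1.continuousAt (ball_mem_nhds z₀ hr)).smul continuousAt_const

omit [Dim] in
theorem far_num {S σ θ v : ℝ} (hθ : 0 < θ) (hS : Real.sinh 2 ≤ S * θ)
    (hσ : |σ| ≤ 1) (hv : |v - Real.arsinh (S * σ)| ≤ 1) : σ ^ 2 - 2 * θ ≤ v * σ := by
  have s2 : 0 < Real.sinh 2 := Real.sinh_pos_iff.2 two_pos
  have S0 : 0 < S := by
    by_contra hn
    nlinarith [mul_nonneg (neg_nonneg.2 (not_lt.1 hn)) hθ.le]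
  obtain ⟨v1, v2⟩ := abs_le.1 hv
  obtain ⟨σ1, σ2⟩ := abs_le.1 hσ
  have key : ∀ {τ : ℝ}, θ ≤ τ → 2 ≤ Real.arsinh (S * τ) := fun {τ} hτ => by
    rw [← Real.arsinh_sinh 2, Real.arsinh_le_arsinh]
    nlinarith
  rcases le_total 0 σ with h0 | h0
  · have a0 : 0 ≤ Real.arsinh (S * σ) := Real.arsinh_nonneg_iff.2 (mul_nonneg S0.le h0)
    rcases le_total θ σ with h | h
    · have := key h
      nlinarith
    · nlinarith
  · have a0 : Real.arsinh (S * σ) ≤ 0 :=
      Real.arsinh_nonpos_iff.2 (mul_nonpos_of_nonneg_of_nonpos S0.le h0)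
    rcases le_total θ (-σ) with h | h
    · have := key h
      rw [mul_neg, Real.arsinh_neg] at this
      nlinarith
    · nlinarith

theorem far {lg : V × V → V} {D : V → V → ℝ} (h : Loc u)
    (hn : ∀ x z w y, ‖w‖ = 1 → |u x z w - be lg z w y| ≤ D x y) {x y z : V} (hD : D x y ≤ 1)
    (hd : 4 * dm * Real.sinh 2 ≤ ‖lg (z, y)‖) : 0 < ⟪lg (z, y), Vf u x z⟫ := by
  have n1 : (1 : ℝ) ≤ dm := by
    have : 1 ≤ dm := Nat.le_add_left 1 (Dim.k + 2)
    exact_mod_cast this
  have s2 : 0 < Real.sinh 2 := Real.sinh_pos_iff.2 two_pos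
  set ξ := lg (z, y) with hξ
  have d0 : 0 < ‖ξ‖ := lt_of_lt_of_le (by positivity) hd
  set η : V := ‖ξ‖⁻¹ • ξ with hη
  have nη : ‖η‖ = 1 := norm_smul_inv_norm (norm_pos_iff.1 d0)
  have e1 : ξ = ‖ξ‖ • η := by rw [hη, smul_inv_smul₀ d0.ne']
  have e2 : Sh ξ = Real.sinh ‖ξ‖ • η := by rw [Sh, hη, smul_smul, div_eq_mul_inv]
  set θ : ℝ := 1 / (4 * dm) with hθ
  have θ0 : 0 < θ := by positivity
  have hS : Real.sinh 2 ≤ Real.sinh ‖ξ‖ * θ := by
    rw [hθ, mul_one_div, le_div_iff₀ (by positivity)]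
    have := Real.self_le_sinh_iff.2 d0.le
    linarith
  have hp : ∀ w : V, ⟪w, η⟫ * ⟪w, η⟫ - 2 * θ * ‖w‖ ^ 2 ≤ U u x z w • ⟪η, w⟫ := fun w => by
    rcases eq_or_ne w 0 with rfl | hw
    · simp
    have w0 : 0 < ‖w‖ := norm_pos_iff.2 hw
    have nw : ‖‖w‖⁻¹ • w‖ = 1 := norm_smul_inv_norm hw
    have a1 := (hn x z _ y nw).trans hD
    rw [be, ← hξ, e2, real_inner_smul_right] at a1
    have a2 : |⟪‖w‖⁻¹ • w, η⟫| ≤ 1 := by simpa [nw, nη] using abs_real_inner_le_norm (‖w‖⁻¹ • w) η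
    have a3 := mul_le_mul_of_nonneg_left (far_num θ0 hS a2 a1) (sq_nonneg ‖w‖)
    have a4 : ⟪w, η⟫ = ‖w‖ * ⟪‖w‖⁻¹ • w, η⟫ := by
      rw [real_inner_smul_left, mul_inv_cancel_left₀ w0.ne']
    rw [U, smul_eq_mul, real_inner_comm w η, a4]
    nlinarith
  have k1 := setIntegral_mono (PXQ.int_b (by fun_prop)) (u_int h x z (by fun_prop)) hp
  rw [integral_sub (PXQ.int_b (by fun_prop)) (PXQ.int_b (by fun_prop)), integral_const_mul] at k1
  have k2 := PXQ.iso_two η η
  rw [finrank_euclideanSpace_fin, real_inner_self_eq_norm_sq η, nη, one_pow, mul_one] at k2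
  have k3 : 0 < ∫ v in ball (0 : V) 1, ‖v‖ ^ 2 := by
    obtain ⟨c, hc, hco⟩ := PXQ.coer (E := V)
    have b1 := hco (.id ℝ V) fun _ _ => rfl
    have b2 : ‖ContinuousLinearMap.id ℝ V‖ = 1 := by
      have : Nontrivial V := ⟨η, 0, DNWI.ne_of_norm nη⟩
      exact ContinuousLinearMap.norm_id
    rw [b2, one_pow, mul_one] at b1
    refine (hc.trans_le b1).trans_le (setIntegral_mono_on (PXQ.int_b (by fun_prop))
      (PXQ.int_b (by fun_prop)) measurableSet_ball fun w hw => ?_)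
    rw [ContinuousLinearMap.id_apply, real_inner_self_eq_norm_sq]
    have := mem_ball_zero_iff.1 hw
    have b3 : ‖w‖ ^ 2 ≤ 1 := pow_le_one₀ (norm_nonneg _) this.le
    nlinarith [sq_nonneg ‖w‖]
  have k4 : 0 < ⟪η, Vf u x z⟫ := by
    rw [vf_inner h]
    refine lt_of_lt_of_le ?_ k1
    have b1 : (dm : ℝ) * (2 * θ) = 1 / 2 := by rw [hθ]; field_simp; ring
    by_contra hn
    have b2 := mul_le_mul_of_nonneg_left (sub_nonpos.1 (not_lt.1 hn)) (zero_le_one.trans n1)
    rw [k2, ← mul_assoc, b1] at b2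
    linarith
  rw [e1, real_inner_smul_left]
  exact mul_pos d0 k4

theorem szero : SZERO := by
  have s2 : 0 < Real.sinh 2 := Real.sinh_pos_iff.2 two_pos
  have n0 : (0 : ℝ) < dm := Nat.cast_pos.2 (Nat.succ_pos _)
  refine ⟨4 * dm * Real.sinh 2, by positivity, fun m lg dX D R u δ C r hd h => ⟨?_, fun x => ?_⟩⟩
  · intro x y z hD h0
    by_contra hn
    have := far h hd.su.near hD (not_le.1 hn).le
    rw [h0, inner_zero_right] at this
    exact lt_irrefl _ this
  · obtain ⟨y, hy⟩ := hd.dp.cen x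
    obtain ⟨z, -, hz⟩ := DZZ.zero_ex hd.ph.ok hd.ph.had (vf_cont h x) y
      (ρ := 4 * dm * Real.sinh 2) (by positivity) fun b hb => by
        have e : lg ((m.Z 1 (y, b)).1, y) = -(m.Z 1 (y, b)).2 := by
          rw [hd.ph.had.rev y, hd.ph.had.xe]
        have := far h hd.su.near (z := (m.Z 1 (y, b)).1) hy
          (by rw [e, norm_neg, hd.ph.jac.norm, hb])
        rw [e, inner_neg_left] at this
        linarith
    exact ⟨z, hz⟩

end Pool.Agent.MP_3ee8cb_gt.PX
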