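import Pool.Agent.MP_3ee8cb_gt.PX.Top
import Pool.Agent.MP_3ee8cb_gt.PX.Alg
import Pool.Agent.MP_3ee8cb_gt.PX.B1
import Pool.Agent.MP_3ee8cb_gt.PX.DP
import Pool.Agent.MP_3ee8cb_gt.PX.EQ
import Pool.Agent.MP_3ee8cb_gt.PX.EX
import Pool.Agent.MP_3ee8cb_gt.PX.FIX
import Pool.Agent.MP_3ee8cb_gt.PX.JA
import Pool.Agent.MP_3ee8cb_gt.PX.Ln2
import Pool.Agent.MP_3ee8cb_gt.PX.MS
import Pool.Agent.MP_3ee8cb_gt.PX.Mon
import Pool.Agent.MP_3ee8cb_gt.PX.SP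
import Pool.Agent.MP_3ee8cb_gt.PX.SU
import Pool.Agent.MP_3ee8cb_gt.PX.XP
import Pool.Agent.MP_3ee8cb_gt.PX.ZERO
import Pool.Agent.MP_3ee8cb_gt.DNFL.All
import Pool.Agent.MP_3ee8cb_gt.DND0.Fin

/-! The theorem from the last rows. -/

namespace Pool.Agent.MP_3ee8cb_gt.PX

open DN

variable [Dim]

theorem main_of (he : SHE) (b2 : SB2) (loc : SLOC) (rad : SRAD) : ∃ δ, 0 < δ ∧ MainP δ :=
  top sJAC sFRM DNFL.had sACT DNFL.flp sHN sEX sD4 sDP sb1 he b2 su sEQ sXP loc szero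
    (sFIX (mon sISO)) rad sJA ssp sALG sLN2 sMS

end Pool.Agent.MP_3ee8cb_gt.PX
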