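import Pool.Agent.MP_3ee8cb_gt.PX.Spec

/-! Isotropy of the ball. -/

namespace Pool.Agent.MP_3ee8cb_gt.PX

open DN

variable [Dim]

open Set MeasureTheory Metric
open scoped RealInnerProductSpace

namespace Iso

theorem int {f : V → ℝ} (hf : Continuous f) : IntegrableOn f (ball (0 : V) 1) :=
  (hf.continuousOn.integrableOn_compact (isCompact_closedBall (0 : V) 1)).mono_set
    ball_subset_closedBall

theorem dpos : (0 : ℝ) < dm := by
  unfold dm
  positivity

theorem kpos : 0 < kk := by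
  refine (setIntegral_pos_iff_support_of_nonneg_ae (.of_forall fun w => sq_nonneg _)
    (int (by fun_prop))).2 ?_
  have o : IsOpen ((Function.support fun w : V => ‖w‖ ^ 2) ∩ ball 0 1) :=
    (Continuous.isOpen_support (by fun_prop)).inter isOpen_ball
  have n : ‖(1 / 2 : ℝ) • EuclideanSpace.basisFun (Fin dm) ℝ 0‖ = 1 / 2 := by
    rw [norm_smul, (EuclideanSpace.basisFun (Fin dm) ℝ).orthonormal.1 0]
    norm_num
  refine o.measure_pos _ ⟨(1 / 2 : ℝ) • EuclideanSpace.basisFun (Fin dm) ℝ 0, ?_, ?_⟩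
  · rw [Function.mem_support, n]
    norm_num
  · rw [mem_ball_zero_iff, n]
    norm_num

theorem inv (R : V ≃ₗᵢ[ℝ] V) : MeasurePreserving R (volume.restrict (ball (0 : V) 1))
    (volume.restrict (ball (0 : V) 1)) := by
  have h := R.measurePreserving.restrict_preimage (measurableSet_ball (x := (0 : V)) (ε := 1))
  have e : R ⁻¹' ball (0 : V) 1 = ball 0 1 := by
    ext w
    simp
  rwa [e] at h

theorem sq (c : V) : ∫ w in ball (0 : V) 1, ⟪w, c⟫ * ⟪w, c⟫ = kk / dm * ‖c‖ ^ 2 := by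
  set Q : V → ℝ := fun c => ∫ w in ball (0 : V) 1, ⟪w, c⟫ * ⟪w, c⟫ with hQ
  have h1 : ∀ c d : V, ‖c‖ = ‖d‖ → Q c = Q d := fun c d h => by
    let R := (ℝ ∙ (c - d))ᗮ.reflection
    have hR : R c = d := Submodule.reflection_sub h
    have := (inv R).integral_comp R.toHomeomorph.measurableEmbedding fun w => ⟪w, d⟫ * ⟪w, d⟫
    simp only [hQ]
    rw [← this, ← hR]
    simp only [LinearIsometryEquiv.inner_map_map]
  let f := EuclideanSpace.basisFun (Fin dm) ℝ
  have h3 : ∑ i, Q (‖c‖ • f i) = kk * ‖c‖ ^ 2 := by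
    simp only [hQ]
    rw [← integral_finsetSum _ fun i _ => int (by fun_prop), kk, ← integral_mul_const]
    refine integral_congr_ae (.of_forall fun w => ?_)
    simp only
    rw [← f.sum_sq_inner_left w, Finset.sum_mul]
    exact Finset.sum_congr rfl fun i _ => by rw [real_inner_smul_right]; ring
  have h5 : ∀ i, Q (‖c‖ • f i) = Q c := fun i =>
    h1 _ _ (by rw [norm_smul, norm_norm, f.orthonormal.1 i, mul_one])
  simp only [h5, Finset.sum_const, Finset.card_univ, Fintype.card_fin, nsmul_eq_mul] at h3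
  change Q c = _
  rw [div_mul_eq_mul_div, eq_div_iff dpos.ne', ← h3, mul_comm]

theorem iso (a b : V) : ∫ w in ball (0 : V) 1, ⟪w, a⟫ * ⟪w, b⟫ = kk / dm * ⟪a, b⟫ := by
  have h6 : (∫ w in ball (0 : V) 1, ⟪w, a + b⟫ * ⟪w, a + b⟫) -
      ∫ w in ball (0 : V) 1, ⟪w, a - b⟫ * ⟪w, a - b⟫ =
        4 * ∫ w in ball (0 : V) 1, ⟪w, a⟫ * ⟪w, b⟫ := by
    rw [← integral_sub (int (by fun_prop)) (int (by fun_prop)), ← integral_const_mul]
    refine integral_congr_ae (.of_forall fun w => ?_)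
    simp only [inner_add_right, inner_sub_right]
    ring
  rw [sq, sq, norm_add_sq_real, norm_sub_sq_real] at h6
  linarith

theorem hs (A : V →L[ℝ] V) : ∫ w in ball (0 : V) 1, ‖A w‖ ^ 2 = kk / dm *
    ∑ i, ∑ j, ⟪A (EuclideanSpace.basisFun (Fin dm) ℝ j), EuclideanSpace.basisFun (Fin dm) ℝ i⟫
      ^ 2 := by
  set f := EuclideanSpace.basisFun (Fin dm) ℝ
  have e : ∀ w, ‖A w‖ ^ 2 = ∑ i, ⟪w, ContinuousLinearMap.adjoint A (f i)⟫ *
      ⟪w, ContinuousLinearMap.adjoint A (f i)⟫ := fun w => by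
    rw [← f.sum_sq_inner_left (A w)]
    exact Finset.sum_congr rfl fun i _ => by rw [ContinuousLinearMap.adjoint_inner_right, pow_two]
  simp only [e]
  rw [integral_finsetSum _ fun i _ => int (by fun_prop), Finset.mul_sum]
  refine Finset.sum_congr rfl fun i _ => ?_
  rw [sq, ← f.sum_sq_inner_right]
  simp only [ContinuousLinearMap.adjoint_inner_right]

end Iso

theorem sISO : SISO := by
  refine ⟨Iso.kpos, Iso.iso, fun A => ?_⟩
  rw [Iso.hs, Iso.hs, Finset.sum_comm]
  simp only [ContinuousLinearMap.adjoint_inner_left, real_inner_comm]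

end Pool.Agent.MP_3ee8cb_gt.PX
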