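import Pool.Agent.MP_3ee8cb_gt.PX.Spec
import Pool.Agent.MP_3ee8cb_gt.DNWI.Base

/-! The speed of the image of a curve. -/

namespace Pool.Agent.MP_3ee8cb_gt.PX

open DN

variable [Dim]

open Set Filter Topology

/-- The derivative of the inverse of the exponential map at its centre. -/
theorem lg_fderiv {m : MF} {lg : V × V → V} (ho : m.OK) (hj : m.Jac) (hl : m.Had lg) (y : V) :
    HasFDerivAt (fun z => lg (y, z)) (m.S y) y := by
  have c1 : ContDiff ℝ 1 fun z => lg (y, z) := hl.c1.comp (contDiff_const.prodMk contDiff_id)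
  have d1 := (c1.differentiable one_ne_zero y).hasFDerivAt
  have e : fderiv ℝ (fun z => lg (y, z)) y = m.S y := by
    refine ContinuousLinearMap.ext fun u => ?_
    have d2 : HasDerivAt (fun s => (m.Z s (y, m.S y u)).1) u 0 := by
      have h : HasDerivAt (fun s => (m.Z s (y, m.S y u)).1) (m.vf (m.Z 0 (y, m.S y u))).1 0 :=
        (ho.ode (y, m.S y u) 0).fst
      rwa [ho.zero, MF.vf, ho.RS] at h
    have d3 : HasFDerivAt (fun z => lg (y, z)) (fderiv ℝ (fun z => lg (y, z)) y)
        (m.Z 0 (y, m.S y u)).1 := by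
      rw [ho.zero]
      exact d1
    have d4 := d3.comp_hasDerivAt 0 d2
    have d5 : HasDerivAt (fun s : ℝ => s • m.S y u) (m.S y u) 0 := by
      simpa using (hasDerivAt_id (0 : ℝ)).smul_const (m.S y u)
    have e2 : ((fun z => lg (y, z)) ∘ fun s => (m.Z s (y, m.S y u)).1) =
        fun s : ℝ => s • m.S y u := funext fun s => DNWI.lg_ray hj hl s (y, m.S y u)
    rw [e2] at d4
    exact d4.unique d5
  exact e ▸ d1

theorem ssp : SSP := by
  intro m lg F c a ho hj hl hF hc
  have d1 := (lg_fderiv ho hj hl (F (c 0))).comp_hasDerivAt 0 (hF.hasFDerivAt.comp_hasDerivAt 0 hc)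
  have d2 := (d1.tendsto_slope_zero_right).norm
  refine d2.congr' ?_
  filter_upwards [self_mem_nhdsWithin] with t ht
  have ht : (0 : ℝ) < t := ht
  simp only [Function.comp_apply, zero_add, DNWI.lg_self ho hj hl, sub_zero, norm_smul, dl,
    Real.norm_eq_abs, abs_inv, abs_of_pos ht]
  rw [div_eq_inv_mul]

end Pool.Agent.MP_3ee8cb_gt.PX
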