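import Pool.Agent.MP_3ee8cb_gt.PX.Spec
import Pool.Agent.MP_3ee8cb_gt.DN.Top

/-! The theorem from the rows. -/

namespace Pool.Agent.MP_3ee8cb_gt.PX

open DN Set Filter Topology MeasureTheory
open CR (Met UT dd ng MinP)
open scoped RealInnerProductSpace

variable [Dim]

theorem top (jac : SJAC) (frm : SFRM) (had : SHAD) (act : SACT) (flp : SFLP) (shn : SHN)
    (ex : SEX) (d4 : SD4) (sdp : SDP) (b1 : SB1) (he : SHE) (b2 : SB2) (su : SSU) (seq : SEQ)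
    (xp : SXP) (loc : SLOC) (zer : SZERO) (fix : SFIX) (rad : SRAD) (ja : SJA) (sp : SSP)
    (alg : SALG) (ln : SLN2) (ms : SMS) : ∃ δ, 0 < δ ∧ MainP δ := by
  obtain ⟨C₀, r, su⟩ := su
  obtain ⟨d, d0, zer⟩ := zer
  obtain ⟨η, η0, alg⟩ := alg (2 * dm)
  have n0 : (0 : ℝ) < dm := Nat.cast_pos.2 (Nat.succ_pos _)
  obtain ⟨δ, δ0, δ1, δ2, δ3⟩ : ∃ δ : ℝ, 0 < δ ∧ δ ≤ 1 ∧ 2 * dm * (δ * C₀ (3 * d + 9)) ≤ 1 ∧
      δ * C₀ (d + 1) ≤ η := by
    have t1 : ∀ᶠ δ in 𝓝 (0 : ℝ), 2 * dm * (δ * C₀ (3 * d + 9)) ≤ 1 :=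
      (ContinuousAt.eventually_lt (f := fun δ : ℝ => 2 * dm * (δ * C₀ (3 * d + 9)))
        (g := fun _ => 1) (by fun_prop) continuousAt_const (by simp)).mono fun _ h => h.le
    have t2 : ∀ᶠ δ in 𝓝 (0 : ℝ), δ * C₀ (d + 1) ≤ η :=
      (ContinuousAt.eventually_lt (f := fun δ : ℝ => δ * C₀ (d + 1)) (g := fun _ => η)
        (by fun_prop) continuousAt_const (by simpa using η0)).mono fun _ h => h.le
    have t3 : ∀ᶠ δ in 𝓝 (0 : ℝ), δ ≤ 1 := eventually_le_nhds one_pos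
    obtain ⟨δ, h, h0⟩ := (((t3.and (t1.and t2)).filter_mono nhdsWithin_le_nhds).and
      (self_mem_nhdsWithin (s := Ioi (0 : ℝ)))).exists
    exact ⟨δ, h0, h⟩
  refine ⟨δ, δ0, ?_⟩
  intro g h C C' Γ Λ _ _ _ _ Φ Ψ ρ F qg qh cg ch dΓ dΛ cj kh
  have kh' : TB.CurvLe h 1 := ⟨C', ch, fun x u v => by simpa using (kh x u v).2⟩
  obtain ⟨m, o, l⟩ := frm g C Γ Φ qg cg
  obtain ⟨m', o', l'⟩ := frm h C' Λ Ψ qh ch
  have j := jac m o
  have j' := jac m' o'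
  obtain ⟨O, aO⟩ := act g C Γ Φ qg cg m o l dΓ
  obtain ⟨O', aO'⟩ := act h C' Λ Ψ qh ch m' o' l' dΛ
  obtain ⟨lg, hl, hd⟩ := had h C' Λ Ψ qh ch m' 1 o' j' l' one_pos kh'
  have hin := shn h C' Λ Ψ qh ch m' lg 1 o' l' one_pos kh' hd
  obtain ⟨mn, s, F', -, cj', fl⟩ := flp g h C C' Γ Λ Φ Ψ ρ F qg qh cg ch dΓ dΛ cj 1 one_pos kh'
  have cjh : LV.CJ h h Ψ Ψ (MulEquiv.refl Λ) (Homeomorph.refl _) :=
    ⟨fun _ _ => rfl, fun _ _ _ e => e⟩
  have mh := (flp h h C' C' Λ Λ Ψ Ψ _ _ qh qh ch ch dΛ dΛ cjh 1 one_pos kh').1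
  have cs : ∀ u v : V, 0 ≤ ‖u‖ ^ 2 * ‖v‖ ^ 2 - ⟪u, v⟫ ^ 2 := fun u v => by
    have := real_inner_mul_inner_self_le u v
    rw [real_inner_self_eq_norm_sq, real_inner_self_eq_norm_sq] at this
    nlinarith
  have u1 : m'.Up 1 := fun y u v => by
    have := (kh y (m'.R y u) (m'.R y v)).2
    rw [(l'.sec o' y u v).1, ← (l'.sec o' y u v).2]
    linarith
  have d1 : m'.Dn (1 + δ) := fun y u v => by
    have := (kh y (m'.R y u) (m'.R y v)).1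
    rw [(l'.sec o' y u v).1, ← (l'.sec o' y u v).2]
    linarith
  have ph : PH m' lg δ := ⟨o', j', hl, hin, fun y u v =>
    le_trans (mul_le_mul_of_nonneg_right zero_le_one (cs u v)) (u1 y u v), u1, d1, δ0.le, δ1⟩
  have e1 := ex g h C C' Γ Λ Φ Ψ ρ F' qg qh cg ch dΓ dΛ cj' kh'
  have e2 := ex h h C' C' Λ Λ Ψ Ψ _ _ qh qh ch ch dΛ dΛ cjh kh'
  obtain ⟨D, dp, dc, de⟩ := sdp g h C C' Γ Λ Φ Ψ ρ F' qg qh cg ch dΓ dΛ cj' kh' mn fl e1
    (d4 g h C C' Γ Λ Φ Ψ ρ F' qg qh cg ch dΓ dΛ cj' kh' mn fl e1 e2)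
  have el : dl lg = dd h := funext fun y => funext fun z => hd y z
  have xp' := xp g C Γ Φ qg cg m o l
  have dat : Dat m' lg (dd g) D m.R (uu lg D) δ C₀ r := ⟨ph, xp', el ▸ dp,
    su m' lg δ _ D ph (b1 _ _ _ ph) (b2 _ _ _ ph (he _ _ _ ph)) (el ▸ dp)⟩
  have lc := loc _ _ _ _ _ _ _ _ _ dat
  obtain ⟨z1, z2⟩ := zer _ _ _ _ _ _ _ _ _ dat lc
  obtain ⟨G, fm⟩ := fix _ _ _ _ _ _ _ _ _ d dat lc d0 δ2 z1 z2
  obtain ⟨ll, ae⟩ := rad _ _ _ _ _ _ _ _ _ d G dat lc fm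
  have eq : ∀ (γ : Γ) x, G (γ • x) = ρ γ • G x := fun γ x =>
    (fm.uniq _ _ (seq m' lg Λ O' D (ρ γ) x (γ • x) (G x) o' hl aO' (de γ x) (fm.zero x))).symm
  have fz : ∀ (z : V × V) (t : ℝ), ∃ p : UT g, p.1.1 = z.1 ∧
      (Φ (‖z.2‖ * t) p).1.1 = (m.Z t z).1 := fun z t => by
    obtain ⟨u, hu, e⟩ : ∃ u : V, ‖u‖ = 1 ∧ z.2 = ‖z.2‖ • u := by
      by_cases hb : z.2 = 0
      · exact ⟨EuclideanSpace.single 0 1, by simp, by simp [hb]⟩
      · exact ⟨‖z.2‖⁻¹ • z.2, norm_smul_inv_norm hb,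
          (smul_inv_smul₀ (norm_ne_zero_iff.2 hb) _).symm⟩
    refine ⟨⟨(z.1, m.R z.1 u), by
      change g z.1 (m.R z.1 u) (m.R z.1 u) = 1
      rw [l.orth, real_inner_self_eq_norm_sq, hu, one_pow]⟩, rfl, ?_⟩
    have h1 := j.scale t ‖z.2‖ z.1 u
    rw [← e] at h1
    rw [show m.Z t z = m.Z t (z.1, z.2) from rfl, h1]
    have h2 := congrArg Prod.fst (l.flow (‖z.2‖ * t) ⟨(z.1, m.R z.1 u), by
      change g z.1 (m.R z.1 u) (m.R z.1 u) = 1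
      rw [l.orth, real_inner_self_eq_norm_sq, hu, one_pow]⟩)
    simp only [o.SR] at h2
    exact h2.symm
  have dz : ∀ (z : V × V) (t : ℝ), 0 ≤ t → dd g z.1 (m.Z t z).1 = t * ‖z.2‖ := fun z t ht => by
    obtain ⟨p, h1, h2⟩ := fz z t
    have := mn p 0 (‖z.2‖ * t)
    rw [qg.rp.flow.zero, h1, h2, zero_sub, abs_neg, abs_of_nonneg (by positivity)] at this
    rw [this, mul_comm]
  have db := qh.rp.db
  have len : Len m Γ fun x x' => dd h (G x) (G x') := by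
    refine ⟨db.cont.comp ((ll.continuous.comp continuous_fst).prodMk
      (ll.continuous.comp continuous_snd)), fun γ x x' => ?_, fun _ _ _ => db.tri _ _ _,
      fun _ _ => db.nonneg _ _, ⟨2 * d, fun z t ht => ?_⟩, ⟨2 * dm, fun z t hz h0 h1 => ?_⟩⟩
    · rw [eq, eq, qh.rp.inv]
    · obtain ⟨p, h1, h2⟩ := fz z t
      have a1 := fm.near _ _ (dc p)
      have a2 := fm.near _ _ (dc (Φ (‖z.2‖ * t) p))
      have a3 := mh (F' p) 0 (‖z.2‖ * t)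
      rw [qh.rp.flow.zero, zero_sub, abs_neg, abs_of_nonneg (by positivity), ← cj'.flow] at a3
      rw [el, h1, db.symm] at a1
      rw [el, h2] at a2
      have a4 := db.tri (F' p).1.1 (G z.1) (F' (Φ (‖z.2‖ * t) p)).1.1
      have a5 := db.tri (G z.1) (G (m.Z t z).1) (F' (Φ (‖z.2‖ * t) p)).1.1
      linarith
    · have a1 := dz z t h0
      have a2 : t * ‖z.2‖ ≤ t := mul_le_of_le_one_right h0 hz
      have := fm.lip z.1 (m.Z t z).1 (by linarith)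
      rw [el, a1] at this
      nlinarith
  have key := ln m Γ O _ (dF m' m.R G) o j aO (CR.fd dm g Γ qg.rp.deck) len (by
    filter_upwards [ae] with x hx
    have lim : ∀ a, Tendsto (fun t => dd h (G x) (G (m.Z t (x, a)).1) / t) (𝓝[>] 0)
        (𝓝 ‖dF m' m.R G x a‖) := fun a => by
      have h1 : HasDerivAt (fun t => (m.Z t (x, a)).1) (m.R x a) 0 := by
        have := (ContinuousLinearMap.fst ℝ V V).hasFDerivAt.comp_hasDerivAt 0 (o.ode (x, a) 0)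
        rw [o.zero] at this
        exact this
      have := sp m' lg G (fun t => (m.Z t (x, a)).1) _ o' j' hl (by rw [o.zero]; exact hx.1) h1
      simp only [o.zero, el] at this
      exact this
    refine ⟨lim, alg _ _ (mul_nonneg δ0.le (dat.su.pos _).1.le) δ3
      (ContinuousLinearMap.opNorm_le_of_unit_norm (by positivity) fun a ha => ?_)
      (ja _ _ _ _ _ _ _ _ _ d G x dat lc fm ll hx.1 hx.2)⟩
    refine le_of_tendsto (lim a) ?_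
    filter_upwards [Ioc_mem_nhdsGT one_pos] with t ht
    have a1 := dz (x, a) t ht.1.le
    have := fm.lip x (m.Z t (x, a)).1 (by rw [a1, ha]; linarith [ht.2])
    rw [el, a1, ha, mul_one] at this
    exact (div_le_iff₀ ht.1).2 this)
  have iso : ∀ x x', dd h (G x) (G x') = dd g x x' := fun x x' => by
    obtain ⟨p, h1, h2⟩ := qg.rp.hr x x'
    have a1 := congrArg Prod.fst (l.flow (dd g x x') p)
    have a2 := key (p.1.1, m.S p.1.1 p.1.2) _ (qg.rp.db.nonneg x x')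
    have a3 := dz (p.1.1, m.S p.1.1 p.1.2) _ (qg.rp.db.nonneg x x')
    simp only [a1, h2] at a2 a3
    rw [h1] at a2 a3
    rw [a2, ← a3]
  obtain ⟨i1, i2, i3⟩ := ms g h C C' Γ Λ Φ Ψ ρ F qg qh cg ch dΓ dΛ cj m m' lg G o j l o' j' l' hl
    hd mn iso
  exact ⟨G, i1, i2, i3, eq⟩

end Pool.Agent.MP_3ee8cb_gt.PX
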